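import Mathlib

set_option autoImplicit false

namespace Pool.Agent.Helper12.BCM

open AdicCompletion

/-- a dense strict ring homomorphism to an adically complete ring is the completion -/
theorem exists_completion_equiv {R S : Type*} [CommRing R] [CommRing S] (I : Ideal R) (J : Ideal S)
    (f : R →+* S) (h1 : ∀ (n : ℕ) (z : R), f z ∈ J ^ n ↔ z ∈ I ^ n)
    (h2 : ∀ (n : ℕ) (z : S), ∃ a : R, z - f a ∈ J ^ n) [IsAdicComplete J S] :
    ∃ F : AdicCompletion I R ≃+* S, ∀ r, F (algebraMap R _ r) = f r := by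
  have hle : ∀ n : ℕ, I ^ n ≤ Ideal.comap f (J ^ n) := fun n z hz => (h1 n z).mpr hz
  let g : (n : ℕ) → AdicCompletion I R →+* S ⧸ J ^ n := fun n =>
    (Ideal.quotientMap (J ^ n) f (hle n)).comp (evalₐ I n).toRingHom
  have hg_mk : ∀ n (x : AdicCauchySequence I R), g n (AdicCompletion.mk I R x) =
      Ideal.Quotient.mk _ (f (x n)) := by
    intro n x
    show Ideal.quotientMap (J ^ n) f (hle n) (evalₐ I n (AdicCompletion.mk I R x)) = _
    rw [evalₐ_mk, Ideal.quotientMap_mk]
  have hg : ∀ {m n : ℕ} (hle : m ≤ n), (Ideal.Quotient.factorPow J hle).comp (g n) = g m := by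
    intro m n hle
    ext x
    obtain ⟨x, rfl⟩ := AdicCompletion.mk_surjective I R x
    rw [RingHom.comp_apply, hg_mk, hg_mk]
    show Ideal.Quotient.mk _ (f (x n)) = Ideal.Quotient.mk _ (f (x m))
    rw [Ideal.Quotient.eq, ← map_sub, h1]
    have := x.2 hle
    rw [SModEq.comm, SModEq.sub_mem, smul_eq_mul, Ideal.mul_top] at this
    exact this
  let F : AdicCompletion I R →+* S := IsAdicComplete.liftRingHom J g hg
  have hF : ∀ n x, Ideal.Quotient.mk (J ^ n) (F x) = g n x := fun n x =>
    IsAdicComplete.mk_liftRingHom J g hg n x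
  have hinj : Function.Injective F := by
    rw [injective_iff_map_eq_zero]
    intro x hx
    apply AdicCompletion.ext_evalₐ
    intro n
    rw [_root_.map_zero]
    have h3 := hF n x
    rw [hx, _root_.map_zero] at h3
    obtain ⟨x, rfl⟩ := AdicCompletion.mk_surjective I R x
    rw [hg_mk, eq_comm, Ideal.Quotient.eq_zero_iff_mem, h1] at h3
    rw [evalₐ_mk, Ideal.Quotient.eq_zero_iff_mem]
    exact h3
  have hsurj : Function.Surjective F := by
    intro z
    choose a ha using fun n => h2 n z
    have hc : ∀ n, a n ≡ a (n + 1) [SMOD (I ^ n • ⊤ : Submodule R R)] := by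
      intro n
      rw [SModEq.sub_mem, smul_eq_mul, Ideal.mul_top, ← h1, map_sub]
      have h3 : z - f (a (n + 1)) ∈ J ^ n := Ideal.pow_le_pow_right (by omega) (ha (n + 1))
      have h4 := Ideal.sub_mem _ h3 (ha n)
      convert h4 using 1
      ring
    refine ⟨AdicCompletion.mk I R (AdicCauchySequence.mk I R a hc), ?_⟩
    have hH : IsHausdorff J S := inferInstance
    rw [← sub_eq_zero]
    apply hH.haus'
    intro n
    rw [SModEq.zero, smul_eq_mul, Ideal.mul_top, ← Ideal.Quotient.eq_zero_iff_mem, map_sub, hF,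
      hg_mk, sub_eq_zero, Ideal.Quotient.eq]
    have := Ideal.neg_mem_iff _ |>.mpr (ha n)
    rwa [neg_sub] at this
  refine ⟨RingEquiv.ofBijective F ⟨hinj, hsurj⟩, fun r => ?_⟩
  show F (algebraMap R _ r) = f r
  have hH : IsHausdorff J S := inferInstance
  rw [← sub_eq_zero]
  apply hH.haus'
  intro n
  rw [SModEq.zero, smul_eq_mul, Ideal.mul_top, ← Ideal.Quotient.eq_zero_iff_mem, map_sub, hF]
  have : g n (algebraMap R (AdicCompletion I R) r) = Ideal.Quotient.mk (J ^ n) (f r) := by
    show Ideal.quotientMap (J ^ n) f (hle n) (evalₐ I n (algebraMap R (AdicCompletion I R) r)) = _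
    rw [AlgHom.commutes]
    show Ideal.quotientMap (J ^ n) f (hle n) (Ideal.Quotient.mk _ r) = _
    rw [Ideal.quotientMap_mk]
  rw [this, sub_self]

end Pool.Agent.Helper12.BCM
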