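import Mathlib

set_option autoImplicit false

namespace Pool.Agent.Helper12.BCM

open RingTheory.Sequence

/-- elementary form of: `a, b` is weakly regular on `N` -/
def Reg2 {R : Type*} (N : Type*) [CommRing R] [AddCommGroup N] [Module R N] (a b : R) : Prop :=
  (∀ n : N, a • n = 0 → n = 0) ∧ (∀ n n' : N, b • n = a • n' → ∃ n'' : N, n = a • n'')

section

variable {R : Type*} [CommRing R] {N : Type*} [AddCommGroup N] [Module R N]

lemma isSMulRegular_iff' {a : R} : IsSMulRegular N a ↔ ∀ n : N, a • n = 0 → n = 0 :=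
  isSMulRegular_iff_right_eq_zero_of_smul

open Pointwise in
lemma mem_smul_top_iff' {a : R} {n : N} : n ∈ a • (⊤ : Submodule R N) ↔ ∃ n', n = a • n' := by
  rw [Submodule.mem_smul_pointwise_iff_exists]
  constructor
  · rintro ⟨m, -, rfl⟩; exact ⟨m, rfl⟩
  · rintro ⟨m, rfl⟩; exact ⟨m, Submodule.mem_top, rfl⟩

lemma isWeaklyRegular_pair_iff {a b : R} : IsWeaklyRegular N [a, b] ↔ Reg2 N a b := by
  rw [isWeaklyRegular_cons_iff, isWeaklyRegular_cons_iff]
  rw [isSMulRegular_iff', isSMulRegular_iff', Reg2]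
  constructor
  · rintro ⟨h1, h2, -⟩
    refine ⟨h1, fun n n' hn => ?_⟩
    have h3 := h2 (Submodule.Quotient.mk n) (by
      rw [← Submodule.Quotient.mk_smul, Submodule.Quotient.mk_eq_zero, mem_smul_top_iff']
      exact ⟨n', hn⟩)
    rwa [Submodule.Quotient.mk_eq_zero, mem_smul_top_iff'] at h3
  · rintro ⟨h1, h2⟩
    refine ⟨h1, ?_, IsWeaklyRegular.nil _ _⟩
    intro n hn
    obtain ⟨n, rfl⟩ := Submodule.Quotient.mk_surjective _ n
    rw [← Submodule.Quotient.mk_smul, Submodule.Quotient.mk_eq_zero, mem_smul_top_iff'] at hn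
    rw [Submodule.Quotient.mk_eq_zero, mem_smul_top_iff']
    obtain ⟨n', hn'⟩ := hn
    exact h2 n n' hn'

lemma isRegular_pair_iff [IsLocalRing R] [Module.Finite R N] [Nontrivial N] {a b : R}
    (ha : a ∈ IsLocalRing.maximalIdeal R) (hb : b ∈ IsLocalRing.maximalIdeal R) :
    IsRegular N [a, b] ↔ Reg2 N a b := by
  rw [IsLocalRing.isRegular_iff_isWeaklyRegular_of_subset_maximalIdeal, isWeaklyRegular_pair_iff]
  intro r hr
  simp only [List.mem_cons, List.not_mem_nil, or_false] at hr
  rcases hr with rfl | rfl <;> assumption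

/-- regular elements of a two-dimensional local ring are regular on modules of depth two -/
lemma regular_of_reg2 {R : Type*} [CommRing R] [IsLocalRing R] [IsNoetherianRing R]
    (hdim : ringKrullDim R = 2) {N : Type*} [AddCommGroup N] [Module R N] [Module.Finite R N]
    {a b : R} (ha : a ∈ IsLocalRing.maximalIdeal R) (hb : b ∈ IsLocalRing.maximalIdeal R)
    (hab : Reg2 N a b) {r : R} (hr : r ∈ IsLocalRing.maximalIdeal R) (hreg : IsSMulRegular R r)
    (n : N) (hn : r • n = 0) : n = 0 := by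
  by_contra hne
  -- the kernel of multiplication by `r`
  let K : Submodule R N := LinearMap.ker (LinearMap.lsmul R N r)
  have hK : ∀ m : N, m ∈ K ↔ r • m = 0 := fun m => by
    simp [K, LinearMap.mem_ker]
  have hnt : Nontrivial K := ⟨⟨⟨n, (hK n).mpr hn⟩, 0, fun h => hne (congrArg Subtype.val h)⟩⟩
  have hfin : Module.Finite R K := inferInstance
  have hKreg : Reg2 K a b := by
    constructor
    · intro m hm
      have := hab.1 m.1 (congrArg Subtype.val hm)
      exact Subtype.ext this
    · intro m m' hm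
      obtain ⟨m'', hm''⟩ := hab.2 m.1 m'.1 (congrArg Subtype.val hm)
      have hmem : m'' ∈ K := by
        rw [hK]
        apply hab.1
        have h1 := (hK m.1).mp m.2
        rw [hm''] at h1
        rw [smul_comm]; exact h1
      exact ⟨⟨m'', hmem⟩, Subtype.ext hm''⟩
  have hKR : IsRegular K [a, b] := (isRegular_pair_iff ha hb).mpr hKreg
  have h1 := Module.supportDim_add_length_eq_supportDim_of_isRegular (R := R) (M := K) [a, b] hKR
  have hntq : Nontrivial (K ⧸ (Ideal.ofList [a, b]) • (⊤ : Submodule R K)) :=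
    hKR.quot_ofList_smul_nontrivial ⊤
  have h2 : (0 : WithBot ℕ∞) ≤ Module.supportDim R (K ⧸ (Ideal.ofList [a, b]) • (⊤ : Submodule R K)) := by
    have := Module.supportDim_ne_bot_of_nontrivial (R := R)
      (M := (K ⧸ (Ideal.ofList [a, b]) • (⊤ : Submodule R K)))
    obtain ⟨c, hc⟩ := WithBot.ne_bot_iff_exists.mp this
    rw [← hc]
    exact WithBot.coe_le_coe.mpr (zero_le (a := c))
  have h3 : (2 : WithBot ℕ∞) ≤ Module.supportDim R K := by
    rw [← h1]
    have : (([a, b] : List R).length : WithBot ℕ∞) = 2 := by simp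
    rw [this]
    calc (2 : WithBot ℕ∞) = 0 + 2 := by rw [zero_add]
      _ ≤ _ := add_le_add_left h2 2
  have h4 : Module.supportDim R K ≤ ringKrullDim (R ⧸ Ideal.span {r}) := by
    rw [Module.supportDim_eq_ringKrullDim_quotient_annihilator]
    have hle : Ideal.span {r} ≤ Module.annihilator R K := by
      rw [Ideal.span_singleton_le_iff_mem, Module.mem_annihilator]
      intro m
      exact Subtype.ext ((hK m.1).mp m.2)
    exact ringKrullDim_le_of_surjective (Ideal.Quotient.factor hle)
      (Ideal.Quotient.factor_surjective hle)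
  have h5 := ringKrullDim_quotient_span_singleton_succ_eq_ringKrullDim hreg hr
  rw [hdim] at h5
  have h6 : (2 : WithBot ℕ∞) + 1 ≤ 2 := by
    calc (2 : WithBot ℕ∞) + 1 ≤ ringKrullDim (R ⧸ Ideal.span {r}) + 1 :=
          add_le_add_left (h3.trans h4) 1
      _ = 2 := h5
  have h7 : (3 : WithBot ℕ∞) ≤ 2 := by
    have : (2 : WithBot ℕ∞) + 1 = 3 := by norm_num
    rwa [this] at h6
  exact absurd h7 (by decide)

/-- no socle in `N / r N` -/
lemma mem_smul_of_max_smul {R : Type*} [CommRing R] [IsLocalRing R] {N : Type*} [AddCommGroup N]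
    [Module R N] {a b : R} (ha : a ∈ IsLocalRing.maximalIdeal R)
    (hb : b ∈ IsLocalRing.maximalIdeal R) (hab : Reg2 N a b) {r : R}
    (hr : ∀ n : N, r • n = 0 → n = 0) (n : N)
    (hn : ∀ s ∈ IsLocalRing.maximalIdeal R, ∃ n', s • n = r • n') : ∃ n', n = r • n' := by
  obtain ⟨n', hn'⟩ := hn a ha
  obtain ⟨nb, hnb⟩ := hn b hb
  have h1 : b • n' = a • nb := by
    have : r • (b • n' - a • nb) = 0 := by
      rw [smul_sub, smul_comm r b, ← hn', smul_comm r a, ← hnb, smul_comm b a, sub_self]
    exact sub_eq_zero.mp (hr _ this)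
  obtain ⟨n'', hn''⟩ := hab.2 n' nb h1
  refine ⟨n'', ?_⟩
  have : a • (n - r • n'') = 0 := by
    rw [smul_sub, hn', hn'', smul_comm a r, sub_self]
  exact sub_eq_zero.mp (hab.1 _ this)

end

end Pool.Agent.Helper12.BCM
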