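import Mathlib
import Pool.Agent.Helper12.BCM.Reg2

set_option autoImplicit false

namespace Pool.Agent.Helper12.BCM

section

variable {R : Type*} [CommRing R] {M : Type*} [AddCommGroup M] [Module R M]

variable (M) in
/-- the submodule `a M` -/
def aM (a : R) : Submodule R M := LinearMap.range (LinearMap.lsmul R M a)

lemma mem_aM {a : R} {m : M} : m ∈ aM M a ↔ ∃ m', m = a • m' := by
  constructor
  · rintro ⟨m', rfl⟩; exact ⟨m', rfl⟩
  · rintro ⟨m', rfl⟩; exact ⟨m', rfl⟩

variable (R) in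
/-- length of the quotient -/
noncomputable def qlen (P : Submodule R M) : ℕ∞ := Module.length R (M ⧸ P)

lemma qlen_mono {P Q : Submodule R M} (h : P ≤ Q) : qlen R Q ≤ qlen R P := by
  refine Module.length_le_of_surjective (Submodule.factor h) ?_
  exact Submodule.factor_surjective h

lemma aM_pow_succ_le (a : R) (n : ℕ) : aM M (a ^ (n + 1)) ≤ aM M a := by
  intro m hm
  obtain ⟨m', rfl⟩ := mem_aM.mp hm
  rw [pow_succ', mul_smul]
  exact mem_aM.mpr ⟨_, rfl⟩

/-- the exact sequence used for the length computations -/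
lemma exists_exact (P : Submodule R M) (a : R) (n : ℕ) :
    ∃ (f1 : (M ⧸ (P ⊔ aM M (a ^ n))) →ₗ[R] (M ⧸ (P ⊔ aM M (a ^ (n + 1)))))
      (f2 : (M ⧸ (P ⊔ aM M (a ^ (n + 1)))) →ₗ[R] (M ⧸ (P ⊔ aM M a))),
      Function.Surjective f2 ∧ Function.Exact f1 f2 ∧
      ((∀ m : M, a • m ∈ P → m ∈ P) → Function.Injective f1) := by
  let g : M →ₗ[R] (M ⧸ (P ⊔ aM M (a ^ (n + 1)))) :=
    (Submodule.mkQ _).comp (LinearMap.lsmul R M a)
  have hg : ∀ m, g m = Submodule.Quotient.mk (a • m) := fun m => rfl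
  have hle : P ⊔ aM M (a ^ n) ≤ LinearMap.ker g := by
    rw [sup_le_iff]
    constructor
    · intro m hm
      rw [LinearMap.mem_ker, hg, Submodule.Quotient.mk_eq_zero]
      exact Submodule.mem_sup_left (P.smul_mem _ hm)
    · intro m hm
      obtain ⟨m', rfl⟩ := mem_aM.mp hm
      rw [LinearMap.mem_ker, hg, Submodule.Quotient.mk_eq_zero, smul_smul, ← pow_succ']
      exact Submodule.mem_sup_right (mem_aM.mpr ⟨_, rfl⟩)
  have hle2 : P ⊔ aM M (a ^ (n + 1)) ≤ P ⊔ aM M a := sup_le_sup le_rfl (aM_pow_succ_le a n)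
  refine ⟨Submodule.liftQ _ g hle, Submodule.factor hle2, Submodule.factor_surjective hle2, ?_, ?_⟩
  · intro z
    obtain ⟨z, rfl⟩ := Submodule.Quotient.mk_surjective _ z
    constructor
    · intro h
      have h1 : (Submodule.Quotient.mk z : M ⧸ (P ⊔ aM M a)) = 0 := h
      rw [Submodule.Quotient.mk_eq_zero] at h1
      obtain ⟨p, hp, q, hq, rfl⟩ := Submodule.mem_sup.mp h1
      obtain ⟨m', rfl⟩ := mem_aM.mp hq
      refine ⟨Submodule.Quotient.mk m', ?_⟩
      show (Submodule.Quotient.mk (a • m') : M ⧸ (P ⊔ aM M (a ^ (n + 1)))) = _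
      rw [Submodule.Quotient.eq, sub_add_cancel_right]
      exact Submodule.mem_sup_left (P.neg_mem hp)
    · rintro ⟨w, hw⟩
      obtain ⟨w, rfl⟩ := Submodule.Quotient.mk_surjective _ w
      rw [← hw]
      show (Submodule.Quotient.mk (a • w) : M ⧸ (P ⊔ aM M a)) = 0
      rw [Submodule.Quotient.mk_eq_zero]
      exact Submodule.mem_sup_right (mem_aM.mpr ⟨_, rfl⟩)
  · intro hreg
    rw [← LinearMap.ker_eq_bot, LinearMap.ker_eq_bot']
    intro w hw
    obtain ⟨w, rfl⟩ := Submodule.Quotient.mk_surjective _ w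
    have h1 : (Submodule.Quotient.mk (a • w) : M ⧸ (P ⊔ aM M (a ^ (n + 1)))) = 0 := hw
    rw [Submodule.Quotient.mk_eq_zero] at h1 ⊢
    obtain ⟨p, hp, q, hq, hpq⟩ := Submodule.mem_sup.mp h1
    obtain ⟨m', rfl⟩ := mem_aM.mp hq
    have h2 : w - a ^ n • m' ∈ P := by
      apply hreg
      have : a • (w - a ^ n • m') = p := by
        rw [smul_sub, smul_smul, ← pow_succ', ← hpq]; abel
      rw [this]; exact hp
    have h3 : w = (w - a ^ n • m') + a ^ n • m' := by abel
    rw [h3]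
    exact Submodule.add_mem_sup h2 (mem_aM.mpr ⟨_, rfl⟩)

lemma qlen_succ_le (P : Submodule R M) (a : R) (n : ℕ) :
    qlen R (P ⊔ aM M (a ^ (n + 1))) ≤ qlen R (P ⊔ aM M (a ^ n)) + qlen R (P ⊔ aM M a) := by
  obtain ⟨f1, f2, h2, hex, -⟩ := exists_exact P a n
  rw [qlen, qlen, qlen, Module.length_eq_add_of_exact (LinearMap.ker f2).subtype f2
    (Submodule.subtype_injective _) h2 (LinearMap.exact_subtype_ker_map f2)]
  refine add_le_add_left ?_ _
  refine Module.length_le_of_surjective (f1.codRestrict (LinearMap.ker f2) fun c => ?_) ?_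
  · rw [LinearMap.mem_ker]; exact (hex _).mpr ⟨c, rfl⟩
  · rintro ⟨w, hw⟩
    obtain ⟨c, hc⟩ := (hex w).mp hw
    exact ⟨c, Subtype.ext hc⟩

lemma qlen_succ_ge (P : Submodule R M) (a : R) (n : ℕ) (hreg : ∀ m : M, a • m ∈ P → m ∈ P) :
    qlen R (P ⊔ aM M (a ^ n)) + qlen R (P ⊔ aM M a) ≤ qlen R (P ⊔ aM M (a ^ (n + 1))) := by
  obtain ⟨f1, f2, h2, hex, hinj⟩ := exists_exact P a n
  rw [qlen, qlen, qlen, Module.length_eq_add_of_exact f1 f2 (hinj hreg) h2 hex]

lemma aM_one : aM M (1 : R) = ⊤ := by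
  rw [eq_top_iff]
  intro m _
  exact mem_aM.mpr ⟨m, (one_smul R m).symm⟩

lemma qlen_top : qlen R (⊤ : Submodule R M) = 0 := by
  rw [qlen, Module.length_eq_zero_iff]
  refine ⟨fun z w => ?_⟩
  obtain ⟨z, rfl⟩ := Submodule.Quotient.mk_surjective _ z
  obtain ⟨w, rfl⟩ := Submodule.Quotient.mk_surjective _ w
  rw [Submodule.Quotient.eq]; exact Submodule.mem_top

lemma qlen_pow_le (P : Submodule R M) (a : R) (n : ℕ) :
    qlen R (P ⊔ aM M (a ^ n)) ≤ n * qlen R (P ⊔ aM M a) := by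
  induction n with
  | zero => rw [pow_zero, aM_one, sup_top_eq, qlen_top]; simp
  | succ n ih =>
    refine (qlen_succ_le P a n).trans ?_
    rw [Nat.cast_succ, add_mul, one_mul]
    exact add_le_add_left ih _

lemma qlen_pow_ge (P : Submodule R M) (a : R) (n : ℕ) (hreg : ∀ m : M, a • m ∈ P → m ∈ P) :
    n * qlen R (P ⊔ aM M a) ≤ qlen R (P ⊔ aM M (a ^ n)) := by
  induction n with
  | zero => simp
  | succ n ih =>
    refine le_trans ?_ (qlen_succ_ge P a n hreg)
    rw [Nat.cast_succ, add_mul, one_mul]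
    exact add_le_add_left ih _

lemma qlen_two_le (a b : R) (n : ℕ) :
    qlen R (aM M (a ^ n) ⊔ aM M (b ^ n)) ≤ n * (n * qlen R (aM M a ⊔ aM M b)) := by
  refine (qlen_pow_le (aM M (a ^ n)) b n).trans ?_
  gcongr
  rw [sup_comm, sup_comm (aM M a)]
  exact qlen_pow_le (aM M b) a n

lemma qlen_two_ge {a b : R} (hab : Reg2 M a b) (n : ℕ) :
    n * (n * qlen R (aM M a ⊔ aM M b)) ≤ qlen R (aM M (a ^ n) ⊔ aM M (b ^ n)) := by
  have h1 : ∀ m : M, b • m ∈ aM M (a ^ n) → m ∈ aM M (a ^ n) := by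
    induction n with
    | zero => intro m _; rw [pow_zero, aM_one]; exact Submodule.mem_top
    | succ n ih =>
      intro m hm
      obtain ⟨m', hm'⟩ := mem_aM.mp hm
      rw [pow_succ', mul_smul] at hm'
      obtain ⟨m1, rfl⟩ := hab.2 m _ hm'
      have h2 : a • (b • m1 - a ^ n • m') = 0 := by
        rw [smul_sub, ← hm', smul_comm, sub_self]
      have h3 := sub_eq_zero.mp (hab.1 _ h2)
      obtain ⟨m2, rfl⟩ := mem_aM.mp (ih m1 (mem_aM.mpr ⟨m', h3⟩))
      exact mem_aM.mpr ⟨m2, by rw [pow_succ', mul_smul]⟩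
  have h2 : ∀ m : M, a • m ∈ aM M b → m ∈ aM M b := by
    intro m hm
    obtain ⟨m', hm'⟩ := mem_aM.mp hm
    obtain ⟨m1, rfl⟩ := hab.2 m' m hm'.symm
    have h3 : a • (m - b • m1) = 0 := by
      rw [smul_sub, hm', smul_comm, sub_self]
    exact mem_aM.mpr ⟨m1, sub_eq_zero.mp (hab.1 _ h3)⟩
  refine le_trans ?_ (qlen_pow_ge (aM M (a ^ n)) b n h1)
  gcongr
  rw [sup_comm, sup_comm (aM M (a ^ n))]
  exact qlen_pow_ge (aM M b) a n h2

/-- two generators -/
lemma qlen_of_two_gen (a b : R) (p q : M) (h : ∀ m : M, ∃ s t : R, m = s • p + t • q) :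
    qlen R (aM M a ⊔ aM M b) ≤ 2 * Module.length R (R ⧸ Ideal.span {a, b}) := by
  set Q := aM M a ⊔ aM M b with hQ
  have hI : ∀ m : M, (Ideal.span {a, b} : Ideal R) ≤
      LinearMap.ker (LinearMap.toSpanSingleton R (M ⧸ Q) (Submodule.Quotient.mk m)) := by
    intro m r hr
    obtain ⟨s, t, rfl⟩ := Ideal.mem_span_pair.mp hr
    rw [LinearMap.mem_ker, LinearMap.toSpanSingleton_apply, ← Submodule.Quotient.mk_smul,
      Submodule.Quotient.mk_eq_zero, add_smul]
    refine Submodule.add_mem_sup (mem_aM.mpr ⟨s • m, ?_⟩) (mem_aM.mpr ⟨t • m, ?_⟩)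
    · rw [smul_smul, mul_comm]
    · rw [smul_smul, mul_comm]
  let f : ((R ⧸ Ideal.span {a, b}) × (R ⧸ Ideal.span {a, b})) →ₗ[R] (M ⧸ Q) :=
    LinearMap.coprod (Submodule.liftQ _ _ (hI p)) (Submodule.liftQ _ _ (hI q))
  have hf : Function.Surjective f := by
    intro z
    obtain ⟨z, rfl⟩ := Submodule.Quotient.mk_surjective _ z
    obtain ⟨s, t, rfl⟩ := h z
    exact ⟨(Submodule.Quotient.mk s, Submodule.Quotient.mk t), rfl⟩
  rw [qlen]
  refine (Module.length_le_of_surjective f hf).trans ?_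
  rw [Module.length_prod, two_mul]

end

section

variable {R : Type*} [CommRing R] [IsLocalRing R]

open IsLocalRing

variable (R) in
/-- length of `M / m^n M` -/
noncomputable def hs (M : Type*) [AddCommGroup M] [Module R M] (n : ℕ) : ℕ∞ :=
  Module.length R (M ⧸ (maximalIdeal R ^ n • (⊤ : Submodule R M)))

lemma hs_le {M : Type*} [AddCommGroup M] [Module R M] {a b : R} (ha : a ∈ maximalIdeal R)
    (hb : b ∈ maximalIdeal R) (p q : M) (h : ∀ m : M, ∃ s t : R, m = s • p + t • q) (n : ℕ) :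
    hs R M n ≤ n * (n * (2 * Module.length R (R ⧸ Ideal.span {a, b}))) := by
  have h1 : aM M (a ^ n) ⊔ aM M (b ^ n) ≤ maximalIdeal R ^ n • (⊤ : Submodule R M) := by
    rw [sup_le_iff]
    constructor
    · intro m hm
      obtain ⟨m', rfl⟩ := mem_aM.mp hm
      exact Submodule.smul_mem_smul (Ideal.pow_mem_pow ha n) Submodule.mem_top
    · intro m hm
      obtain ⟨m', rfl⟩ := mem_aM.mp hm
      exact Submodule.smul_mem_smul (Ideal.pow_mem_pow hb n) Submodule.mem_top
  refine (qlen_mono h1).trans ((qlen_two_le a b n).trans ?_)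
  gcongr
  exact qlen_of_two_gen a b p q h

lemma hs_ge {M : Type*} [AddCommGroup M] [Module R M] {a b : R} (hab : Reg2 M a b)
    (N n : ℕ) (hN : maximalIdeal R ^ N ≤ Ideal.span {a ^ n} ⊔ Ideal.span {b ^ n}) :
    n * (n * qlen R (aM M a ⊔ aM M b)) ≤ hs R M N := by
  refine (qlen_two_ge hab n).trans (qlen_mono ?_)
  rw [Submodule.smul_le]
  intro r hr m _
  obtain ⟨s, hs, t, ht, rfl⟩ := Submodule.mem_sup.mp (hN hr)
  obtain ⟨s', rfl⟩ := Ideal.mem_span_singleton.mp hs
  obtain ⟨t', rfl⟩ := Ideal.mem_span_singleton.mp ht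
  rw [add_smul, mul_smul, mul_smul]
  exact Submodule.add_mem_sup (mem_aM.mpr ⟨_, rfl⟩) (mem_aM.mpr ⟨_, rfl⟩)

/-- the number of generators bounds the length of `M / (a,b) M` below -/
lemma le_qlen_of_linearIndependent [IsNoetherianRing R] {M : Type*}
    [AddCommGroup M] [Module R M] [Module.Finite R M] {a b : R} (ha : a ∈ maximalIdeal R)
    (hb : b ∈ maximalIdeal R) {r : ℕ} (v : Fin r → M) (hv : LinearIndependent R v) :
    (r : ℕ∞) ≤ qlen R (aM M a ⊔ aM M b) := by
  have h1 : aM M a ⊔ aM M b ≤ maximalIdeal R • (⊤ : Submodule R M) := by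
    rw [sup_le_iff]
    constructor
    · intro m hm
      obtain ⟨m', rfl⟩ := mem_aM.mp hm
      exact Submodule.smul_mem_smul ha Submodule.mem_top
    · intro m hm
      obtain ⟨m', rfl⟩ := mem_aM.mp hm
      exact Submodule.smul_mem_smul hb Submodule.mem_top
  refine le_trans ?_ (qlen_mono h1)
  have hfg : (⊤ : Submodule R M).FG := Module.Finite.fg_top
  have h2 : (r : Cardinal) ≤ (⊤ : Submodule R M).spanRank := by
    refine le_trans ?_ (Submodule.rank_le_spanRank (R := R) (M := M))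
    have := hv.cardinal_lift_le_rank
    simpa using this
  rw [hfg.spanRank_eq_spanFinrank] at h2
  have h3 : r ≤ (⊤ : Submodule R M).spanFinrank := by exact_mod_cast h2
  rw [IsLocalRing.spanFinrank_eq_finrank_quotient (⊤ : Submodule R M) hfg] at h3
  have hfin : Module.Finite R (⊤ : Submodule R M) := Module.Finite.iff_fg.mpr hfg
  letI : Field (R ⧸ maximalIdeal R) := Ideal.Quotient.field _
  have h4 : Module.length R
      ((⊤ : Submodule R M) ⧸ (maximalIdeal R) • (⊤ : Submodule R (⊤ : Submodule R M))) =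
      Module.finrank (R ⧸ maximalIdeal R)
      ((⊤ : Submodule R M) ⧸ (maximalIdeal R) • (⊤ : Submodule R (⊤ : Submodule R M))) := by
    rw [Module.length_eq_of_surjective (R := R ⧸ maximalIdeal R) (S := R)
      Ideal.Quotient.mk_surjective]
    have : Module.Finite (R ⧸ maximalIdeal R)
      ((⊤ : Submodule R M) ⧸ (maximalIdeal R) • (⊤ : Submodule R (⊤ : Submodule R M))) :=
      Module.Finite.of_restrictScalars_finite R _ _
    exact Module.length_eq_finrank (R ⧸ maximalIdeal R) _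
  have h5 : qlen R (maximalIdeal R • (⊤ : Submodule R M)) = Module.length R
      ((⊤ : Submodule R M) ⧸ (maximalIdeal R) • (⊤ : Submodule R (⊤ : Submodule R M))) := by
    rw [qlen]
    refine (LinearEquiv.length_eq (Submodule.Quotient.equiv _ _ Submodule.topEquiv ?_)).symm
    rw [Submodule.map_smul'']
    congr 1
    rw [Submodule.map_top, LinearEquiv.range]
  rw [h5, h4]
  exact_mod_cast h3

end

end Pool.Agent.Helper12.BCM
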