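import Mathlib

/-!
# Elimination lemma: two relatively prime bivariate polynomials in a prime ideal
-/

set_option autoImplicit false

namespace Pool.Agent.Helper12.BCM

open Polynomial

/-- A prime ideal of `R[X]` (`R` a UFD) containing two relatively prime elements contains a
nonzero constant. -/
lemma exists_const_mem_of_isRelPrime {R : Type*} [CommRing R] [IsDomain R]
    [UniqueFactorizationMonoid R] (P : Ideal R[X]) [hP : P.IsPrime] {a b : R[X]}
    (ha : a ∈ P) (hb : b ∈ P) (hab : IsRelPrime a b) :
    ∃ r : R, r ≠ 0 ∧ (C r : R[X]) ∈ P := by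
  classical
  by_contra hcon
  push Not at hcon
  have ha0 : a ≠ 0 := by
    rintro rfl
    have : IsUnit b := isRelPrime_zero_left.mp hab
    exact hP.ne_top (Ideal.eq_top_of_isUnit_mem _ hb this)
  -- pick an irreducible factor of `a` in `P`
  have ha' : (UniqueFactorizationMonoid.factors a).prod ∈ P := by
    obtain ⟨u, hu⟩ := UniqueFactorizationMonoid.factors_prod ha0
    rw [← hu] at ha
    exact (P.mul_unit_mem_iff_mem u.isUnit).mp ha
  obtain ⟨π, hπ1, hπ2⟩ := (hP.multiset_prod_mem_iff_exists_mem _).1 ha'
  have hπp : Prime π := UniqueFactorizationMonoid.prime_of_factor π hπ1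
  have hπa : π ∣ a := UniqueFactorizationMonoid.dvd_of_mem_factors hπ1
  have hπb : ¬ π ∣ b := fun h => hπp.not_isUnit (hab hπa h)
  have hdeg : π.natDegree ≠ 0 := by
    intro h0
    obtain ⟨r, hr⟩ := natDegree_eq_zero.mp h0
    rw [← hr] at hπ2
    by_cases hr0 : r = 0
    · apply hπp.ne_zero; rw [← hr, hr0, C_0]
    · exact hcon r hr0 hπ2
  have hprim : π.IsPrimitive := hπp.irreducible.isPrimitive hdeg
  let K := FractionRing R
  let _ : NormalizedGCDMonoid R := Classical.choice inferInstance
  have hirr : Irreducible (π.map (algebraMap R K)) :=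
    (hprim.irreducible_iff_irreducible_map_fraction_map).mp hπp.irreducible
  have hndvd : ¬ (π.map (algebraMap R K)) ∣ (b.map (algebraMap R K)) := fun h =>
    hπb (hprim.dvd_of_fraction_map_dvd_fraction_map h)
  have hcop : IsCoprime (π.map (algebraMap R K)) (b.map (algebraMap R K)) :=
    (hirr.coprime_iff_not_dvd).mpr hndvd
  obtain ⟨u, v, huv⟩ := hcop
  obtain ⟨c, c0, hc⟩ := IsLocalization.integerNormalization_spec (nonZeroDivisors R) u
  obtain ⟨d, d0, hd⟩ := IsLocalization.integerNormalization_spec (nonZeroDivisors R) v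
  rw [mem_nonZeroDivisors_iff_ne_zero] at c0 d0
  rw [Algebra.smul_def, Polynomial.algebraMap_apply] at hc hd
  have key : (C (c * d) : R[X]) = C d * IsLocalization.integerNormalization (nonZeroDivisors R) u * π
      + C c * IsLocalization.integerNormalization (nonZeroDivisors R) v * b := by
    apply map_injective (algebraMap R K) (IsFractionRing.injective _ _)
    simp only [Polynomial.map_add, Polynomial.map_mul, map_C, hc, hd]
    rw [show C ((algebraMap R K) (c * d)) = C (algebraMap R K c) * C (algebraMap R K d) by
      rw [map_mul, C_mul]]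
    calc C (algebraMap R K c) * C (algebraMap R K d)
        = C (algebraMap R K c) * C (algebraMap R K d) *
          (u * π.map (algebraMap R K) + v * b.map (algebraMap R K)) := by rw [huv, mul_one]
      _ = _ := by ring
  apply hcon (c * d) (mul_ne_zero c0 d0)
  rw [key]
  exact P.add_mem (P.mul_mem_left _ hπ2) (P.mul_mem_left _ hb)

end Pool.Agent.Helper12.BCM
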