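import Mathlib
import Pool.Agent.Helper12.BCM.Elim

set_option autoImplicit false

namespace Pool.Agent.Helper12.BCM

open Polynomial

/-- Key lemma: if a ring homomorphism from `O[y][t]` to a domain `D` sends `y` to `ν(η) - ω` and
`t` to `τ(η)` with `ω` transcendental over `O`, then its kernel contains no two relatively prime
elements. -/
lemma not_isRelPrime_of_map_eq_zero {O D : Type*} [CommRing O] [IsDomain O]
    [UniqueFactorizationMonoid O] [CommRing D] [IsDomain D] [Algebra O D]
    (ν τ : O[X]) (hτ : τ.natDegree ≠ 0) (η ω : D) (hω : Transcendental O ω)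
    (φ : O[X][X] →+* D) (hC : ∀ o, φ (C (C o)) = algebraMap O D o)
    (hy : φ (C X) = aeval η ν - ω) (ht : φ X = aeval η τ) {a b : O[X][X]}
    (ha : φ a = 0) (hb : φ b = 0) : ¬ IsRelPrime a b := by
  intro hab
  have hP : (RingHom.ker φ).IsPrime := RingHom.ker_isPrime φ
  -- `y` is algebraic
  have hyalg : IsAlgebraic O (φ (C X)) := by
    obtain ⟨r, hr0, hr⟩ := exists_const_mem_of_isRelPrime (RingHom.ker φ)
      (a := a) (b := b) ha hb hab
    refine ⟨r, hr0, ?_⟩
    have h1 : ∀ r : O[X], φ (C r) = aeval (φ (C X)) r := by
      intro r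
      induction r using Polynomial.induction_on' with
      | add p q hp hq => rw [C_add, map_add, map_add, hp, hq]
      | monomial n c =>
        rw [← C_mul_X_pow_eq_monomial, C_mul, map_mul, hC, C_pow, map_pow, map_mul, aeval_C,
          map_pow, aeval_X]
    rw [← h1]; exact hr
  have htalg : IsAlgebraic O (φ X) := by
    let ψ : O[X][X] →+* D := φ.comp (Bivariate.swap (R := O)).toRingEquiv.toRingHom
    have hψ : (RingHom.ker ψ).IsPrime := RingHom.ker_isPrime ψ
    have hrel : IsRelPrime ((Bivariate.swap (R := O)) a) ((Bivariate.swap (R := O)) b) := by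
      intro d hda hdb
      have h1 : (Bivariate.swap (R := O)) d ∣ a := by
        have := map_dvd (Bivariate.swap (R := O)) hda
        rwa [Bivariate.swap_swap_apply] at this
      have h2 : (Bivariate.swap (R := O)) d ∣ b := by
        have := map_dvd (Bivariate.swap (R := O)) hdb
        rwa [Bivariate.swap_swap_apply] at this
      have h3 := hab h1 h2
      have h4 := h3.map (Bivariate.swap (R := O))
      rwa [Bivariate.swap_swap_apply] at h4
    obtain ⟨r, hr0, hr⟩ := exists_const_mem_of_isRelPrime (RingHom.ker ψ)
      (a := (Bivariate.swap (R := O)) a) (b := (Bivariate.swap (R := O)) b)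
      (by
        show φ ((Bivariate.swap (R := O)) ((Bivariate.swap (R := O)) a)) = 0
        rw [Bivariate.swap_swap_apply]; exact ha)
      (by
        show φ ((Bivariate.swap (R := O)) ((Bivariate.swap (R := O)) b)) = 0
        rw [Bivariate.swap_swap_apply]; exact hb) hrel
    refine ⟨r, hr0, ?_⟩
    have h1 : ∀ r : O[X], φ (r.map C) = aeval (φ X) r := by
      intro r
      induction r using Polynomial.induction_on' with
      | add p q hp hq => rw [Polynomial.map_add, map_add, map_add, hp, hq]
      | monomial n c =>
        rw [← C_mul_X_pow_eq_monomial, Polynomial.map_mul, map_mul, map_C, hC, Polynomial.map_pow,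
          map_X, map_pow, map_mul, aeval_C, map_pow, aeval_X]
    rw [← h1]
    have h2 : φ ((Bivariate.swap (R := O)) (C r)) = 0 := hr
    rwa [Bivariate.swap_C] at h2
  have hη : IsAlgebraic O η := by
    rw [ht] at htalg
    refine IsAlgebraic.of_aeval τ hτ ?_ htalg
    rw [mem_nonZeroDivisors_iff_ne_zero]
    exact leadingCoeff_ne_zero.mpr (by rintro rfl; simp at hτ)
  have hνη : IsAlgebraic O (aeval η ν) := by
    have h1 : η ∈ Subalgebra.algebraicClosure O D := hη
    have h2 : aeval η ν ∈ Subalgebra.algebraicClosure O D := by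
      have h3 : Algebra.adjoin O {η} ≤ Subalgebra.algebraicClosure O D :=
        Algebra.adjoin_le (by simpa using h1)
      exact h3 (aeval_mem_adjoin_singleton O η)
    exact h2
  have hωalg : IsAlgebraic O ω := by
    have h1 : ω = aeval η ν - φ (C X) := by rw [hy]; ring
    rw [h1]
    exact hνη.sub hyalg
  exact hω hωalg

end Pool.Agent.Helper12.BCM
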