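import Mathlib
import Pool.Agent.Helper12.BCM.KLemma

set_option autoImplicit false

namespace Pool.Agent.Helper12.BCM

open Polynomial

/-- The abstract set-up for `V`: a complete discrete valuation ring with uniformizer `x`. -/
class VSetup (V : Type) [CommRing V] [IsDomain V] [IsPrincipalIdealRing V] [IsLocalRing V] where
  x : V
  hmax : IsLocalRing.maximalIdeal V = Ideal.span {x}
  hne : x ≠ 0
  hcomplete : IsAdicComplete (Ideal.span {x}) V

/-- The abstract set-up: `O` a UFD dense in the complete discrete valuation ring `V` with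
uniformizer `x ∈ O`, and an element `x w` of `V` transcendental over `O`. -/
class Setup (O V : Type) [CommRing O] [IsDomain O] [UniqueFactorizationMonoid O]
    [CommRing V] [IsDomain V] [IsPrincipalIdealRing V] [IsLocalRing V] [VSetup V]
    [Algebra O V] where
  x : O
  w : V
  hx : algebraMap O V x = VSetup.x
  happrox : ∀ v : V, ∃ o : O, VSetup.x ∣ v - algebraMap O V o
  hrefl : ∀ o : O, VSetup.x ∣ algebraMap O V o → x ∣ o
  htrans : Transcendental O (VSetup.x * w)

/-! ### The ring `T = V⟦u⟧ ×_V V⟦v⟧` -/

/-- pairs of power series with the same constant coefficient -/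
def TT (V : Type) [CommRing V] : Subalgebra (PowerSeries V) (Bool → PowerSeries V) where
  carrier := {z | PowerSeries.constantCoeff (z true) = PowerSeries.constantCoeff (z false)}
  mul_mem' := by
    intro a b ha hb
    simp only [Set.mem_ofPred_eq, Pi.mul_apply, map_mul] at *
    rw [ha, hb]
  add_mem' := by
    intro a b ha hb
    simp only [Set.mem_ofPred_eq, Pi.add_apply, map_add] at *
    rw [ha, hb]
  algebraMap_mem' := by
    intro r
    simp

variable {V : Type} [CommRing V]

namespace TTaux

lemma mem_iff {z : Bool → PowerSeries V} :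
    z ∈ TT V ↔ PowerSeries.constantCoeff (z true) = PowerSeries.constantCoeff (z false) := Iff.rfl

lemma smul_apply (f : PowerSeries V) (z : TT V) (i : Bool) : (f • z).1 i = f * z.1 i := rfl

instance : Module.Finite (PowerSeries V) (TT V) := by
  classical
  refine ⟨⟨{1, ⟨Pi.single true PowerSeries.X, by rw [mem_iff]; simp⟩}, ?_⟩⟩
  rw [eq_top_iff]
  rintro z -
  obtain ⟨h, hh⟩ : PowerSeries.X ∣ z.1 true - z.1 false := by
    rw [PowerSeries.X_dvd_iff, map_sub]
    exact sub_eq_zero.mpr z.2
  have hz : z = (z.1 false) • (1 : TT V) +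
      h • (⟨Pi.single true PowerSeries.X, by rw [mem_iff]; simp⟩ : TT V) := by
    apply Subtype.ext
    funext l
    show z.1 l = z.1 false * 1 + h * (Pi.single true PowerSeries.X : Bool → PowerSeries V) l
    cases l
    · simp
    · simp only [Pi.single_eq_same, mul_one]
      rw [mul_comm h, ← hh]; ring
  rw [hz]
  exact Submodule.add_mem _ (Submodule.smul_mem _ _ (Submodule.subset_span (by simp)))
    (Submodule.smul_mem _ _ (Submodule.subset_span (by simp)))

end TTaux

/-- The ring `T`, sealed. -/
def TR (V : Type) [CommRing V] : Type := TT V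

noncomputable instance : CommRing (TR V) := inferInstanceAs (CommRing (TT V))

instance [IsNoetherianRing V] : IsNoetherianRing (TR V) :=
  (IsNoetherianRing.of_finite (PowerSeries V) (TT V) : IsNoetherianRing (TT V))

/-- the two projections -/
noncomputable def pr (i : Bool) : TR V →+* PowerSeries V :=
  (Pi.evalRingHom (fun _ => PowerSeries V) i).comp (TT V).val.toRingHom

/-- constructor -/
def mkT (z : Bool → PowerSeries V)
    (h : PowerSeries.constantCoeff (z true) = PowerSeries.constantCoeff (z false)) : TR V := ⟨z, h⟩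

@[simp] lemma pr_mkT (z : Bool → PowerSeries V) (h) (i : Bool) : pr i (mkT z h) = z i := rfl

lemma TR.ext {z z' : TR V} (h : ∀ i, pr i z = pr i z') : z = z' := Subtype.ext (funext h)

lemma const_eq (z : TR V) (i j : Bool) :
    PowerSeries.constantCoeff (pr i z) = PowerSeries.constantCoeff (pr j z) := by
  have h : PowerSeries.constantCoeff (pr true z) = PowerSeries.constantCoeff (pr false z) := z.2
  cases i <;> cases j <;> simp [h]

/-- the common constant coefficient -/
noncomputable def c0 : TR V →+* V := (PowerSeries.constantCoeff (R := V)).comp (pr true)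

lemma c0_eq (z : TR V) (i : Bool) : c0 z = PowerSeries.constantCoeff (pr i z) :=
  const_eq z true i

/-- diagonal element -/
noncomputable def dg : PowerSeries V →+* TR V := algebraMap (PowerSeries V) (TT V)

@[simp] lemma pr_dg (f : PowerSeries V) (i : Bool) : pr i (dg f) = f := rfl

lemma isUnit_iff (z : TR V) : IsUnit z ↔ IsUnit (c0 z) := by
  constructor
  · intro h; exact h.map _
  · intro h
    have h1 : ∀ i, IsUnit (pr i z) := fun i => by
      rw [PowerSeries.isUnit_iff_constantCoeff, ← c0_eq]; exact h
    choose u hu using fun i => (h1 i).exists_right_inv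
    have hmem : PowerSeries.constantCoeff (u true) = PowerSeries.constantCoeff (u false) := by
      have e : ∀ i, c0 z * PowerSeries.constantCoeff (u i) = 1 := fun i => by
        rw [c0_eq z i, ← map_mul, hu, map_one]
      exact h.mul_left_cancel ((e true).trans (e false).symm)
    refine IsUnit.of_mul_eq_one (mkT u hmem) (TR.ext fun i => ?_)
    rw [map_mul, pr_mkT, map_one]; exact hu i

instance : IsLocalHom (c0 (V := V)) := ⟨fun z h => (isUnit_iff z).mpr h⟩

instance [IsLocalRing V] : IsLocalRing (TR V) := RingHom.domain_isLocalRing (c0 (V := V))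

lemma mem_max_iff [IsLocalRing V] (z : TR V) :
    z ∈ IsLocalRing.maximalIdeal (TR V) ↔ c0 z ∈ IsLocalRing.maximalIdeal V := by
  rw [IsLocalRing.mem_maximalIdeal, IsLocalRing.mem_maximalIdeal, mem_nonunits_iff,
    mem_nonunits_iff, isUnit_iff]

/-- the elements `U = (Y,0)` and `W = (0,Y)` -/
noncomputable def ee (i : Bool) : TR V :=
  mkT (Pi.single i PowerSeries.X) (by cases i <;> simp)

@[simp] lemma ee_self (i : Bool) : pr i (ee (V := V) i) = PowerSeries.X := by
  simp [ee]

lemma ee_ne {i j : Bool} (h : j ≠ i) : pr j (ee (V := V) i) = 0 := by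
  simp [ee, h]

@[simp] lemma ee_not (i : Bool) : pr (!i) (ee (V := V) i) = 0 := ee_ne (by simp)

@[simp] lemma ee_not' (i : Bool) : pr i (ee (V := V) (!i)) = 0 := ee_ne (by simp)

lemma ee_mul_ee {i j : Bool} (h : i ≠ j) : ee (V := V) i * ee j = 0 := by
  refine TR.ext fun l => ?_
  rw [map_mul, map_zero]
  by_cases hl : l = i
  · rw [ee_ne (i := j) (j := l) (by rw [hl]; exact h), mul_zero]
  · rw [ee_ne hl, zero_mul]

lemma ee_add (i : Bool) : ee (V := V) i + ee (!i) = dg PowerSeries.X := by
  refine TR.ext fun l => ?_
  rw [map_add, pr_dg]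
  by_cases hl : l = i
  · subst hl; rw [ee_self, ee_not', add_zero]
  · have : l = !i := by cases l <;> cases i <;> simp_all
    subst this
    rw [ee_not, ee_self, zero_add]

lemma ee_sq (i : Bool) : ee (V := V) i * ee i = ee i * dg PowerSeries.X := by
  rw [← ee_add i, mul_add, ee_mul_ee (i := i) (j := !i) (by simp), add_zero]

end Pool.Agent.Helper12.BCM
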