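import Mathlib
import Pool.Agent.Helper12.BCM.Setup

set_option autoImplicit false

namespace Pool.Agent.Helper12.BCM

variable (V : Type) [CommRing V] [IsDomain V] [IsPrincipalIdealRing V] [IsLocalRing V] [VSetup V]

/-- the uniformizer -/
abbrev xx : V := VSetup.x

instance : IsDiscreteValuationRing V where
  not_a_field' := by
    rw [VSetup.hmax]
    intro h
    exact VSetup.hne (Ideal.span_singleton_eq_bot.mp h)

lemma xx_prime : Prime (xx V) := by
  have h := IsLocalRing.maximalIdeal.isMaximal V
  rw [VSetup.hmax] at h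
  exact (Ideal.span_singleton_prime VSetup.hne).mp h.isPrime

variable {V}

lemma xx_dvd_iff {v : V} : xx V ∣ v ↔ v ∈ IsLocalRing.maximalIdeal V := by
  rw [VSetup.hmax, Ideal.mem_span_singleton]

lemma xx_dvd_iff_not_isUnit {v : V} : xx V ∣ v ↔ ¬ IsUnit v := by
  rw [xx_dvd_iff, IsLocalRing.mem_maximalIdeal, mem_nonunits_iff]

lemma eq_unit_mul_pow {v : V} (hv : v ≠ 0) : ∃ (n : ℕ) (u : Vˣ), v = u * xx V ^ n :=
  IsDiscreteValuationRing.eq_unit_mul_pow_irreducible hv (xx_prime V).irreducible

/-! ### filtration on `T` -/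

variable (V) in
/-- the filtration by total order -/
def Fil (n : ℕ) : Ideal (TR V) where
  carrier := {z | ∀ i j, xx V ^ (n - j) ∣ PowerSeries.coeff j (pr i z)}
  add_mem' := by
    intro a b ha hb i j
    show _ ∣ PowerSeries.coeff j (pr i a + pr i b)
    rw [map_add]
    exact dvd_add (ha i j) (hb i j)
  zero_mem' := by
    intro i j
    show _ ∣ PowerSeries.coeff j (0 : PowerSeries V)
    rw [map_zero]; exact dvd_zero _
  smul_mem' := by
    intro c z hz i j
    show _ ∣ PowerSeries.coeff j (pr i c * pr i z)
    rw [PowerSeries.coeff_mul]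
    refine Finset.dvd_sum fun p hp => ?_
    have hpj : p.2 ≤ j := by
      have := Finset.HasAntidiagonal.mem_antidiagonal.mp hp
      omega
    exact Dvd.dvd.mul_left ((pow_dvd_pow _ (by omega)).trans (hz i p.2)) _

lemma mem_Fil {n : ℕ} {z : TR V} :
    z ∈ Fil V n ↔ ∀ i j, xx V ^ (n - j) ∣ PowerSeries.coeff j (pr i z) := Iff.rfl

lemma Fil_mul (a b : ℕ) : Fil V a * Fil V b ≤ Fil V (a + b) := by
  rw [Ideal.mul_le]
  intro y hy z hz i j
  show _ ∣ PowerSeries.coeff j (pr i y * pr i z)
  rw [PowerSeries.coeff_mul]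
  refine Finset.dvd_sum fun p hp => ?_
  have hpj : p.1 + p.2 = j := Finset.HasAntidiagonal.mem_antidiagonal.mp hp
  have h := mul_dvd_mul (hy i p.1) (hz i p.2)
  rw [← pow_add] at h
  exact (pow_dvd_pow _ (by omega)).trans h

lemma max_le_Fil_one : IsLocalRing.maximalIdeal (TR V) ≤ Fil V 1 := by
  intro z hz i j
  rw [mem_max_iff, ← xx_dvd_iff] at hz
  rcases Nat.eq_zero_or_pos j with rfl | hj
  · rw [Nat.sub_zero, pow_one, PowerSeries.coeff_zero_eq_constantCoeff_apply, ← c0_eq]
    exact hz
  · have : 1 - j = 0 := by omega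
    rw [this, pow_zero]; exact one_dvd _

lemma pow_le_Fil (n : ℕ) : IsLocalRing.maximalIdeal (TR V) ^ n ≤ Fil V n := by
  induction n with
  | zero =>
    intro z _ i j
    simp
  | succ n ih =>
    rw [pow_succ]
    exact (Ideal.mul_mono ih max_le_Fil_one).trans (Fil_mul n 1)

lemma xT_mem_max : (dg (PowerSeries.C (xx V))) ∈ IsLocalRing.maximalIdeal (TR V) := by
  rw [mem_max_iff, c0_eq _ true, pr_dg, PowerSeries.constantCoeff_C, ← xx_dvd_iff]

lemma e_mem_max (i : Bool) : ee (V := V) i ∈ IsLocalRing.maximalIdeal (TR V) := by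
  rw [mem_max_iff, c0_eq _ i, ee_self, PowerSeries.constantCoeff_X]
  exact Ideal.zero_mem _

lemma Fil_le_pow (n : ℕ) : Fil V n ≤ IsLocalRing.maximalIdeal (TR V) ^ n := by
  induction n with
  | zero => rw [pow_zero, Ideal.one_eq_top]; exact le_top
  | succ n ih =>
    intro z hz
    -- decomposition of `z`
    have hc0 : xx V ^ (n + 1) ∣ c0 z := by
      have := hz true 0
      rwa [Nat.sub_zero, PowerSeries.coeff_zero_eq_constantCoeff_apply] at this
    obtain ⟨c, hc⟩ := hc0
    let sh : Bool → PowerSeries V := fun i => PowerSeries.mk fun p => PowerSeries.coeff (p + 1) (pr i z)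
    let al : Bool → TR V := fun i => dg (sh i)
    have hal : ∀ i, al i ∈ Fil V n := by
      intro i l j
      show _ ∣ PowerSeries.coeff j (sh i)
      rw [PowerSeries.coeff_mk]
      have := hz i (j + 1)
      rwa [show n + 1 - (j + 1) = n - j by omega] at this
    have hz' : z = dg (PowerSeries.C (xx V)) ^ (n + 1) * dg (PowerSeries.C c)
        + (ee true * al true + ee false * al false) := by
      refine TR.ext fun i => ?_
      show pr i z = (PowerSeries.C (xx V)) ^ (n + 1) * PowerSeries.C c +
        (pr i (ee (V := V) true) * sh true + pr i (ee (V := V) false) * sh false)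
      have h1 : pr i z = PowerSeries.X * sh i + PowerSeries.C (c0 z) := by
        rw [c0_eq z i]
        exact PowerSeries.eq_X_mul_shift_add_const _
      rw [← map_pow, ← map_mul, ← hc, h1]
      cases i
      · rw [ee_ne (by decide), ee_self]; ring
      · rw [ee_ne (i := false) (by decide), ee_self]; ring
    rw [hz']
    refine Ideal.add_mem _ (Ideal.mul_mem_right _ _ (Ideal.pow_mem_pow xT_mem_max _)) ?_
    rw [pow_succ']
    exact Ideal.add_mem _ (Ideal.mul_mem_mul (e_mem_max _) (ih (hal _)))
      (Ideal.mul_mem_mul (e_mem_max _) (ih (hal _)))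

lemma pow_eq_Fil (n : ℕ) : IsLocalRing.maximalIdeal (TR V) ^ n = Fil V n :=
  le_antisymm (pow_le_Fil n) (Fil_le_pow n)

instance : IsAdicComplete (IsLocalRing.maximalIdeal (TR V)) (TR V) where
  prec' := by
    intro f hf
    have hcomp : IsAdicComplete (Ideal.span {xx V}) V := VSetup.hcomplete
    have hf' : ∀ {m n : ℕ}, m ≤ n → ∀ i j,
        xx V ^ (m - j) ∣ PowerSeries.coeff j (pr i (f m)) - PowerSeries.coeff j (pr i (f n)) := by
      intro m n hmn i j
      have h := hf hmn
      rw [SModEq.sub_mem, smul_eq_mul, Ideal.mul_top, pow_eq_Fil] at h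
      have := h i j
      rwa [map_sub, map_sub] at this
    -- choose the limits of the coefficients
    have hlim : ∀ i j, ∃ L : V, ∀ n, xx V ^ n ∣ PowerSeries.coeff j (pr i (f (n + j))) - L := by
      intro i j
      obtain ⟨L, hL⟩ := hcomp.prec' (fun n => PowerSeries.coeff j (pr i (f (n + j)))) (by
        intro m n hmn
        rw [SModEq.sub_mem, smul_eq_mul, Ideal.mul_top, Ideal.span_singleton_pow,
          Ideal.mem_span_singleton]
        have := hf' (m := m + j) (n := n + j) (by omega) i j
        rwa [Nat.add_sub_cancel] at this)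
      refine ⟨L, fun n => ?_⟩
      have := hL n
      rwa [SModEq.sub_mem, smul_eq_mul, Ideal.mul_top, Ideal.span_singleton_pow,
        Ideal.mem_span_singleton] at this
    choose L hL using hlim
    have hL0 : L true 0 = L false 0 := by
      have hH := hcomp.toIsHausdorff.haus' (L true 0 - L false 0) (by
        intro n
        rw [SModEq.zero, smul_eq_mul, Ideal.mul_top, Ideal.span_singleton_pow,
          Ideal.mem_span_singleton]
        have h1 := hL true 0 n
        have h2 := hL false 0 n
        have h3 : PowerSeries.coeff 0 (pr true (f (n + 0))) = PowerSeries.coeff 0 (pr false (f (n + 0))) := by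
          rw [PowerSeries.coeff_zero_eq_constantCoeff_apply,
            PowerSeries.coeff_zero_eq_constantCoeff_apply]
          exact const_eq _ _ _
        have h4 := dvd_sub h2 h1
        rw [h3] at h4
        convert h4 using 1
        ring)
      exact sub_eq_zero.mp hH
    refine ⟨mkT (fun i => PowerSeries.mk (L i)) ?_, ?_⟩
    · simpa [← PowerSeries.coeff_zero_eq_constantCoeff_apply] using hL0
    · intro n
      rw [SModEq.sub_mem, smul_eq_mul, Ideal.mul_top, pow_eq_Fil]
      intro i j
      rw [map_sub, map_sub, pr_mkT, PowerSeries.coeff_mk]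
      rcases Nat.lt_or_ge n j with h | h
      · rw [show n - j = 0 by omega, pow_zero]; exact one_dvd _
      · have := hL i j (n - j)
        rwa [Nat.sub_add_cancel h] at this

end Pool.Agent.Helper12.BCM
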