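import Mathlib
import Pool.Agent.Helper12.BCM.TComplete
import Pool.Agent.Helper12.BCM.Reg2

set_option autoImplicit false

namespace Pool.Agent.Helper12.BCM

open RingTheory.Sequence

variable (V : Type) [CommRing V] [IsDomain V] [IsPrincipalIdealRing V] [IsLocalRing V] [VSetup V]

/-- `x` in `T` -/
noncomputable def xT : TR V := dg (PowerSeries.C (xx V))

/-- `Y = U + W` in `T` -/
noncomputable def yT : TR V := dg PowerSeries.X

variable {V}

@[simp] lemma pr_xT (i : Bool) : pr i (xT V) = PowerSeries.C (xx V) := rfl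

@[simp] lemma pr_yT (i : Bool) : pr i (yT V) = PowerSeries.X := rfl

lemma ee_add' (i : Bool) : ee (V := V) i + ee (!i) = yT V := ee_add i

lemma ee_sq' (i : Bool) : ee (V := V) i * ee i = ee i * yT V := ee_sq i

lemma yT_mem_max : yT V ∈ IsLocalRing.maximalIdeal (TR V) := by
  rw [← ee_add' true]
  exact Ideal.add_mem _ (e_mem_max _) (e_mem_max _)

lemma C_dvd_iff {v : V} {f : PowerSeries V} :
    PowerSeries.C v ∣ f ↔ ∀ j, v ∣ PowerSeries.coeff j f := by
  constructor
  · rintro ⟨g, rfl⟩ j
    rw [PowerSeries.coeff_C_mul]; exact dvd_mul_right _ _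
  · intro h
    choose g hg using h
    refine ⟨PowerSeries.mk g, ?_⟩
    ext j
    rw [PowerSeries.coeff_C_mul, PowerSeries.coeff_mk, hg]

variable (V) in
lemma xC_ne : (PowerSeries.C (xx V)) ≠ 0 := by
  intro h
  have := congrArg PowerSeries.constantCoeff h
  rw [PowerSeries.constantCoeff_C, map_zero] at this
  exact VSetup.hne this

/-- `x` and `Y` are coprime in `C` -/
lemma X_dvd_of_X_dvd_C_mul {f : PowerSeries V} {c : V} (hc : c ≠ 0)
    (h : PowerSeries.X ∣ PowerSeries.C c * f) : PowerSeries.X ∣ f := by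
  rw [PowerSeries.X_dvd_iff] at *
  rw [map_mul, PowerSeries.constantCoeff_C] at h
  exact (mul_eq_zero.mp h).resolve_left hc

lemma C_dvd_of_C_dvd_X_mul {f : PowerSeries V} {c : V}
    (h : PowerSeries.C c ∣ PowerSeries.X * f) : PowerSeries.C c ∣ f := by
  rw [C_dvd_iff] at *
  intro j
  have := h (j + 1)
  rwa [PowerSeries.coeff_succ_X_mul] at this

/-- multiplication by `x` on `T` -/
lemma xT_mul_eq_zero {z : TR V} (h : xT V * z = 0) : z = 0 := by
  refine TR.ext fun i => ?_
  have h1 := congrArg (pr i) h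
  rw [map_mul, map_zero, pr_xT] at h1
  rw [map_zero]
  exact (mul_eq_zero.mp h1).resolve_left (xC_ne V)

lemma yT_mul_eq_zero {z : TR V} (h : yT V * z = 0) : z = 0 := by
  refine TR.ext fun i => ?_
  have h1 := congrArg (pr i) h
  rw [map_mul, map_zero, pr_yT] at h1
  rw [map_zero]
  exact (mul_eq_zero.mp h1).resolve_left PowerSeries.X_ne_zero

lemma xT_regular : IsSMulRegular (TR V) (xT V) :=
  IsSMulRegular.of_right_eq_zero_of_smul fun _ h => xT_mul_eq_zero h

lemma yT_regular : IsSMulRegular (TR V) (yT V) :=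
  IsSMulRegular.of_right_eq_zero_of_smul fun _ h => yT_mul_eq_zero h

/-- divisibility by `x` in `T` can be checked on the two projections -/
lemma xT_dvd_iff {z : TR V} : xT V ∣ z ↔ ∀ i, PowerSeries.C (xx V) ∣ pr i z := by
  constructor
  · intro h i
    have := map_dvd (pr i) h
    rwa [pr_xT] at this
  · intro h
    choose g hg using h
    refine ⟨mkT g ?_, TR.ext fun i => ?_⟩
    · have h3 := const_eq z true false
      rw [hg true, hg false, map_mul, map_mul, PowerSeries.constantCoeff_C] at h3
      exact mul_left_cancel₀ VSetup.hne h3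
    · rw [map_mul, pr_xT, pr_mkT]; exact hg i

lemma reg2_TR : Reg2 (TR V) (xT V) (yT V) := by
  refine ⟨fun z h => xT_mul_eq_zero h, fun z z' h => ?_⟩
  rw [smul_eq_mul, smul_eq_mul] at h
  have h2 : xT V ∣ z := by
    rw [xT_dvd_iff]
    intro i
    have h1 := congrArg (pr i) h
    rw [map_mul, map_mul, pr_xT, pr_yT] at h1
    exact C_dvd_of_C_dvd_X_mul ⟨_, h1⟩
  obtain ⟨w, hw⟩ := h2
  exact ⟨w, hw⟩

lemma isRegular_TR : IsRegular (TR V) [xT V, yT V] :=
  (isRegular_pair_iff xT_mem_max yT_mem_max).mpr reg2_TR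

/-- generation of the maximal ideal -/
lemma max_le_of {I : Ideal (TR V)} (hx : xT V ∈ I) (he : ∀ i, ee i ∈ I) :
    IsLocalRing.maximalIdeal (TR V) ≤ I := by
  intro z hz
  rw [mem_max_iff, ← xx_dvd_iff] at hz
  obtain ⟨c, hc⟩ := hz
  let sh : Bool → PowerSeries V := fun i => PowerSeries.mk fun p => PowerSeries.coeff (p + 1) (pr i z)
  have hz' : z = xT V * dg (PowerSeries.C c)
      + (ee true * dg (sh true) + ee false * dg (sh false)) := by
    refine TR.ext fun i => ?_
    have h1 : pr i z = PowerSeries.X * sh i + PowerSeries.C (c0 z) := by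
      rw [c0_eq z i]
      exact PowerSeries.eq_X_mul_shift_add_const _
    rw [h1, hc]
    simp only [map_add, map_mul, pr_xT, pr_dg]
    cases i
    · rw [ee_ne (by decide), ee_self]; ring
    · rw [ee_ne (i := false) (by decide), ee_self]; ring
  rw [hz']
  exact Ideal.add_mem _ (Ideal.mul_mem_right _ _ hx)
    (Ideal.add_mem _ (Ideal.mul_mem_right _ _ (he _)) (Ideal.mul_mem_right _ _ (he _)))

/-- a prime ideal containing `x` and `Y` is maximal -/
lemma eq_max_of_prime {P : Ideal (TR V)} (hP : P.IsPrime) (hx : xT V ∈ P) (hy : yT V ∈ P) :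
    P = IsLocalRing.maximalIdeal (TR V) := by
  refine le_antisymm (IsLocalRing.le_maximalIdeal hP.ne_top) (max_le_of hx fun i => ?_)
  have : ee (V := V) i * ee i ∈ P := by
    rw [ee_sq']; exact P.mul_mem_left _ hy
  exact (hP.mem_or_mem this).elim id id

lemma ringKrullDim_eq_two_of {R : Type*} [CommRing R] [IsLocalRing R] [IsNoetherianRing R] {a b : R}
    (h : IsRegular R [a, b])
    (hP : ∀ P : Ideal R, P.IsPrime → a ∈ P → b ∈ P → P = IsLocalRing.maximalIdeal R) :
    ringKrullDim R = 2 := by
  have h1 := ringKrullDim_add_length_eq_ringKrullDim_of_isRegular [a, b] h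
  have hlen : (([a, b] : List R).length : WithBot ℕ∞) = 2 := by simp
  rw [hlen] at h1
  have hnt : Nontrivial (R ⧸ Ideal.ofList [a, b]) := by
    rw [Ideal.Quotient.nontrivial_iff]
    intro htop
    apply h.top_ne_smul
    rw [htop]; simp
  have h0 : ringKrullDim (R ⧸ Ideal.ofList [a, b]) = 0 := by
    have hk : Ring.KrullDimLE 0 (R ⧸ Ideal.ofList [a, b]) := by
      apply Ring.KrullDimLE.mk₀
      intro I hI
      have hc : (I.comap (Ideal.Quotient.mk (Ideal.ofList [a, b]))).IsPrime := hI.comap _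
      have hle : Ideal.ofList [a, b] ≤ I.comap (Ideal.Quotient.mk (Ideal.ofList [a, b])) := by
        intro r hr
        rw [Ideal.mem_comap, Ideal.Quotient.eq_zero_iff_mem.mpr hr]
        exact I.zero_mem
      have ha : a ∈ Ideal.ofList [a, b] := Ideal.subset_span (by simp)
      have hb : b ∈ Ideal.ofList [a, b] := Ideal.subset_span (by simp)
      have h2 := hP _ hc (hle ha) (hle hb)
      have h3 : (I.comap (Ideal.Quotient.mk (Ideal.ofList [a, b]))).IsMaximal := by
        rw [h2]; exact IsLocalRing.maximalIdeal.isMaximal R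
      have h4 := Ideal.map_comap_of_surjective (Ideal.Quotient.mk (Ideal.ofList [a, b]))
        Ideal.Quotient.mk_surjective I
      have h5 := Ideal.map_eq_top_or_isMaximal_of_surjective
        (Ideal.Quotient.mk (Ideal.ofList [a, b])) Ideal.Quotient.mk_surjective h3
      rw [h4] at h5
      exact h5.resolve_left hI.ne_top
    exact ringKrullDimZero_iff_ringKrullDim_eq_zero.mp hk
  rw [h0, zero_add] at h1
  exact h1.symm

lemma ringKrullDim_TR : ringKrullDim (TR V) = 2 :=
  ringKrullDim_eq_two_of isRegular_TR fun _ hP hx hy => eq_max_of_prime hP hx hy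

end Pool.Agent.Helper12.BCM
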