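import Mathlib
import Pool.Agent.Helper12.BCM.TDim

set_option autoImplicit false

namespace Pool.Agent.Helper12.BCM

open Pointwise

variable {V : Type} [CommRing V] [IsDomain V] [IsPrincipalIdealRing V] [IsLocalRing V] [VSetup V]

/-- modules of depth two over `C = V⟦Y⟧` are free -/
theorem free_of_reg2 {K : Type*} [AddCommGroup K] [Module (PowerSeries V) K]
    [Module.Finite (PowerSeries V) K]
    (h : Reg2 K (PowerSeries.X : PowerSeries V) (PowerSeries.C (xx V))) :
    Module.Free (PowerSeries V) K := by
  have hfp : Module.FinitePresentation (PowerSeries V) K :=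
    Module.finitePresentation_of_finite _ _
  rw [← Module.free_quotSMulTop_iff_free (R := PowerSeries V) (M := K) (x := PowerSeries.X)]
  rotate_left
  · rw [IsLocalRing.jacobson_eq_maximalIdeal ⊥ bot_ne_top, IsLocalRing.mem_maximalIdeal,
      mem_nonunits_iff, PowerSeries.isUnit_iff_constantCoeff, PowerSeries.constantCoeff_X]
    exact not_isUnit_zero
  · exact isSMulRegular_iff'.mpr h.1
  set R' := PowerSeries V ⧸ Ideal.span {(PowerSeries.X : PowerSeries V)} with hR'
  have hprime : (Ideal.span {(PowerSeries.X : PowerSeries V)}).IsPrime :=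
    (Ideal.span_singleton_prime PowerSeries.X_ne_zero).mpr PowerSeries.X_prime
  have hdom : IsDomain R' := Ideal.Quotient.isDomain _
  let f : V →+* R' := (Ideal.Quotient.mk _).comp (PowerSeries.C (R := V))
  have hf : Function.Surjective f := by
    intro r
    obtain ⟨r, rfl⟩ := Ideal.Quotient.mk_surjective r
    refine ⟨PowerSeries.constantCoeff r, ?_⟩
    show Ideal.Quotient.mk _ _ = Ideal.Quotient.mk _ _
    rw [Ideal.Quotient.eq, Ideal.mem_span_singleton, PowerSeries.X_dvd_iff]
    simp
  have hpid : IsPrincipalIdealRing R' := IsPrincipalIdealRing.of_surjective f hf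
  have hfin : Module.Finite R' (QuotSMulTop (PowerSeries.X : PowerSeries V) K) :=
    Module.Finite.of_restrictScalars_finite (PowerSeries V) _ _
  have hx : ∀ m : QuotSMulTop (PowerSeries.X : PowerSeries V) K,
      (PowerSeries.C (xx V)) • m = 0 → m = 0 := by
    intro m hm
    obtain ⟨m, rfl⟩ := Submodule.Quotient.mk_surjective _ m
    rw [← Submodule.Quotient.mk_smul, Submodule.Quotient.mk_eq_zero, mem_smul_top_iff'] at hm
    rw [Submodule.Quotient.mk_eq_zero, mem_smul_top_iff']
    obtain ⟨n', hn'⟩ := hm
    exact h.2 _ _ hn'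
  have htf : Module.IsTorsionFree R' (QuotSMulTop (PowerSeries.X : PowerSeries V) K) := by
    refine ⟨fun r hr => ?_⟩
    have hr0 : r ≠ 0 := hr.ne_zero
    obtain ⟨v, rfl⟩ := hf r
    have hv : v ≠ 0 := by rintro rfl; exact hr0 (map_zero f)
    obtain ⟨n, u, rfl⟩ := eq_unit_mul_pow hv
    rw [isSMulRegular_iff']
    intro m hm
    have h1 : (PowerSeries.C (↑u * xx V ^ n)) • m = 0 := hm
    rw [map_mul, mul_smul] at h1
    have h2 : (PowerSeries.C (xx V ^ n)) • m = 0 := by
      have h3 := congrArg (fun z => (PowerSeries.C (↑u⁻¹ : V)) • z) h1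
      simp only [smul_zero] at h3
      rwa [← mul_smul, ← map_mul, Units.inv_mul, map_one, one_smul] at h3
    clear h1 hm hr0 hv hr
    induction n with
    | zero => rwa [pow_zero, map_one, one_smul] at h2
    | succ n ih =>
      rw [pow_succ', map_mul, mul_smul] at h2
      exact ih (hx _ h2)
  infer_instance

end Pool.Agent.Helper12.BCM
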