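import Mathlib
import Pool.Agent.Helper12.BCM.TComplete

set_option autoImplicit false

namespace Pool.Agent.Helper12.BCM

variable {V : Type} [CommRing V] [IsDomain V] [IsPrincipalIdealRing V] [IsLocalRing V] [VSetup V]

/-- in a valuation ring: a finite nonempty family has a member divisible by all the others -/
lemma exists_max_dvd {n : ℕ} (a : Fin (n + 1) → V) : ∃ i0, ∀ i, a i ∣ a i0 := by
  have htot : ∀ u v : V, u ∣ v ∨ v ∣ u := fun u v => ValuationRing.dvd_total u v
  induction n with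
  | zero =>
    refine ⟨0, fun i => ?_⟩
    have hi : i = 0 := by omega
    rw [hi]
  | succ n ih =>
    obtain ⟨i0, hi0⟩ := ih (fun i => a i.succ)
    rcases htot (a 0) (a i0.succ) with h | h
    · refine ⟨i0.succ, fun i => ?_⟩
      refine Fin.cases h (fun j => hi0 j) i
    · refine ⟨0, fun i => ?_⟩
      refine Fin.cases (dvd_refl _) (fun j => (hi0 j).trans h) i

variable {N : Type*} [AddCommGroup N] [Module V N] {ι κ : Type} [Fintype ι] [Fintype κ]

/-- the conclusion of the splitting lemma -/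
def Splits (α : N →ₗ[V] (ι → V)) (β : N →ₗ[V] (κ → V)) : Prop :=
  ∃ (a : V) (q : N) (e : ι → V) (μ : (ι → V) →ₗ[V] V) (φ : (κ → V) →ₗ[V] V),
    a ≠ 0 ∧ α q = a • e ∧ φ (β q) = 1 ∧ ∀ n, μ (α n) = a * φ (β n)

/-- one-sided version: Smith normal form for the image of `α` -/
lemma splits_aux (α : N →ₗ[V] (ι → V)) (β : N →ₗ[V] (κ → V))
    (hker : ∀ n, α n = 0 → β n = 0) (h0 : ∃ n, α n ≠ 0) :
    ∃ (a : V) (q : N), a ≠ 0 ∧ (¬ ∃ n', α q = xx V • α n') ∧
      (∃ e, α q = a • e) ∧
      (IsUnit a → ∀ n, (∀ l, xx V ∣ α n l) → ∃ n', α n = xx V • α n') ∧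
      (∀ φ : (κ → V) →ₗ[V] V, ∃ μ : (ι → V) →ₗ[V] V, ∀ n, μ (α n) = a * φ (β n)) := by
  classical
  obtain ⟨r, bM, bN, f, a, snf⟩ :=
    Submodule.smithNormalForm (Pi.basisFun V ι) (LinearMap.range α)
  have hr : r ≠ 0 := by
    rintro rfl
    obtain ⟨n, hn⟩ := h0
    apply hn
    have : (⟨α n, LinearMap.mem_range_self α n⟩ : LinearMap.range α) = 0 := by
      rw [← bN.sum_repr ⟨α n, LinearMap.mem_range_self α n⟩]
      simp
    exact congrArg Subtype.val this
  obtain ⟨m, rfl⟩ := Nat.exists_eq_succ_of_ne_zero hr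
  obtain ⟨i0, hi0⟩ := exists_max_dvd a
  have hpre : ∀ i, ∃ n, α n = (bN i : ι → V) := fun i => (bN i).2
  choose nn hnn using hpre
  have ha0 : ∀ i, a i ≠ 0 := by
    intro i h
    have := snf i
    rw [h, zero_smul] at this
    exact bN.ne_zero i (Subtype.ext this)
  -- expansions
  have hexp : ∀ n, ∃ c : Fin (m + 1) → V, α n = ∑ i, c i • (bN i : ι → V) := by
    intro n
    refine ⟨fun i => bN.repr ⟨α n, LinearMap.mem_range_self α n⟩ i, ?_⟩
    have h1 := congrArg Subtype.val (bN.sum_repr ⟨α n, LinearMap.mem_range_self α n⟩)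
    have h2 : (Subtype.val (⟨α n, LinearMap.mem_range_self α n⟩ : LinearMap.range α)) = α n := rfl
    rw [h2] at h1
    refine h1.symm.trans ?_
    rw [Submodule.coe_sum]
    rfl
  have hnotx : ¬ ∃ n', α (nn i0) = xx V • α n' := by
    rintro ⟨n', hn'⟩
    rw [hnn] at hn'
    have h1 : bN i0 = xx V • (⟨α n', LinearMap.mem_range_self α n'⟩ : LinearMap.range α) :=
      Subtype.ext hn'
    have h2 := congrArg (fun z => bN.repr z i0) h1
    simp only [Module.Basis.repr_self, Finsupp.single_eq_same, map_smul, Finsupp.smul_apply,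
      smul_eq_mul] at h2
    exact (xx_prime V).not_isUnit (IsUnit.of_mul_eq_one _ h2.symm)
  refine ⟨a i0, nn i0, ha0 i0, hnotx, ⟨bM (f i0), by rw [hnn, snf]⟩, ?_, ?_⟩
  · -- if `a` is a unit then the image is saturated
    intro hau n hx
    obtain ⟨cf, hcf⟩ := hexp n
    -- all `a i` are units
    have hau' : ∀ i, IsUnit (a i) := fun i => isUnit_of_dvd_unit (hi0 i) hau
    have hdiv : ∀ i, xx V ∣ cf i := by
      intro i
      choose g hg using hx
      have h3 : α n = xx V • g := by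
        funext l; rw [hg l]; rfl
      have h4 := congrArg (fun z => bM.repr z (f i)) h3
      simp only [map_smul, Finsupp.smul_apply, smul_eq_mul] at h4
      rw [hcf, map_sum, Finsupp.finsetSum_apply] at h4
      rw [Finset.sum_eq_single i] at h4
      · rw [snf, map_smul, map_smul, Module.Basis.repr_self, Finsupp.smul_apply,
          Finsupp.smul_apply, Finsupp.single_eq_same, smul_eq_mul, smul_eq_mul, mul_one] at h4
        have h5 : xx V ∣ cf i * a i := ⟨_, h4⟩
        exact ((hau' i).dvd_mul_right).mp h5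
      · intro j _ hj
        rw [snf, map_smul, map_smul, Module.Basis.repr_self, Finsupp.smul_apply,
          Finsupp.smul_apply, Finsupp.single_apply, if_neg (fun h => hj (f.injective h)),
          smul_zero, smul_zero]
      · intro h; exact absurd (Finset.mem_univ i) h
    choose d hd using hdiv
    refine ⟨∑ i, d i • nn i, ?_⟩
    rw [map_sum, hcf, Finset.smul_sum]
    refine Finset.sum_congr rfl fun i _ => ?_
    rw [map_smul, hnn, hd i, smul_smul]
  · intro φ
    choose t ht using hi0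
    refine ⟨bM.constr V (fun j => ∑ i, if f i = j then t i * φ (β (nn i)) else 0), fun n => ?_⟩
    obtain ⟨cf, hcf⟩ := hexp n
    have hβ : β n = ∑ i, cf i • β (nn i) := by
      have h1 : α (n - ∑ i, cf i • nn i) = 0 := by
        rw [map_sub, map_sum, hcf, sub_eq_zero]
        exact Finset.sum_congr rfl fun i _ => by rw [map_smul, hnn]
      have h2 := hker _ h1
      rw [map_sub, map_sum, sub_eq_zero] at h2
      rw [h2]
      exact Finset.sum_congr rfl fun i _ => by rw [map_smul]
    rw [hβ, map_sum, Finset.mul_sum, hcf, map_sum]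
    refine Finset.sum_congr rfl fun i _ => ?_
    rw [snf, map_smul, map_smul, Module.Basis.constr_basis, map_smul]
    rw [Finset.sum_eq_single i]
    · rw [if_pos rfl, smul_eq_mul, smul_eq_mul, smul_eq_mul]
      have := ht i
      rw [this]; ring
    · intro j _ hj
      rw [if_neg (fun h => hj (f.injective h))]
    · intro h; exact absurd (Finset.mem_univ i) h

lemma exists_functional {κ : Type} [Fintype κ] [DecidableEq κ] {z : κ → V}
    (h : ¬ ∀ l, xx V ∣ z l) : ∃ φ : (κ → V) →ₗ[V] V, φ z = 1 := by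
  push Not at h
  obtain ⟨l, hl⟩ := h
  rw [xx_dvd_iff_not_isUnit, not_not] at hl
  obtain ⟨u, hu⟩ := hl
  refine ⟨(↑u⁻¹ : V) • LinearMap.proj l, ?_⟩
  rw [LinearMap.smul_apply, LinearMap.proj_apply, ← hu, smul_eq_mul, Units.inv_mul]

/-- the splitting lemma -/
lemma splits_or (α : N →ₗ[V] (ι → V)) (β : N →ₗ[V] (κ → V))
    (hker : ∀ n, α n = 0 ↔ β n = 0)
    (hJ : ∀ n, (∀ l, xx V ∣ α n l) → (∀ l, xx V ∣ β n l) → ∃ n', α n = xx V • α n')
    (h0 : ∃ n, α n ≠ 0) : Splits α β ∨ Splits β α := by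
  classical
  obtain ⟨a, q, ha, hq, ⟨e, he⟩, hsat, hfun⟩ := splits_aux α β (fun n => (hker n).mp) h0
  by_cases hβ : ∀ l, xx V ∣ β q l
  · -- then `a` is a unit
    have hau : IsUnit a := by
      by_contra hau
      have hx : xx V ∣ a := xx_dvd_iff_not_isUnit.mpr hau
      exact hq (hJ q (fun l => by
        rw [he, Pi.smul_apply, smul_eq_mul]; exact hx.mul_right _) hβ)
    obtain ⟨b, q', hb, hq', ⟨e', he'⟩, -, hfun'⟩ := splits_aux β α (fun n => (hker n).mpr)
      (by obtain ⟨n, hn⟩ := h0; exact ⟨n, fun h => hn ((hker n).mpr h)⟩)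
    have hα : ¬ ∀ l, xx V ∣ α q' l := by
      intro hx
      obtain ⟨n', hn'⟩ := hsat hau q' hx
      apply hq'
      refine ⟨n', ?_⟩
      have h1 : α (q' - xx V • n') = 0 := by rw [map_sub, map_smul, hn', sub_self]
      have h2 := (hker _).mp h1
      rw [map_sub, map_smul, sub_eq_zero] at h2
      exact h2
    obtain ⟨φ, hφ⟩ := exists_functional hα
    obtain ⟨μ, hμ⟩ := hfun' φ
    exact Or.inr ⟨b, q', e', μ, φ, hb, he', hφ, hμ⟩
  · obtain ⟨φ, hφ⟩ := exists_functional hβ
    obtain ⟨μ, hμ⟩ := hfun φ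
    exact Or.inl ⟨a, q, e, μ, φ, ha, he, hφ, hμ⟩

end Pool.Agent.Helper12.BCM
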