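import Mathlib
import Pool.Agent.Helper12.BCM.FreeC
import Pool.Agent.Helper12.BCM.LinAlg

set_option autoImplicit false

namespace Pool.Agent.Helper12.BCM

variable {V : Type} [CommRing V] [IsDomain V] [IsPrincipalIdealRing V] [IsLocalRing V] [VSetup V]

/-! ### more on `T` -/

noncomputable instance algCT (V : Type) [CommRing V] : Algebra (PowerSeries V) (TR V) := (dg (V := V)).toAlgebra

lemma algebraMap_CT (V : Type) [CommRing V] (f : PowerSeries V) :
    algebraMap (PowerSeries V) (TR V) f = dg f := rfl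

instance finCT (V : Type) [CommRing V] : Module.Finite (PowerSeries V) (TR V) :=
  inferInstanceAs (Module.Finite (PowerSeries V) (TT V))

lemma TR.ext2 (i : Bool) {z z' : TR V} (h1 : pr i z = pr i z') (h2 : pr (!i) z = pr (!i) z') :
    z = z' := by
  refine TR.ext fun j => ?_
  by_cases hj : j = i
  · rw [hj]; exact h1
  · have : j = !i := by cases j <;> cases i <;> simp_all
    rw [this]; exact h2

/-- constructor with components `f` at `i` and `g` at `!i` -/
noncomputable def mk2 (i : Bool) (f g : PowerSeries V)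
    (h : PowerSeries.constantCoeff f = PowerSeries.constantCoeff g) : TR V :=
  mkT (fun j => if j = i then f else g) (by cases i <;> simp [h])

@[simp] lemma pr_mk2_self (i : Bool) (f g : PowerSeries V) (h) : pr i (mk2 i f g h) = f := by
  simp [mk2]

@[simp] lemma pr_mk2_not (i : Bool) (f g : PowerSeries V) (h) : pr (!i) (mk2 i f g h) = g := by
  simp [mk2]

lemma exists_ee_mul (i : Bool) {z : TR V} (h : pr (!i) z = 0) : ∃ g, z = ee i * dg g := by
  have h1 := const_eq z i (!i)
  rw [h, map_zero, ← PowerSeries.X_dvd_iff] at h1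
  obtain ⟨g, hg⟩ := h1
  refine ⟨g, TR.ext2 i ?_ ?_⟩
  · rw [map_mul, ee_self, pr_dg, hg]
  · rw [map_mul, ee_not, zero_mul, h]

/-! ### modules of depth two over `T` -/

/-- the consequences of having depth two that we use -/
structure GoodN (N : Type*) [AddCommGroup N] [Module (TR V) N] : Prop where
  hx : ∀ n : N, xT V • n = 0 → n = 0
  hy : ∀ n : N, yT V • n = 0 → n = 0
  sx : ∀ n : N, (∀ i, ∃ n', ee (V := V) i • n = xT V • n') → ∃ n', n = xT V • n'
  sy : ∀ n : N, (∃ n', xT V • n = yT V • n') → (∀ i, ∃ n', ee (V := V) i • n = yT V • n') →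
    ∃ n', n = yT V • n'

section

variable {N : Type*} [AddCommGroup N] [Module (TR V) N]

lemma goodN_of_reg2 [Module.Finite (TR V) N] {a b : TR V}
    (ha : a ∈ IsLocalRing.maximalIdeal (TR V)) (hb : b ∈ IsLocalRing.maximalIdeal (TR V))
    (hab : Reg2 N a b) : GoodN (V := V) N := by
  have hx : ∀ n : N, xT V • n = 0 → n = 0 :=
    regular_of_reg2 ringKrullDim_TR ha hb hab xT_mem_max xT_regular
  have hy : ∀ n : N, yT V • n = 0 → n = 0 :=
    regular_of_reg2 ringKrullDim_TR ha hb hab yT_mem_max yT_regular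
  have hs : ∀ r : TR V, (∀ n : N, r • n = 0 → n = 0) → ∀ n : N, (∃ n', xT V • n = r • n') →
      (∀ i, ∃ n', ee (V := V) i • n = r • n') → ∃ n', n = r • n' := by
    intro r hr n h1 h2
    refine mem_smul_of_max_smul ha hb hab hr n ?_
    let I : Ideal (TR V) :=
      { carrier := {s | ∃ n', s • n = r • n'}
        add_mem' := by
          rintro s s' ⟨m, hm⟩ ⟨m', hm'⟩
          exact ⟨m + m', by rw [add_smul, hm, hm', smul_add]⟩
        zero_mem' := ⟨0, by rw [zero_smul, smul_zero]⟩
        smul_mem' := by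
          rintro c s ⟨m, hm⟩
          exact ⟨c • m, by rw [smul_eq_mul, mul_smul, hm, smul_comm]⟩ }
    intro s hs
    exact (max_le_of (I := I) h1 h2) hs
  refine ⟨hx, hy, fun n h => hs _ hx n ⟨n, rfl⟩ h, fun n h h' => hs _ hy n h h'⟩

lemma GoodN.sy2 (h : GoodN (V := V) N) {n n' : N} (hn : xT V • n = yT V • n') :
    ∃ n'', n = yT V • n'' := by
  refine h.sy n ⟨n', hn⟩ fun i => ?_
  refine h.sy (ee (V := V) i • n) ⟨ee (V := V) i • n', ?_⟩ fun j => ?_
  · rw [smul_comm, hn, smul_comm]
  · by_cases hj : j = i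
    · subst hj
      exact ⟨ee j • n, by rw [smul_smul, ee_sq', mul_comm, mul_smul]⟩
    · exact ⟨0, by rw [smul_smul, ee_mul_ee hj, zero_smul, smul_zero]⟩

variable [Module (PowerSeries V) N] [IsScalarTower (PowerSeries V) (TR V) N]

lemma C_smul (f : PowerSeries V) (n : N) : f • n = dg f • n := by
  rw [← algebraMap_CT, algebraMap_smul]

variable (V N) in
/-- the submodule killed by `ee i` -/
def Kf (i : Bool) : Submodule (PowerSeries V) N where
  carrier := {n | ee (V := V) i • n = 0}
  add_mem' := by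
    intro a b ha hb
    simp only [Set.mem_ofPred_eq] at *
    rw [smul_add, ha, hb, add_zero]
  zero_mem' := smul_zero _
  smul_mem' := by
    intro c n hn
    simp only [Set.mem_ofPred_eq] at *
    rw [C_smul, smul_comm, hn, smul_zero]

lemma mem_Kf {i : Bool} {n : N} : n ∈ Kf V N i ↔ ee (V := V) i • n = 0 := Iff.rfl

lemma smul_of_mem_Kf {i : Bool} {n : N} (hn : n ∈ Kf V N i) (z : TR V) :
    z • n = pr (!i) z • n := by
  rw [C_smul]
  obtain ⟨g, hg⟩ := exists_ee_mul i (z := z - dg (pr (!i) z)) (by rw [map_sub, pr_dg, sub_self])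
  rw [← sub_eq_zero, ← sub_smul, hg, mul_comm, mul_smul, mem_Kf.mp hn, smul_zero]

lemma ee_not_smul_of_mem_Kf {i : Bool} {n : N} (hn : n ∈ Kf V N i) :
    ee (V := V) (!i) • n = yT V • n := by
  rw [← ee_add' i, add_smul, mem_Kf.mp hn, zero_add]

lemma ee_not_smul_mem_Kf (i : Bool) (n : N) : ee (V := V) (!i) • n ∈ Kf V N i := by
  rw [mem_Kf, smul_smul, ee_mul_ee (by simp), zero_smul]

variable (V) in
/-- multiplication by `ee (!i)` as a map `N → K_i` -/
noncomputable def Em (i : Bool) : N →ₗ[PowerSeries V] Kf V N i where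
  toFun n := ⟨ee (V := V) (!i) • n, ee_not_smul_mem_Kf i n⟩
  map_add' a b := Subtype.ext (smul_add _ _ _)
  map_smul' c n := Subtype.ext (by
    show ee (V := V) (!i) • (c • n) = c • (ee (V := V) (!i) • n)
    rw [C_smul, C_smul, smul_comm])

@[simp] lemma Em_coe (i : Bool) (n : N) : (Em V i n : N) = ee (V := V) (!i) • n := rfl

lemma Em_of_mem {i : Bool} {n : N} (hn : n ∈ Kf V N i) :
    Em V i n = (PowerSeries.X : PowerSeries V) • (⟨n, hn⟩ : Kf V N i) := by
  apply Subtype.ext
  show ee (V := V) (!i) • n = (PowerSeries.X : PowerSeries V) • n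
  rw [ee_not_smul_of_mem_Kf hn, C_smul]; rfl

lemma Em_of_mem_not {i : Bool} {n : N} (hn : n ∈ Kf V N (!i)) : Em V i n = 0 :=
  Subtype.ext (mem_Kf.mp hn)

lemma Em_smul (i : Bool) (z : TR V) (n : N) : Em V i (z • n) = pr (!i) z • Em V i n := by
  apply Subtype.ext
  show ee (V := V) (!i) • (z • n) = pr (!i) z • (ee (V := V) (!i) • n)
  rw [smul_comm, smul_of_mem_Kf (ee_not_smul_mem_Kf i n)]

lemma reg2_Kf (h : GoodN (V := V) N) (i : Bool) :
    Reg2 (Kf V N i) (PowerSeries.X : PowerSeries V) (PowerSeries.C (xx V)) := by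
  have hX : ∀ n : N, (PowerSeries.X : PowerSeries V) • n = yT V • n := fun n => C_smul _ _
  have hC : ∀ n : N, (PowerSeries.C (xx V)) • n = xT V • n := fun n => C_smul _ _
  constructor
  · intro n hn
    have := congrArg Subtype.val hn
    apply Subtype.ext
    apply h.hy
    rw [← hX]; exact this
  · intro n n' hn
    have h1 : (PowerSeries.C (xx V)) • n.1 = (PowerSeries.X : PowerSeries V) • n'.1 :=
      congrArg Subtype.val hn
    rw [hX, hC] at h1
    obtain ⟨m, hm⟩ := h.sy2 h1
    refine ⟨⟨m, ?_⟩, Subtype.ext ?_⟩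
    · rw [mem_Kf]
      apply h.hy
      rw [smul_comm, ← hm]; exact mem_Kf.mp n.2
    · show n.1 = (PowerSeries.X : PowerSeries V) • m
      rw [hX]; exact hm

lemma free_Kf [Module.Finite (TR V) N] (h : GoodN (V := V) N) (i : Bool) :
    Module.Finite (PowerSeries V) (Kf V N i) ∧ Module.Free (PowerSeries V) (Kf V N i) := by
  have h1 : Module.Finite (PowerSeries V) N := Module.Finite.trans (TR V) N
  have h2 : Module.Finite (PowerSeries V) (Kf V N i) := inferInstance
  exact ⟨h2, free_of_reg2 (reg2_Kf h i)⟩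

end

/-! ### free modules over `C` : constant coefficients of coordinates -/

section cc

variable {K : Type*} [AddCommGroup K] [Module (PowerSeries V) K] {κ : Type} [Fintype κ]

/-- constant coefficients of coordinates -/
noncomputable def cc (b : Module.Basis κ (PowerSeries V) K) (k : K) (l : κ) : V :=
  PowerSeries.constantCoeff (b.repr k l)

/-- the element with given constant coordinates -/
noncomputable def ofCC (b : Module.Basis κ (PowerSeries V) K) (v : κ → V) : K :=
  ∑ l, PowerSeries.C (v l) • b l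

lemma repr_ofCC (b : Module.Basis κ (PowerSeries V) K) (v : κ → V) (l : κ) :
    b.repr (ofCC b v) l = PowerSeries.C (v l) := by
  classical
  rw [ofCC, map_sum, Finsupp.finsetSum_apply, Finset.sum_eq_single l]
  · rw [map_smul, Module.Basis.repr_self, Finsupp.smul_apply, Finsupp.single_eq_same, smul_eq_mul,
      mul_one]
  · intro j _ hj
    rw [map_smul, Module.Basis.repr_self, Finsupp.smul_apply, Finsupp.single_apply, if_neg hj,
      smul_zero]
  · intro h; exact absurd (Finset.mem_univ l) h

lemma cc_ofCC (b : Module.Basis κ (PowerSeries V) K) (v : κ → V) : cc b (ofCC b v) = v := by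
  funext l
  rw [cc, repr_ofCC, PowerSeries.constantCoeff_C]

lemma ofCC_smul (b : Module.Basis κ (PowerSeries V) K) (a : V) (v : κ → V) :
    ofCC b (a • v) = PowerSeries.C a • ofCC b v := by
  rw [ofCC, ofCC, Finset.smul_sum]
  refine Finset.sum_congr rfl fun l _ => ?_
  rw [Pi.smul_apply, smul_eq_mul, map_mul, mul_smul]

lemma exists_eq_ofCC_add (b : Module.Basis κ (PowerSeries V) K) (k : K) :
    ∃ k', k = ofCC b (cc b k) + (PowerSeries.X : PowerSeries V) • k' := by
  have : ∀ l, ∃ g, b.repr k l = PowerSeries.C (cc b k l) + PowerSeries.X * g := by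
    intro l
    have h : PowerSeries.X ∣ b.repr k l - PowerSeries.C (cc b k l) := by
      rw [PowerSeries.X_dvd_iff, map_sub, PowerSeries.constantCoeff_C]
      exact sub_self _
    obtain ⟨g, hg⟩ := h
    exact ⟨g, by rw [← hg]; ring⟩
  choose g hg using this
  refine ⟨∑ l, g l • b l, ?_⟩
  rw [ofCC, Finset.smul_sum, ← Finset.sum_add_distrib]
  conv_lhs => rw [← b.sum_repr k]
  refine Finset.sum_congr rfl fun l _ => ?_
  rw [← mul_smul, ← add_smul, ← hg]

lemma cc_add (b : Module.Basis κ (PowerSeries V) K) (k k' : K) :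
    cc b (k + k') = cc b k + cc b k' := by
  funext l
  simp [cc]

lemma cc_smul (b : Module.Basis κ (PowerSeries V) K) (f : PowerSeries V) (k : K) :
    cc b (f • k) = PowerSeries.constantCoeff f • cc b k := by
  funext l
  simp [cc]

lemma cc_X_smul (b : Module.Basis κ (PowerSeries V) K) (k : K) :
    cc b ((PowerSeries.X : PowerSeries V) • k) = 0 := by
  rw [cc_smul, PowerSeries.constantCoeff_X, zero_smul]

/-- extension of a functional -/
noncomputable def liftF [DecidableEq κ] (b : Module.Basis κ (PowerSeries V) K)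
    (φ : (κ → V) →ₗ[V] V) : K →ₗ[PowerSeries V] PowerSeries V :=
  b.constr (PowerSeries V) fun l => PowerSeries.C (φ (Pi.single l 1))

lemma liftF_apply [DecidableEq κ] (b : Module.Basis κ (PowerSeries V) K)
    (φ : (κ → V) →ₗ[V] V) (k : K) :
    liftF b φ k = ∑ l, b.repr k l * PowerSeries.C (φ (Pi.single l 1)) := by
  rw [liftF, Module.Basis.constr_apply_fintype]
  rfl

lemma pi_expand [DecidableEq κ] (φ : (κ → V) →ₗ[V] V) (v : κ → V) :
    φ v = ∑ l, v l * φ (Pi.single l 1) := by
  conv_lhs => rw [LinearMap.pi_apply_eq_sum_univ φ v]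
  refine Finset.sum_congr rfl fun l _ => ?_
  rw [smul_eq_mul]
  congr 2
  funext j
  rw [Pi.single_apply]
  by_cases h : l = j
  · rw [if_pos h, if_pos h.symm]
  · rw [if_neg h, if_neg (Ne.symm h)]

lemma constantCoeff_liftF [DecidableEq κ] (b : Module.Basis κ (PowerSeries V) K)
    (φ : (κ → V) →ₗ[V] V) (k : K) :
    PowerSeries.constantCoeff (liftF b φ k) = φ (cc b k) := by
  rw [liftF_apply, pi_expand φ, map_sum]
  refine Finset.sum_congr rfl fun l _ => ?_
  rw [map_mul, PowerSeries.constantCoeff_C]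
  rfl

lemma liftF_ofCC [DecidableEq κ] (b : Module.Basis κ (PowerSeries V) K)
    (φ : (κ → V) →ₗ[V] V) (v : κ → V) :
    liftF b φ (ofCC b v) = PowerSeries.C (φ v) := by
  rw [liftF_apply, pi_expand φ, map_sum]
  refine Finset.sum_congr rfl fun l _ => ?_
  rw [repr_ofCC, map_mul]

end cc

end Pool.Agent.Helper12.BCM
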