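import Mathlib
import Pool.Agent.Helper12.BCM.TMod

set_option autoImplicit false

namespace Pool.Agent.Helper12.BCM

open Polynomial

section VV

variable (V : Type) [CommRing V] [IsDomain V] [IsPrincipalIdealRing V] [IsLocalRing V] [VSetup V]

/-- `x` in `C = V⟦Y⟧` -/
noncomputable abbrev xC : PowerSeries V := PowerSeries.C (xx V)

/-- reduction modulo `x` -/
noncomputable def rho : PowerSeries V →+* PowerSeries (IsLocalRing.ResidueField V) :=
  PowerSeries.map (IsLocalRing.residue V)

variable {V}

lemma residue_eq_zero_iff' {v : V} : IsLocalRing.residue V v = 0 ↔ xx V ∣ v := by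
  rw [IsLocalRing.residue_eq_zero_iff, xx_dvd_iff]

lemma rho_eq_zero_iff {f : PowerSeries V} : rho V f = 0 ↔ xC V ∣ f := by
  rw [C_dvd_iff, PowerSeries.ext_iff]
  refine forall_congr' fun j => ?_
  rw [rho, PowerSeries.coeff_map, map_zero, residue_eq_zero_iff']

variable (V) in
lemma xC_prime : Prime (xC V) := by
  refine ⟨xC_ne V, ?_, ?_⟩
  · intro h
    rw [PowerSeries.isUnit_iff_constantCoeff, PowerSeries.constantCoeff_C] at h
    exact (xx_prime V).not_isUnit h
  · intro f g h
    rw [← rho_eq_zero_iff, map_mul, mul_eq_zero, rho_eq_zero_iff, rho_eq_zero_iff] at h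
    exact h

lemma xT_pow_dvd_iff {n : ℕ} {z : TR V} : xT V ^ n ∣ z ↔ ∀ i, xC V ^ n ∣ pr i z := by
  constructor
  · intro h i
    have := map_dvd (pr i) h
    rwa [map_pow, pr_xT] at this
  · intro h
    choose g hg using h
    refine ⟨mkT g ?_, TR.ext fun i => ?_⟩
    · have h3 := const_eq z true false
      rw [hg true, hg false, map_mul, map_mul, map_pow, PowerSeries.constantCoeff_C] at h3
      exact mul_left_cancel₀ (pow_ne_zero _ VSetup.hne) h3
    · rw [map_mul, map_pow, pr_xT, pr_mkT]; exact hg i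

lemma xT_pow_mul_cancel {n : ℕ} {z z' : TR V} (h : xT V ^ n * z = xT V ^ n * z') : z = z' := by
  induction n with
  | zero => simpa using h
  | succ n ih =>
    apply ih
    have : xT V * (xT V ^ n * z - xT V ^ n * z') = 0 := by
      rw [mul_sub, ← mul_assoc, ← mul_assoc, ← pow_succ', h, sub_self]
    exact sub_eq_zero.mp (xT_mul_eq_zero this)

/-- cancellation in `T` by an element which is nonzero on both branches -/
lemma TR.cancel {c z z' : TR V} (hc : ∀ i, pr i c ≠ 0) (h : c * z = c * z') : z = z' := by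
  refine TR.ext fun i => ?_
  have := congrArg (pr i) h
  rw [map_mul, map_mul] at this
  exact mul_left_cancel₀ (hc i) this

end VV

variable (O V : Type) [CommRing O] [IsDomain O] [UniqueFactorizationMonoid O]
    [CommRing V] [IsDomain V] [IsPrincipalIdealRing V] [IsLocalRing V] [VSetup V]
    [Algebra O V] [Setup O V]

/-- `x` in `O` -/
def xO : O := Setup.x (O := O) (V := V)

/-- `ω` -/
def om : V := xx V * Setup.w O

lemma algebraMap_xO : algebraMap O V (xO O V) = xx V := Setup.hx

/-- the coordinate `ν` -/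
noncomputable def nuT (V : Type) [CommRing V] : TR V := ee true ^ 2 - ee true + (ee false ^ 2 + ee false)

/-- the coordinate `τ` -/
noncomputable def tauT (V : Type) [CommRing V] : TR V :=
  ee true ^ 3 - ee true ^ 2 + (ee false ^ 3 + 2 * ee false ^ 2 + ee false)

/-- the element `y = ν - ω` of `T` -/
noncomputable def yA : TR V := nuT V - dg (PowerSeries.C (om O V))

/-- `ψ : O[y][t] → T` -/
noncomputable def psi : O[X][X] →+* TR V :=
  eval₂RingHom (eval₂RingHom ((dg (V := V)).comp ((PowerSeries.C (R := V)).comp (algebraMap O V)))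
    (yA O V)) (tauT V)

lemma psi_C_C (o : O) : psi O V (C (C o)) = dg (PowerSeries.C (algebraMap O V o)) := by
  simp [psi]

lemma psi_C_X : psi O V (C X) = yA O V := by
  simp [psi]

lemma psi_X : psi O V X = tauT V := by
  simp [psi]

lemma psi_x : psi O V (C (C (xO O V))) = xT V := by
  rw [psi_C_C, algebraMap_xO]; rfl

/-- the polynomials `ν_i` -/
noncomputable def nuP (R : Type*) [CommRing R] (i : Bool) : R[X] :=
  if i then X ^ 2 - X else X ^ 2 + X

/-- the polynomials `τ_i` -/
noncomputable def tauP (R : Type*) [CommRing R] (i : Bool) : R[X] :=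
  if i then X ^ 3 - X ^ 2 else X ^ 3 + 2 * X ^ 2 + X

lemma nuP_natDegree (R : Type*) [CommRing R] [Nontrivial R] (i : Bool) :
    (nuP R i).natDegree = 2 := by
  cases i <;> simp only [nuP, if_true, Bool.false_eq_true, if_false] <;> compute_degree!

lemma tauP_natDegree (R : Type*) [CommRing R] [Nontrivial R] (i : Bool) :
    (tauP R i).natDegree = 3 := by
  cases i <;> simp only [tauP, if_true, Bool.false_eq_true, if_false] <;> compute_degree!

lemma nuP_map {R S : Type*} [CommRing R] [CommRing S] (f : R →+* S) (i : Bool) :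
    (nuP R i).map f = nuP S i := by
  cases i <;> simp [nuP]

lemma tauP_map {R S : Type*} [CommRing R] [CommRing S] (f : R →+* S) (i : Bool) :
    (tauP R i).map f = tauP S i := by
  cases i <;> simp [tauP]

lemma pr_nuT (i : Bool) : pr i (nuT V) = (nuP V i : V[X]) := by
  cases i
  · simp only [nuT, nuP, map_add, map_sub, map_pow, ee_self, ee_ne (i := true) (j := false) (by decide)]
    simp
  · simp only [nuT, nuP, map_add, map_sub, map_pow, ee_self, ee_ne (i := false) (j := true) (by decide)]
    simp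

lemma pr_tauT (i : Bool) : pr i (tauT V) = (tauP V i : V[X]) := by
  cases i
  · simp only [tauT, tauP, map_add, map_sub, map_mul, map_ofNat, map_pow, ee_self,
      ee_ne (i := true) (j := false) (by decide)]
    simp
    exact (map_ofNat (Polynomial.coeToPowerSeries.ringHom (R := V)) 2).symm
  · simp only [tauT, tauP, map_add, map_sub, map_mul, map_ofNat, map_pow, ee_self,
      ee_ne (i := false) (j := true) (by decide)]
    simp

/-- the two branches `φ_i : O[y][t] → C` -/
noncomputable def phi (i : Bool) : O[X][X] →+* PowerSeries V := (pr i).comp (psi O V)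

lemma phi_apply (i : Bool) (p : O[X][X]) : phi O V i p = pr i (psi O V p) := rfl

lemma phi_C_C (i : Bool) (o : O) : phi O V i (C (C o)) = PowerSeries.C (algebraMap O V o) := by
  rw [phi_apply, psi_C_C, pr_dg]

lemma phi_C_X (i : Bool) : phi O V i (C X) = (nuP V i : V[X]) - PowerSeries.C (om O V) := by
  rw [phi_apply, psi_C_X, yA, map_sub, pr_dg, pr_nuT]

lemma phi_X (i : Bool) : phi O V i X = (tauP V i : V[X]) := by
  rw [phi_apply, psi_X, pr_tauT]

/-- the residue field -/
abbrev kk : Type := IsLocalRing.ResidueField V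

/-- `O → k` -/
noncomputable def obar : O →+* kk V := (IsLocalRing.residue V).comp (algebraMap O V)

variable {O V}

lemma obar_eq_zero_iff {o : O} : obar O V o = 0 ↔ xO O V ∣ o := by
  show IsLocalRing.residue V (algebraMap O V o) = 0 ↔ _
  rw [residue_eq_zero_iff']
  constructor
  · exact Setup.hrefl o
  · intro h
    have := map_dvd (algebraMap O V) h
    rwa [algebraMap_xO] at this

variable (O V)

/-- the reduction of `φ_i` modulo `x` -/
noncomputable def chi (i : Bool) : O[X][X] →+* (kk V)[X] :=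
  eval₂RingHom (eval₂RingHom ((C : kk V →+* (kk V)[X]).comp (obar O V)) (nuP (kk V) i)) (tauP (kk V) i)

lemma rho_coe (f : V[X]) : rho V (f : PowerSeries V) = ((f.map (IsLocalRing.residue V) : (kk V)[X]) :
    PowerSeries (kk V)) := by
  ext n
  rw [rho, PowerSeries.coeff_map, Polynomial.coeff_coe, Polynomial.coeff_coe, Polynomial.coeff_map]

lemma rho_phi (i : Bool) (p : O[X][X]) : rho V (phi O V i p) = (chi O V i p : (kk V)[X]) := by
  have h : (rho V).comp (phi O V i) = (Polynomial.coeToPowerSeries.ringHom).comp (chi O V i) := by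
    apply Polynomial.ringHom_ext'
    · apply Polynomial.ringHom_ext
      · intro o
        show rho V (phi O V i (C (C o))) = (chi O V i (C (C o)) : (kk V)[X])
        rw [phi_C_C, rho, PowerSeries.map_C]
        simp [chi, obar]
      · show rho V (phi O V i (C X)) = (chi O V i (C X) : (kk V)[X])
        rw [phi_C_X, map_sub, rho_coe, nuP_map]
        have : rho V (PowerSeries.C (om O V)) = 0 := by
          rw [rho_eq_zero_iff, om, map_mul]; exact dvd_mul_right _ _
        rw [this, sub_zero]
        simp [chi]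
    · show rho V (phi O V i X) = (chi O V i X : (kk V)[X])
      rw [phi_X, rho_coe, tauP_map]
      simp [chi]
  exact RingHom.congr_fun h p

lemma chi_C (i : Bool) (r : O[X]) : chi O V i (C r) = (r.map (obar O V)).comp (nuP (kk V) i) := by
  simp only [chi, coe_eval₂RingHom, eval₂_C]
  rw [Polynomial.comp, Polynomial.eval₂_map]

lemma chi_X (i : Bool) : chi O V i X = tauP (kk V) i := by
  simp [chi]

/-- Lemma I, case `N = 1` -/
lemma lemI_one (i : Bool) (r0 r1 : O[X])
    (h : xC V ∣ phi O V i (C r0 + C r1 * X)) : C (xO O V) ∣ r0 ∧ C (xO O V) ∣ r1 := by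
  rw [← rho_eq_zero_iff, rho_phi, Polynomial.coe_eq_zero_iff, map_add, map_mul, chi_C, chi_C,
    chi_X] at h
  set s0 := r0.map (obar O V) with hs0
  set s1 := r1.map (obar O V) with hs1
  have hn0 : (nuP (kk V) i).natDegree = 2 := nuP_natDegree _ _
  have ht0 : (tauP (kk V) i).natDegree = 3 := tauP_natDegree _ _
  have hnc : ∀ s : (kk V)[X], s.comp (nuP (kk V) i) = 0 → s = 0 := by
    intro s hs
    rcases Polynomial.comp_eq_zero_iff.mp hs with h1 | ⟨_, h2⟩
    · exact h1
    · rw [h2, natDegree_C] at hn0; omega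
  have htne : tauP (kk V) i ≠ 0 := by
    intro h0; rw [h0, natDegree_zero] at ht0; omega
  have h1 : s1 = 0 := by
    by_contra hne
    have h2 : s0.comp (nuP (kk V) i) = - (s1.comp (nuP (kk V) i) * tauP (kk V) i) := by
      rw [← add_eq_zero_iff_eq_neg]; exact h
    have h3 := congrArg natDegree h2
    rw [natDegree_neg, natDegree_mul (fun h0 => hne (hnc _ h0)) htne, natDegree_comp,
      natDegree_comp, hn0, ht0] at h3
    omega
  have h0 : s0 = 0 := by
    rw [h1, zero_comp, zero_mul, add_zero] at h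
    exact hnc _ h
  have hfin : ∀ r : O[X], r.map (obar O V) = 0 → C (xO O V) ∣ r := by
    intro r hr
    rw [Polynomial.C_dvd_iff_dvd_coeff]
    intro n
    rw [← obar_eq_zero_iff]
    have := congrArg (fun q => coeff q n) hr
    simpa using this
  exact ⟨hfin _ h0, hfin _ h1⟩

/-- Lemma I -/
lemma lemI (i : Bool) (N : ℕ) (r0 r1 : O[X])
    (h : xC V ^ N ∣ phi O V i (C r0 + C r1 * X)) :
    C (xO O V) ^ N ∣ r0 ∧ C (xO O V) ^ N ∣ r1 := by
  induction N generalizing r0 r1 with
  | zero => simp
  | succ N ih =>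
    obtain ⟨⟨s0, hs0⟩, ⟨s1, hs1⟩⟩ := lemI_one O V i r0 r1 ((dvd_pow_self _ (by omega)).trans h)
    have h2 : phi O V i (C r0 + C r1 * X) = xC V * phi O V i (C s0 + C s1 * X) := by
      rw [hs0, hs1]
      simp only [map_add, map_mul, phi_C_C, algebraMap_xO]
      ring
    rw [h2, pow_succ', mul_dvd_mul_iff_left (xC_ne V)] at h
    obtain ⟨h3, h4⟩ := ih s0 s1 h
    rw [hs0, hs1, pow_succ']
    exact ⟨mul_dvd_mul_left _ h3, mul_dvd_mul_left _ h4⟩

lemma psi_of_dvd (N : ℕ) (r0 r1 : O[X]) (h0 : C (xO O V) ^ N ∣ r0) (h1 : C (xO O V) ^ N ∣ r1) :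
    xT V ^ N ∣ psi O V (C r0 + C r1 * X) := by
  obtain ⟨s0, rfl⟩ := h0
  obtain ⟨s1, rfl⟩ := h1
  refine ⟨psi O V (C s0 + C s1 * X), ?_⟩
  simp only [map_add, map_mul, map_pow, psi_x]
  ring

/-- approximations -/
lemma approx (v : V) (N : ℕ) : ∃ o : O, xx V ^ N ∣ v - algebraMap O V o := by
  induction N with
  | zero => exact ⟨0, by simp⟩
  | succ N ih =>
    obtain ⟨o, d, hd⟩ := ih
    obtain ⟨o', ho'⟩ := Setup.happrox (O := O) d
    refine ⟨o + xO O V ^ N * o', ?_⟩
    rw [map_add, map_mul, map_pow, algebraMap_xO]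
    have : v - (algebraMap O V o + xx V ^ N * algebraMap O V o') =
        xx V ^ N * (d - algebraMap O V o') := by
      rw [mul_sub, ← hd]; ring
    rw [this, pow_succ]
    exact mul_dvd_mul_left _ ho'

/-- the relation between `y + ω` and `t` -/
lemma rel_T : tauT V ^ 2 - tauT V * nuT V - nuT V ^ 3 = 0 := by
  refine TR.ext fun i => ?_
  rw [map_zero, map_sub, map_sub, map_mul, map_pow, map_pow, pr_nuT, pr_tauT]
  have h : (tauP V i ^ 2 - tauP V i * nuP V i - nuP V i ^ 3 : V[X]) = 0 := by
    cases i <;> simp only [nuP, tauP, if_true, Bool.false_eq_true, if_false] <;> ring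
  have h2 := congrArg (fun q : V[X] => (q : PowerSeries V)) h
  simpa using h2

/-- Lemma D: division with remainder modulo `x^N` -/
lemma lemD (p : O[X][X]) (N : ℕ) :
    ∃ r0 r1 : O[X], xT V ^ N ∣ psi O V p - psi O V (C r0 + C r1 * X) := by
  obtain ⟨o, d, hd⟩ := approx O V (om O V) N
  let a : O[X] := X + C o
  let f : O[X][X] := X ^ 2 + (- C a * X + - C (a ^ 3))
  have hdeg : (- C a * X + - C (a ^ 3) : O[X][X]).degree < (2 : ℕ) := by
    refine lt_of_le_of_lt (degree_add_le _ _) ?_
    rw [max_lt_iff]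
    constructor
    · refine lt_of_le_of_lt (degree_mul_le _ _) ?_
      rw [degree_neg, degree_X]
      have := degree_C_le (a := a)
      calc (C a).degree + 1 ≤ 0 + 1 := by gcongr
        _ < (2 : ℕ) := by norm_num
    · rw [degree_neg]
      exact lt_of_le_of_lt degree_C_le (by norm_num)
  have hf : f.Monic := monic_X_pow_add hdeg
  have hfd : f.degree = 2 := by
    show (X ^ 2 + (- C a * X + - C (a ^ 3)) : O[X][X]).degree = 2
    rw [degree_add_eq_left_of_degree_lt (by rw [degree_X_pow]; exact hdeg), degree_X_pow]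
    rfl
  have hfn : f.natDegree = 2 := natDegree_eq_of_degree_eq_some hfd
  have hpf : xT V ^ N ∣ psi O V f := by
    have h1 : psi O V f = tauT V ^ 2 - tauT V * (yA O V + dg (PowerSeries.C (algebraMap O V o)))
        - (yA O V + dg (PowerSeries.C (algebraMap O V o))) ^ 3 := by
      simp only [f, a, map_add, map_mul, map_neg, map_pow, psi_X, psi_C_X, psi_C_C]
      ring
    have h2 : nuT V = (yA O V + dg (PowerSeries.C (algebraMap O V o))) + xT V ^ N *
        dg (PowerSeries.C d) := by
      have : xT V ^ N * dg (PowerSeries.C d) = dg (PowerSeries.C (om O V)) -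
          dg (PowerSeries.C (algebraMap O V o)) := by
        rw [← map_sub, ← map_sub, hd, map_mul, map_mul, map_pow, map_pow]; rfl
      rw [this, yA]; ring
    have h3 := rel_T V
    rw [h2] at h3
    rw [h1]
    set y' := (yA O V + dg (PowerSeries.C (algebraMap O V o)))
    set D := dg (PowerSeries.C d)
    refine ⟨tauT V * D + (3 * y' ^ 2 * D + 3 * y' * (xT V ^ N * D) * D + (xT V ^ N * D) ^ 2 * D), ?_⟩
    linear_combination h3
  refine ⟨(p %ₘ f).coeff 0, (p %ₘ f).coeff 1, ?_⟩
  have h1 : p %ₘ f = C ((p %ₘ f).coeff 0) + C ((p %ₘ f).coeff 1) * X := by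
    have h2 : (p %ₘ f).natDegree ≤ 1 := by
      have := natDegree_modByMonic_lt p hf (by
        intro h; rw [h, natDegree_one] at hfn; omega)
      omega
    conv_lhs => rw [Polynomial.eq_X_add_C_of_natDegree_le_one h2]
    ring
  rw [← h1, ← map_sub]
  have h3 : p - p %ₘ f = f * (p /ₘ f) := by
    have := modByMonic_add_div p f
    linear_combination -this
  rw [h3, map_mul]
  exact hpf.mul_right _

/-- Lemma X on `P` -/
lemma lemX_P (i : Bool) (N : ℕ) (p : O[X][X]) (h : xC V ^ N ∣ phi O V i p) :
    xT V ^ N ∣ psi O V p := by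
  obtain ⟨r0, r1, hr⟩ := lemD O V p N
  have h1 : xC V ^ N ∣ phi O V i (C r0 + C r1 * X) := by
    have h2 := (xT_pow_dvd_iff.mp hr) i
    rw [map_sub] at h2
    exact (dvd_sub_right h).mp h2
  obtain ⟨h3, h4⟩ := lemI O V i N r0 r1 h1
  exact (dvd_iff_dvd_of_dvd_sub hr).mpr (psi_of_dvd O V N r0 r1 h3 h4)

end Pool.Agent.Helper12.BCM
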