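import Mathlib
import Pool.Agent.Helper12.BCM.Psi

set_option autoImplicit false

namespace Pool.Agent.Helper12.BCM

open Polynomial

variable (O V : Type) [CommRing O] [IsDomain O] [UniqueFactorizationMonoid O]
    [CommRing V] [IsDomain V] [IsPrincipalIdealRing V] [IsLocalRing V] [VSetup V]
    [Algebra O V] [Setup O V]

/-- the subring `A` of `T` -/
noncomputable def AS : Subring (TR V) where
  carrier := {z | ∃ b c : O[X][X], (∀ i, phi O V i c ≠ 0) ∧ psi O V c * z = psi O V b}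
  mul_mem' := by
    rintro z z' ⟨b, c, hc, h⟩ ⟨b', c', hc', h'⟩
    refine ⟨b * b', c * c', fun i => by rw [map_mul]; exact mul_ne_zero (hc i) (hc' i), ?_⟩
    rw [map_mul, map_mul, ← h, ← h']; ring
  one_mem' := ⟨1, 1, fun i => by rw [map_one]; exact one_ne_zero, by rw [mul_one]⟩
  add_mem' := by
    rintro z z' ⟨b, c, hc, h⟩ ⟨b', c', hc', h'⟩
    refine ⟨c' * b + c * b', c * c', fun i => by rw [map_mul]; exact mul_ne_zero (hc i) (hc' i), ?_⟩
    rw [map_mul, map_add, map_mul, map_mul, ← h, ← h']; ring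
  zero_mem' := ⟨0, 1, fun i => by rw [map_one]; exact one_ne_zero, by rw [mul_zero, map_zero]⟩
  neg_mem' := by
    rintro z ⟨b, c, hc, h⟩
    exact ⟨-b, c, hc, by rw [map_neg, ← h]; ring⟩

variable {O V}

lemma mem_AS {z : TR V} : z ∈ AS O V ↔
    ∃ b c : O[X][X], (∀ i, phi O V i c ≠ 0) ∧ psi O V c * z = psi O V b := Iff.rfl

lemma psi_mem (p : O[X][X]) : psi O V p ∈ AS O V :=
  ⟨p, 1, fun i => by rw [map_one]; exact one_ne_zero, by rw [map_one, one_mul]⟩

lemma eq_zero_of_pow_dvd {f : PowerSeries V} (h : ∀ N, xC V ^ N ∣ f) : f = 0 := by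
  by_contra hf
  obtain ⟨n, hn⟩ := FiniteMultiplicity.of_not_isUnit (xC_prime V).not_isUnit hf
  exact hn (h _)

lemma psi_eq_zero_of_phi {i : Bool} {p : O[X][X]} (h : phi O V i p = 0) : psi O V p = 0 := by
  refine TR.ext fun j => ?_
  rw [map_zero]
  refine eq_zero_of_pow_dvd fun N => ?_
  exact (xT_pow_dvd_iff.mp (lemX_P O V i N p (by rw [h]; exact dvd_zero _))) j

lemma phi_ne_zero_of_ne {p : O[X][X]} (h : psi O V p ≠ 0) (i : Bool) : phi O V i p ≠ 0 :=
  fun h0 => h (psi_eq_zero_of_phi h0)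

lemma mem_of_mul_mem {a s : TR V} (ha : a ∈ AS O V) (ha0 : ∀ i, pr i a ≠ 0)
    (h : a * s ∈ AS O V) : s ∈ AS O V := by
  obtain ⟨b, c, hc, h1⟩ := h
  obtain ⟨b', c', hc', h2⟩ := ha
  refine ⟨b * c', c * b', fun i => ?_, ?_⟩
  · rw [map_mul]
    refine mul_ne_zero (hc i) ?_
    rw [phi_apply, ← h2, map_mul]
    exact mul_ne_zero (hc' i) (ha0 i)
  · rw [map_mul, map_mul, ← h1, ← h2]; ring

/-- valuations of elements of `ψ(P)` -/
lemma exists_psi_eq {c : O[X][X]} (hc : ∀ i, phi O V i c ≠ 0) :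
    ∃ (e : ℕ) (ε : TR V), psi O V c = xT V ^ e * ε ∧ ∀ i, ¬ xC V ∣ pr i ε := by
  obtain ⟨f, hf, hfx⟩ := (FiniteMultiplicity.of_not_isUnit (xC_prime V).not_isUnit
    (hc true)).exists_eq_pow_mul_and_not_dvd
  set e := multiplicity (xC V) (phi O V true c)
  obtain ⟨ε, hε⟩ := lemX_P O V true e c ⟨f, hf⟩
  refine ⟨e, ε, hε, fun i hi => hfx ?_⟩
  have h1 : xC V ^ (e + 1) ∣ phi O V i c := by
    rw [phi_apply, hε, map_mul, map_pow, pr_xT, pow_succ]
    exact mul_dvd_mul_left _ hi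
  have h2 := xT_pow_dvd_iff.mp (lemX_P O V i (e + 1) c h1) true
  rw [← phi_apply, hf, pow_succ] at h2
  exact (mul_dvd_mul_iff_left (pow_ne_zero _ (xC_ne V))).mp h2

/-- Lemma X -/
lemma lemX {z : TR V} (hz : z ∈ AS O V) (i : Bool) (N : ℕ) (h : xC V ^ N ∣ pr i z) :
    xT V ^ N ∣ z := by
  obtain ⟨b, c, hc, hbc⟩ := hz
  obtain ⟨e, ε, hε, hεx⟩ := exists_psi_eq hc
  have h1 : xC V ^ (e + N) ∣ phi O V i b := by
    rw [phi_apply, ← hbc, hε, map_mul, map_mul, map_pow, pr_xT, pow_add, mul_assoc]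
    exact mul_dvd_mul_left _ (h.mul_left _)
  have h2 := lemX_P O V i _ b h1
  rw [← hbc, hε, pow_add, mul_assoc] at h2
  obtain ⟨s, hs⟩ := h2
  rw [mul_assoc] at hs
  have h3 := xT_pow_mul_cancel hs
  rw [xT_pow_dvd_iff]
  intro j
  have h4 := congrArg (pr j) h3
  rw [map_mul, map_mul, map_pow, pr_xT] at h4
  exact ((xC_prime V).pow_dvd_of_dvd_mul_left N (hεx j) ⟨_, h4⟩)

lemma eq_zero_of_pr {z : TR V} (hz : z ∈ AS O V) {i : Bool} (h : pr i z = 0) : z = 0 := by
  refine TR.ext fun j => ?_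
  rw [map_zero]
  refine eq_zero_of_pow_dvd fun N => ?_
  exact (xT_pow_dvd_iff.mp (lemX hz i N (by rw [h]; exact dvd_zero _))) j

/-- a coprime representation -/
lemma exists_coprime_rep {z : TR V} (hz : z ∈ AS O V) :
    ∃ b c : O[X][X], IsRelPrime c b ∧ (∀ i, phi O V i c ≠ 0) ∧ psi O V c * z = psi O V b := by
  obtain ⟨b, c, hc, h⟩ := hz
  have hc0 : c ≠ 0 := by
    rintro rfl; exact hc true (map_zero _)
  obtain ⟨c', b', g, hrel, hgc, hgb⟩ := UniqueFactorizationMonoid.exists_reduced_factors c hc0 b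
  have hg : ∀ i, phi O V i g ≠ 0 := fun i h0 => hc i (by rw [← hgc, map_mul, h0, zero_mul])
  refine ⟨b', c', hrel, fun i h0 => hc i (by rw [← hgc, map_mul, h0, mul_zero]), ?_⟩
  rw [← hgc, ← hgb, map_mul, map_mul, mul_assoc] at h
  exact TR.cancel hg h

lemma algebraMap_C_apply (v : V) : algebraMap V (PowerSeries V) v = PowerSeries.C v := rfl

/-- Lemma K -/
lemma lemK (i : Bool) (q : Ideal (PowerSeries V)) [hq : q.IsPrime] (hx : xC V ∉ q)
    {a b : O[X][X]} (ha : phi O V i a ∈ q) (hb : phi O V i b ∈ q) : ¬ IsRelPrime a b := by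
  -- the algebra structure
  let D := PowerSeries V ⧸ q
  let g : V →+* D := (Ideal.Quotient.mk q).comp (PowerSeries.C (R := V))
  have hginj : Function.Injective g := by
    rw [injective_iff_map_eq_zero]
    intro v hv
    by_contra hv0
    obtain ⟨n, u, rfl⟩ := eq_unit_mul_pow hv0
    have h1 : PowerSeries.C (↑u * xx V ^ n) ∈ q := Ideal.Quotient.eq_zero_iff_mem.mp hv
    rw [map_mul, map_pow] at h1
    have h2 : xC V ^ n ∈ q := by
      have hu : IsUnit (PowerSeries.C (u : V)) := u.isUnit.map _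
      exact (Ideal.unit_mul_mem_iff_mem q hu).mp h1
    exact hx (hq.mem_of_pow_mem n h2)
  haveI : IsScalarTower O V D := inferInstance
  haveI : FaithfulSMul V D := (faithfulSMul_iff_algebraMap_injective V D).mpr hginj
  let φ : O[X][X] →+* D := (Ideal.Quotient.mk q).comp (phi O V i)
  let η : D := Ideal.Quotient.mk q PowerSeries.X
  have haev : ∀ p : O[X], aeval η p = Ideal.Quotient.mk q
      ((p.map (algebraMap O V) : V[X]) : PowerSeries V) := by
    intro p
    have h : (aeval η : O[X] →ₐ[O] D).toRingHom = (Ideal.Quotient.mk q).comp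
        ((Polynomial.coeToPowerSeries.ringHom).comp (mapRingHom (algebraMap O V))) := by
      apply Polynomial.ringHom_ext
      · intro o
        show aeval η (C o) = Ideal.Quotient.mk q (((C o).map (algebraMap O V) : V[X]) : PowerSeries V)
        rw [aeval_C, Polynomial.map_C, Polynomial.coe_C, IsScalarTower.algebraMap_apply O V D]
        rfl
      · show aeval η X = Ideal.Quotient.mk q (((X : O[X]).map (algebraMap O V) : V[X]) : PowerSeries V)
        rw [aeval_X, Polynomial.map_X, Polynomial.coe_X]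
    exact RingHom.congr_fun h p
  refine not_isRelPrime_of_map_eq_zero (nuP O i) (tauP O i) (by rw [tauP_natDegree]; omega) η
    (algebraMap V D (om O V)) ?_ φ ?_ ?_ ?_ (a := a) (b := b) ?_ ?_
  · rw [transcendental_algebraMap_iff (FaithfulSMul.algebraMap_injective V D)]
    exact Setup.htrans
  · intro o
    show Ideal.Quotient.mk q (phi O V i (C (C o))) = _
    rw [phi_C_C, IsScalarTower.algebraMap_apply O V D]; rfl
  · show Ideal.Quotient.mk q (phi O V i (C X)) = _
    rw [phi_C_X, haev, nuP_map, map_sub]; rfl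
  · show Ideal.Quotient.mk q (phi O V i X) = _
    rw [phi_X, haev, tauP_map]
  · exact Ideal.Quotient.eq_zero_iff_mem.mpr ha
  · exact Ideal.Quotient.eq_zero_iff_mem.mpr hb

/-- Lemma U -/
lemma lemU {z : TR V} (hz : z ∈ AS O V) : ∃ (ε : TR V) (e : ℕ) (b c : O[X][X]),
    IsUnit ε ∧ psi O V c = xT V ^ e * ε ∧ xT V ^ e * (ε * z) = psi O V b := by
  obtain ⟨b, c, hrel, hc, h⟩ := exists_coprime_rep hz
  obtain ⟨e, ε, hε, hεx⟩ := exists_psi_eq hc
  refine ⟨ε, e, b, c, ?_, hε, by rw [← h, hε, mul_assoc]⟩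
  by_contra hu
  have hu1 : ¬ IsUnit (pr true ε) := by
    rw [isUnit_iff, c0_eq _ true] at hu
    rwa [PowerSeries.isUnit_iff_constantCoeff]
  have hne : pr true ε ≠ 0 := fun h0 => hεx true (by rw [h0]; exact dvd_zero _)
  obtain ⟨q, hq, hqd⟩ := WfDvdMonoid.exists_irreducible_factor hu1 hne
  have hqp : Prime q := hq.prime
  have hprime : (Ideal.span {q}).IsPrime := (Ideal.span_singleton_prime hqp.ne_zero).mpr hqp
  have hxq : xC V ∉ Ideal.span {q} := by
    rw [Ideal.mem_span_singleton]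
    intro hd
    have : Associated q (xC V) := (hqp.irreducible).associated_of_dvd (xC_prime V).irreducible hd
    exact hεx true (this.symm.dvd.trans hqd)
  have h1 : phi O V true c ∈ Ideal.span {q} := by
    rw [Ideal.mem_span_singleton, phi_apply, hε, map_mul]
    exact hqd.mul_left _
  have h2 : phi O V true b ∈ Ideal.span {q} := by
    rw [phi_apply, ← h, map_mul]
    exact Ideal.mul_mem_right _ _ h1
  exact lemK true _ hxq h1 h2 hrel

end Pool.Agent.Helper12.BCM
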