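import Mathlib
import Pool.Agent.Helper12.BCM.ASub

set_option autoImplicit false

namespace Pool.Agent.Helper12.BCM

open Polynomial

variable (O V : Type) [CommRing O] [IsDomain O] [UniqueFactorizationMonoid O]
    [CommRing V] [IsDomain V] [IsPrincipalIdealRing V] [IsLocalRing V] [VSetup V]
    [Algebra O V] [Setup O V]

/-- The ring `A`, sealed. -/
def AR : Type := AS O V

noncomputable instance : CommRing (AR O V) := inferInstanceAs (CommRing (AS O V))

/-- inclusion of `A` in `T` -/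
noncomputable def inc : AR O V →+* TR V := (AS O V).subtype

/-- corestriction of `ψ` -/
noncomputable def psiA : O[X][X] →+* AR O V := (psi O V).codRestrict (AS O V) psi_mem

variable {O V}

lemma inc_inj {a b : AR O V} (h : inc O V a = inc O V b) : a = b := Subtype.ext h

lemma inc_mem (a : AR O V) : inc O V a ∈ AS O V := a.2

lemma exists_inc {z : TR V} (hz : z ∈ AS O V) : ∃ a : AR O V, inc O V a = z := ⟨⟨z, hz⟩, rfl⟩

@[simp] lemma inc_psiA (p : O[X][X]) : inc O V (psiA O V p) = psi O V p := rfl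

variable (O V) in
/-- `x` -/
noncomputable def xA : AR O V := psiA O V (C (C (xO O V)))

variable (O V) in
/-- `y` -/
noncomputable def yyA : AR O V := psiA O V (C X)

variable (O V) in
/-- `t` -/
noncomputable def tA : AR O V := psiA O V X

@[simp] lemma inc_xA : inc O V (xA O V) = xT V := psi_x O V

@[simp] lemma inc_yA : inc O V (yyA O V) = yA O V := psi_C_X O V

@[simp] lemma inc_tA : inc O V (tA O V) = tauT V := psi_X O V

lemma inc_eq_zero_iff {a : AR O V} : inc O V a = 0 ↔ a = 0 :=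
  ⟨fun h => inc_inj (by rw [h, map_zero]), fun h => by rw [h, map_zero]⟩

lemma pr_inc_eq_zero {a : AR O V} {i : Bool} (h : pr i (inc O V a) = 0) : a = 0 :=
  inc_eq_zero_iff.mp (eq_zero_of_pr (inc_mem a) h)

lemma pr_inc_ne_zero {a : AR O V} (h : a ≠ 0) (i : Bool) : pr i (inc O V a) ≠ 0 :=
  fun h0 => h (pr_inc_eq_zero h0)

instance : Nontrivial (AR O V) := ⟨⟨1, 0, fun h => by
  have := congrArg (fun a => pr true (inc O V a)) h
  simp at this⟩⟩

instance : IsDomain (AR O V) := by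
  have : NoZeroDivisors (AR O V) := ⟨by
    intro a b h
    by_contra hab
    push Not at hab
    have h1 := congrArg (fun a => pr true (inc O V a)) h
    simp only [map_mul, map_zero] at h1
    exact mul_ne_zero (pr_inc_ne_zero hab.1 true) (pr_inc_ne_zero hab.2 true) h1⟩
  exact NoZeroDivisors.to_isDomain _

/-- Lemma L7 -/
lemma dvd_of_inc_dvd {a b : AR O V} (h : inc O V a ∣ inc O V b) : a ∣ b := by
  obtain ⟨s, hs⟩ := h
  by_cases ha : a = 0
  · subst ha
    rw [map_zero, zero_mul] at hs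
    rw [inc_eq_zero_iff.mp hs]
  · obtain ⟨s', hs'⟩ := exists_inc (mem_of_mul_mem (inc_mem a) (pr_inc_ne_zero ha) (hs ▸ inc_mem b))
    exact ⟨s', inc_inj (by rw [map_mul, hs', hs])⟩

lemma inc_dvd_iff {a b : AR O V} : inc O V a ∣ inc O V b ↔ a ∣ b :=
  ⟨dvd_of_inc_dvd, fun h => map_dvd _ h⟩

instance : IsLocalHom (inc O V) := ⟨fun a h => by
  apply isUnit_of_dvd_one
  apply dvd_of_inc_dvd
  rw [map_one]; exact h.dvd⟩

instance : IsLocalRing (AR O V) := RingHom.domain_isLocalRing (inc O V)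

lemma mem_maxA_iff {a : AR O V} : a ∈ IsLocalRing.maximalIdeal (AR O V) ↔
    inc O V a ∈ IsLocalRing.maximalIdeal (TR V) := by
  rw [IsLocalRing.mem_maximalIdeal, IsLocalRing.mem_maximalIdeal, mem_nonunits_iff,
    mem_nonunits_iff, isUnit_map_iff]

lemma mem_maxA_iff' {a : AR O V} : a ∈ IsLocalRing.maximalIdeal (AR O V) ↔
    xx V ∣ c0 (inc O V a) := by
  rw [mem_maxA_iff, mem_max_iff, xx_dvd_iff]

lemma xA_pow_dvd_iff {a : AR O V} {N : ℕ} (i : Bool) :
    xA O V ^ N ∣ a ↔ xC V ^ N ∣ pr i (inc O V a) := by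
  rw [← inc_dvd_iff, map_pow, inc_xA]
  constructor
  · intro h; exact xT_pow_dvd_iff.mp h i
  · intro h; exact lemX (inc_mem a) i N h

lemma xA_dvd_iff {a : AR O V} (i : Bool) :
    xA O V ∣ a ↔ xC V ∣ pr i (inc O V a) := by
  have := xA_pow_dvd_iff (a := a) (N := 1) i
  rwa [pow_one, pow_one] at this

variable (O V) in
lemma xA_prime : Prime (xA O V) := by
  refine ⟨?_, ?_, ?_⟩
  · intro h
    have := congrArg (fun a => pr true (inc O V a)) h
    simp only [inc_xA, pr_xT, map_zero] at this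
    exact xC_ne V this
  · intro h
    have h1 := h.map (inc O V)
    rw [inc_xA] at h1
    exact (IsLocalRing.mem_maximalIdeal _).mp xT_mem_max h1
  · intro a b h
    rw [xA_dvd_iff true, map_mul, map_mul] at h
    rw [xA_dvd_iff true, xA_dvd_iff true]
    exact (xC_prime V).dvd_or_dvd h

lemma xA_mem_max : xA O V ∈ IsLocalRing.maximalIdeal (AR O V) := by
  rw [mem_maxA_iff, inc_xA]; exact xT_mem_max

lemma c0_ee (i : Bool) : c0 (ee (V := V) i) = 0 := by
  rw [c0_eq _ i, ee_self, PowerSeries.constantCoeff_X]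

lemma c0_dg (f : PowerSeries V) : c0 (dg f) = PowerSeries.constantCoeff f := by
  rw [c0_eq _ true, pr_dg]

lemma c0_nuT : c0 (nuT V) = 0 := by
  simp only [nuT, map_add, map_sub, map_pow, c0_ee]; ring

lemma c0_tauT : c0 (tauT V) = 0 := by
  simp only [tauT, map_add, map_sub, map_mul, map_pow, c0_ee]; ring

lemma c0_yA : c0 (yA O V) = - om O V := by
  rw [yA, map_sub, c0_nuT, c0_dg, PowerSeries.constantCoeff_C, zero_sub]

lemma yA_mem_max : yyA O V ∈ IsLocalRing.maximalIdeal (AR O V) := by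
  rw [mem_maxA_iff', inc_yA, c0_yA, om, dvd_neg]; exact dvd_mul_right _ _

lemma tA_mem_max : tA O V ∈ IsLocalRing.maximalIdeal (AR O V) := by
  rw [mem_maxA_iff', inc_tA, c0_tauT]; exact dvd_zero _

/-- approximation of elements of `A` -/
lemma approxA (z : AR O V) : ∃ u : AR O V, IsUnit u ∧ (∃ (e : ℕ) (b : O[X][X]),
    xA O V ^ e * (u * z) = psiA O V b) ∧
    ∀ N, ∃ r0 r1 : O[X], xA O V ^ N ∣ u * z - psiA O V (C r0 + C r1 * X) := by
  obtain ⟨ε, e, b, c, hε, hc, hb⟩ := lemU (inc_mem z)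
  have hmem : ε ∈ AS O V := by
    refine ⟨c, C (C (xO O V)) ^ e, fun i => ?_, ?_⟩
    · rw [map_pow]
      refine pow_ne_zero _ ?_
      rw [phi_C_C, algebraMap_xO]; exact xC_ne V
    · rw [map_pow, psi_x, hc]
  obtain ⟨u, hu⟩ := exists_inc hmem
  have h1 : xA O V ^ e * (u * z) = psiA O V b := inc_inj (by
    rw [map_mul, map_pow, inc_xA, map_mul, hu, hb, inc_psiA])
  refine ⟨u, ?_, ⟨e, b, h1⟩, fun N => ?_⟩
  · rw [← isUnit_map_iff (inc O V), hu]; exact hε
  · obtain ⟨r0, r1, hr⟩ := lemD O V b (e + N)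
    rw [← hb] at hr
    have h2 : xC V ^ e ∣ phi O V true (C r0 + C r1 * X) := by
      have h3 := (xT_pow_dvd_iff.mp ((pow_dvd_pow (xT V) (Nat.le_add_right e N)).trans hr)) true
      rw [map_sub, map_mul, map_pow, pr_xT] at h3
      exact (dvd_sub_right (dvd_mul_right _ _)).mp h3
    obtain ⟨⟨s0, hs0⟩, ⟨s1, hs1⟩⟩ := lemI O V true e r0 r1 h2
    refine ⟨s0, s1, ?_⟩
    rw [← inc_dvd_iff, map_pow, inc_xA, map_sub, inc_psiA, map_mul, hu]
    have h4 : psi O V (C r0 + C r1 * X) = xT V ^ e * psi O V (C s0 + C s1 * X) := by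
      rw [hs0, hs1]
      simp only [map_add, map_mul, map_pow, psi_x]
      ring
    rw [h4, ← mul_sub, pow_add] at hr
    obtain ⟨s, hs⟩ := hr
    rw [mul_assoc] at hs
    exact ⟨s, xT_pow_mul_cancel hs⟩

lemma xA_dvd_psiA {r0 r1 : O[X]} (h : xA O V ∣ psiA O V (C r0 + C r1 * X)) :
    C (xO O V) ∣ r0 ∧ C (xO O V) ∣ r1 := by
  rw [xA_dvd_iff true, inc_psiA, ← phi_apply] at h
  exact lemI_one O V true r0 r1 h

/-- factor out the power of `y` modulo `x` -/
lemma exists_y_pow (n : O[X]) (hn : ¬ C (xO O V) ∣ n) :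
    ∃ (L : ℕ) (u s : O[X]), n = X ^ L * u + C (xO O V) * s ∧ ¬ xO O V ∣ u.coeff 0 := by
  have key : ∀ (d : ℕ) (n : O[X]), n.natDegree ≤ d → ¬ C (xO O V) ∣ n →
      ∃ (L : ℕ) (u s : O[X]), n = X ^ L * u + C (xO O V) * s ∧ ¬ xO O V ∣ u.coeff 0 := by
    intro d
    induction d with
    | zero =>
      intro n hd hn
      refine ⟨0, n, 0, by ring, fun h => hn ?_⟩
      rw [Polynomial.eq_C_of_natDegree_le_zero hd]
      exact map_dvd C h
    | succ d ih =>
      intro n hd hn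
      by_cases h0 : xO O V ∣ n.coeff 0
      · have hdiv : X * n.divX + C (n.coeff 0) = n := by
          rw [X_mul]; exact n.divX_mul_X_add
        obtain ⟨L, u, s, h1, h2⟩ := ih n.divX (by rw [natDegree_divX_eq_natDegree_tsub_one]; omega) (by
          intro h3
          apply hn
          rw [← hdiv]
          exact dvd_add (h3.mul_left _) (map_dvd C h0))
        obtain ⟨c, hc⟩ := h0
        refine ⟨L + 1, u, X * s + C c, ?_, h2⟩
        rw [← hdiv, h1, hc, C_mul]; ring
      · exact ⟨0, n, 0, by ring, h0⟩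
  exact key _ n le_rfl hn

lemma c0_psi_C (r : O[X]) : ∃ v : V, c0 (psi O V (C r)) = algebraMap O V (r.coeff 0) + xx V * v := by
  have hdiv : X * r.divX + C (r.coeff 0) = r := by
    rw [X_mul]; exact r.divX_mul_X_add
  refine ⟨- (Setup.w O * c0 (psi O V (C r.divX))), ?_⟩
  conv_lhs => rw [← hdiv]
  rw [map_add, map_mul, map_add, map_mul, psi_C_X, psi_C_C, map_add, map_mul, c0_yA, c0_dg,
    PowerSeries.constantCoeff_C, om]
  ring

lemma isUnit_psiA_C {u : O[X]} (hu : ¬ xO O V ∣ u.coeff 0) : IsUnit (psiA O V (C u)) := by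
  by_contra h
  have h1 : psiA O V (C u) ∈ IsLocalRing.maximalIdeal (AR O V) := h
  rw [mem_maxA_iff', inc_psiA] at h1
  obtain ⟨v, hv⟩ := c0_psi_C (V := V) u
  rw [hv, dvd_add_left (dvd_mul_right _ _)] at h1
  exact hu (Setup.hrefl _ h1)

lemma coeff_zero_of_mem {r : O[X]} (h : psiA O V (C r) ∈ IsLocalRing.maximalIdeal (AR O V)) :
    xO O V ∣ r.coeff 0 := by
  by_contra hu
  exact h (isUnit_psiA_C hu)

/-- the relation `t² - t y - y³ ≡ 0` modulo `x` -/
lemma rel_mod_x : xA O V ∣ tA O V ^ 2 - tA O V * yyA O V - yyA O V ^ 3 := by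
  rw [← inc_dvd_iff]
  simp only [map_sub, map_mul, map_pow, inc_xA, inc_yA, inc_tA]
  have h := rel_T V
  have h2 : nuT V = yA O V + xT V * dg (PowerSeries.C (Setup.w O)) := by
    rw [yA, om, map_mul, map_mul]
    show _ = nuT V - xT V * _ + xT V * _
    ring
  rw [h2] at h
  set w := dg (PowerSeries.C (Setup.w (O := O) (V := V)))
  set y := yA O V
  refine ⟨tauT V * w + (3 * y ^ 2 * w + 3 * y * (xT V * w) * w + (xT V * w) ^ 2 * w), ?_⟩
  linear_combination h

/-- Lemma L12 : generators of the maximal ideal -/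
lemma maxA_le {I : Ideal (AR O V)} (hx : xA O V ∈ I) (hy : yyA O V ∈ I) (ht : tA O V ∈ I) :
    IsLocalRing.maximalIdeal (AR O V) ≤ I := by
  intro z hz
  obtain ⟨u, hu, -, happ⟩ := approxA z
  obtain ⟨r0, r1, s, hs⟩ := happ 1
  rw [pow_one] at hs
  have h1 : u * z = psiA O V (C r0) + psiA O V (C r1) * tA O V + xA O V * s := by
    rw [← hs, map_add, map_mul]
    show _ = psiA O V (C r0) + psiA O V (C r1) * tA O V +
      (u * z - (psiA O V (C r0) + psiA O V (C r1) * tA O V))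
    ring
  have h2 : psiA O V (C r0) ∈ IsLocalRing.maximalIdeal (AR O V) := by
    have : psiA O V (C r0) = u * z - psiA O V (C r1) * tA O V - xA O V * s := by rw [h1]; ring
    rw [this]
    exact Ideal.sub_mem _ (Ideal.sub_mem _ (Ideal.mul_mem_left _ _ hz)
      (Ideal.mul_mem_left _ _ tA_mem_max)) (Ideal.mul_mem_right _ _ xA_mem_max)
  obtain ⟨c, hc⟩ := coeff_zero_of_mem h2
  have hdiv : X * r0.divX + C (r0.coeff 0) = r0 := by
    rw [X_mul]; exact r0.divX_mul_X_add
  have h3 : psiA O V (C r0) = yyA O V * psiA O V (C r0.divX) + xA O V * psiA O V (C (C c)) := by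
    conv_lhs => rw [← hdiv]
    rw [hc]
    simp only [map_add, map_mul]
    rfl
  rw [← Ideal.unit_mul_mem_iff_mem I hu, h1, h3]
  exact I.add_mem (I.add_mem (I.add_mem (I.mul_mem_right _ hy) (I.mul_mem_right _ hx))
    (I.mul_mem_left _ ht)) (I.mul_mem_right _ hx)

/-- Lemma L11 -/
lemma exists_y_pow_mem (z : AR O V) (hz : ¬ xA O V ∣ z) :
    ∃ (L : ℕ) (a b : AR O V), yyA O V ^ L = z * a + xA O V * b := by
  obtain ⟨u, hu, -, happ⟩ := approxA z
  obtain ⟨r0, r1, s, hs⟩ := happ 1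
  rw [pow_one] at hs
  let p : O[X][X] := C r0 + C r1 * X
  let p' : O[X][X] := C (r0 + r1 * X) + C (-r1) * X
  let n : O[X] := r0 ^ 2 + r0 * r1 * X - r1 ^ 2 * X ^ 3
  have hp : ¬ xA O V ∣ psiA O V p := by
    intro h
    apply hz
    have h1 : xA O V ∣ u * z := (dvd_iff_dvd_of_dvd_sub ⟨s, hs⟩).mpr h
    exact (hu.dvd_mul_left).mp h1
  have hp' : ¬ xA O V ∣ psiA O V p' := by
    intro h
    obtain ⟨h1, h2⟩ := xA_dvd_psiA h
    have h2' : C (xO O V) ∣ r1 := by rwa [dvd_neg] at h2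
    have h1' : C (xO O V) ∣ r0 := (dvd_add_left (h2'.mul_right _)).mp h1
    obtain ⟨c, hc⟩ := h1'
    obtain ⟨d, hd⟩ := h2'
    apply hp
    refine ⟨psiA O V (C c + C d * X), ?_⟩
    show psiA O V (C r0 + C r1 * X) = psiA O V (C (C (xO O V))) * _
    rw [hc, hd, ← map_mul]
    congr 1
    simp only [C_mul]; ring
  obtain ⟨k, hk⟩ := rel_mod_x (O := O) (V := V)
  have hprod : psiA O V p * psiA O V p' = psiA O V (C n) - xA O V * (psiA O V (C r1) ^ 2 * k) := by
    have h1 : p * p' = C n - C r1 ^ 2 * (X ^ 2 - X * C X - C X ^ 3) := by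
      simp only [p, p', n, C_add, C_mul, C_neg, C_sub, C_pow]; ring
    rw [← map_mul, h1, map_sub, map_mul (psiA O V) (C r1 ^ 2), map_pow]
    have h2 : psiA O V (X ^ 2 - X * C X - C X ^ 3) = xA O V * k := by
      rw [← hk]; simp only [map_sub, map_mul, map_pow]; rfl
    rw [h2]; ring
  have hn : ¬ C (xO O V) ∣ n := by
    rintro ⟨c, hc⟩
    have h1 : xA O V ∣ psiA O V p * psiA O V p' := by
      rw [hprod, hc, C_mul, map_mul]
      exact dvd_sub (dvd_mul_right _ _) (dvd_mul_right _ _)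
    exact ((xA_prime O V).dvd_or_dvd h1).elim hp hp'
  obtain ⟨L, v, w, hnv, hv⟩ := exists_y_pow n hn
  have hvu := isUnit_psiA_C (V := V) hv
  obtain ⟨v', hv'⟩ := hvu.exists_right_inv
  have h1 : psiA O V (C n) = yyA O V ^ L * psiA O V (C v) + xA O V * psiA O V (C w) := by
    rw [hnv]; simp only [map_add, map_mul, map_pow]; rfl
  have h2 : psiA O V p = u * z - xA O V * s := by rw [← hs]; ring
  refine ⟨L, u * psiA O V p' * v', (- (s * psiA O V p') + psiA O V (C r1) ^ 2 * k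
    - psiA O V (C w)) * v', ?_⟩
  have h3 : yyA O V ^ L * psiA O V (C v) = (u * z - xA O V * s) * psiA O V p' +
      xA O V * (psiA O V (C r1) ^ 2 * k) - xA O V * psiA O V (C w) := by
    rw [← h2, hprod, h1]; ring
  calc yyA O V ^ L = (yyA O V ^ L * psiA O V (C v)) * v' := by rw [mul_assoc, hv', mul_one]
    _ = _ := by rw [h3]; ring

end Pool.Agent.Helper12.BCM
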