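import Mathlib
import Pool.Agent.Helper12.BCM.ARing

set_option autoImplicit false

namespace Pool.Agent.Helper12.BCM

open Polynomial

variable {O V : Type} [CommRing O] [IsDomain O] [UniqueFactorizationMonoid O]
    [CommRing V] [IsDomain V] [IsPrincipalIdealRing V] [IsLocalRing V] [VSetup V]
    [Algebra O V] [Setup O V]

lemma rho_pr_yA (i : Bool) : rho V (pr i (yA O V)) = (nuP (kk V) i : (kk V)[X]) := by
  rw [yA, map_sub, map_sub, pr_dg, pr_nuT, rho_coe, nuP_map]
  have : rho V (PowerSeries.C (om O V)) = 0 := by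
    rw [rho_eq_zero_iff, om, map_mul]; exact dvd_mul_right _ _
  rw [this, sub_zero]

lemma nuP_coe_ne (i : Bool) : ((nuP (kk V) i : (kk V)[X]) : PowerSeries (kk V)) ≠ 0 := by
  rw [Ne, Polynomial.coe_eq_zero_iff]
  intro h
  have := nuP_natDegree (kk V) i
  rw [h, natDegree_zero] at this
  omega

lemma not_xC_dvd_yA (i : Bool) : ¬ xC V ∣ pr i (yA O V) := by
  rw [← rho_eq_zero_iff, rho_pr_yA]; exact nuP_coe_ne i

lemma xT_dvd_iff' {z : TR V} : xT V ∣ z ↔ ∀ i, xC V ∣ pr i z := xT_dvd_iff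

/-- cancel powers of `y` modulo powers of `x` -/
lemma xT_dvd_of_dvd_y_mul {L N : ℕ} {z : TR V} (h : xT V ^ N ∣ yA O V ^ L * z) : xT V ^ N ∣ z := by
  rw [xT_pow_dvd_iff] at *
  intro i
  have h1 := h i
  rw [map_mul, map_pow] at h1
  exact (xC_prime V).pow_dvd_of_dvd_mul_left N
    (fun h2 => not_xC_dvd_yA i ((xC_prime V).dvd_of_dvd_pow h2)) h1

lemma divX_spec (r : O[X]) : r = X * r.divX + C (r.coeff 0) := by
  rw [X_mul]; exact r.divX_mul_X_add.symm

/-- base case of Lemma Y -/
lemma lemY_zero {b0 b1 : O[X]} {s s' : TR V}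
    (h : psi O V (C b0 + C b1 * X) = xT V * s + yA O V * s') :
    xO O V ∣ b0.coeff 0 ∧ xO O V ∣ b1.coeff 0 := by
  have hb0 : xO O V ∣ b0.coeff 0 := by
    have h1 := congrArg c0 h
    obtain ⟨v, hv⟩ := c0_psi_C (V := V) b0
    rw [map_add (psi O V), map_mul (psi O V), psi_X, map_add, map_mul, c0_tauT, mul_zero, add_zero,
      hv, map_add, map_mul, map_mul, c0_yA, om] at h1
    have h2 : xx V ∣ algebraMap O V (b0.coeff 0) := by
      have hx : c0 (xT V) = xx V := by
        rw [xT, c0_dg, PowerSeries.constantCoeff_C]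
      rw [hx] at h1
      refine ⟨c0 s - Setup.w O * c0 s' - v, ?_⟩
      linear_combination h1
    exact Setup.hrefl _ h2
  refine ⟨hb0, ?_⟩
  by_contra hb1
  obtain ⟨c, hc⟩ := hb0
  -- reduce to a multiple of `τ`
  have h0 : psi O V (C b0) = yA O V * psi O V (C b0.divX) + xT V * psi O V (C (C c)) := by
    conv_lhs => rw [divX_spec b0, hc]
    simp only [map_add, map_mul, psi_x, psi_C_X]
  have h1 : psi O V (C b1) = yA O V * psi O V (C b1.divX) + psi O V (C (C (b1.coeff 0))) := by
    conv_lhs => rw [divX_spec b1]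
    simp only [map_add, map_mul, psi_C_X]
  obtain ⟨o', ho'⟩ : ∃ v : V, algebraMap O V (b1.coeff 0) * v = 1 := by
    have : IsUnit (algebraMap O V (b1.coeff 0)) := by
      by_contra hnu
      exact hb1 (Setup.hrefl _ (xx_dvd_iff_not_isUnit.mpr hnu))
    exact this.exists_right_inv
  have h2 : psi O V (C (C (b1.coeff 0))) * dg (PowerSeries.C o') = 1 := by
    rw [psi_C_C, ← map_mul, ← map_mul, ho', map_one, map_one]
  rw [map_add, map_mul, psi_X, h0, h1] at h
  obtain ⟨S, S', hS⟩ : ∃ S S' : TR V, tauT V = xT V * S + yA O V * S' := by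
    refine ⟨(s - psi O V (C (C c))) * dg (PowerSeries.C o'),
      (s' - psi O V (C b0.divX) - psi O V (C b1.divX) * tauT V) * dg (PowerSeries.C o'), ?_⟩
    linear_combination (dg (PowerSeries.C o')) * h - tauT V * h2
  have hbr : ∀ i, (tauP (kk V) i : (kk V)[X]) = (nuP (kk V) i : PowerSeries (kk V)) *
      rho V (pr i S') := by
    intro i
    have h3 := congrArg (fun z => rho V (pr i z)) hS
    simp only [map_add, map_mul, pr_tauT, pr_xT, rho_pr_yA, rho_coe, tauP_map] at h3
    have h4 : rho V (PowerSeries.C (xx V)) = 0 := rho_eq_zero_iff.mpr dvd_rfl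
    rw [h4, zero_mul, zero_add] at h3
    exact h3
  have hct : rho V (pr true S') = PowerSeries.X := by
    have h3 := hbr true
    have h4 : (tauP (kk V) true : (kk V)[X]) = nuP (kk V) true * X := by
      simp only [tauP, nuP, if_true]; ring
    rw [h4, Polynomial.coe_mul, Polynomial.coe_X] at h3
    exact (mul_left_cancel₀ (nuP_coe_ne true) h3).symm
  have hcf : rho V (pr false S') = PowerSeries.X + 1 := by
    have h3 := hbr false
    have h4 : (tauP (kk V) false : (kk V)[X]) = nuP (kk V) false * (X + 1) := by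
      simp only [tauP, nuP, Bool.false_eq_true, if_false]; ring
    rw [h4, Polynomial.coe_mul, Polynomial.coe_add, Polynomial.coe_X, Polynomial.coe_one] at h3
    exact (mul_left_cancel₀ (nuP_coe_ne false) h3).symm
  have hcc : ∀ f : PowerSeries V, PowerSeries.constantCoeff (rho V f) =
      IsLocalRing.residue V (PowerSeries.constantCoeff f) := by
    intro f
    rw [← PowerSeries.coeff_zero_eq_constantCoeff_apply,
      ← PowerSeries.coeff_zero_eq_constantCoeff_apply, rho, PowerSeries.coeff_map]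
  have h5 := hcc (pr true S')
  have h6 := hcc (pr false S')
  rw [hct, PowerSeries.constantCoeff_X, const_eq S' true false] at h5
  rw [hcf, map_add, PowerSeries.constantCoeff_X, zero_add, map_one, ← h5] at h6
  exact one_ne_zero h6

/-- Lemma Y -/
lemma lemY (L : ℕ) {r0 r1 : O[X]} {s s' : TR V}
    (h : psi O V (C r0 + C r1 * X) = xT V * s + yA O V ^ L * s') :
    ∃ a0 b0 a1 b1 : O[X], r0 = C (xO O V) * a0 + X ^ L * b0 ∧
      r1 = C (xO O V) * a1 + X ^ L * b1 := by
  induction L generalizing s s' with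
  | zero => exact ⟨0, r0, 0, r1, by ring, by ring⟩
  | succ L ih =>
    obtain ⟨a0, b0, a1, b1, h0, h1⟩ := ih (s := s) (s' := yA O V * s')
      (by rw [h, pow_succ, mul_assoc])
    have h2 : psi O V (C r0 + C r1 * X) = xT V * psi O V (C a0 + C a1 * X) +
        yA O V ^ L * psi O V (C b0 + C b1 * X) := by
      rw [h0, h1]
      simp only [map_add, map_mul, map_pow, psi_x, psi_C_X]
      ring
    have h3 : xT V ^ 1 ∣ yA O V ^ L * (psi O V (C b0 + C b1 * X) - yA O V * s') := by
      refine ⟨s - psi O V (C a0 + C a1 * X), ?_⟩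
      rw [pow_one]
      have h4 := h2.symm.trans h
      linear_combination h4
    have h5 := xT_dvd_of_dvd_y_mul h3
    rw [pow_one] at h5
    obtain ⟨s'', hs''⟩ := h5
    obtain ⟨⟨c, hc⟩, ⟨d, hd⟩⟩ := lemY_zero (b0 := b0) (b1 := b1) (s := s'') (s' := s')
      (by rw [← hs'']; ring)
    refine ⟨a0 + X ^ L * C c, b0.divX, a1 + X ^ L * C d, b1.divX, ?_, ?_⟩
    · rw [h0]
      conv_lhs => rw [divX_spec b0, hc, C_mul]
      ring
    · rw [h1]
      conv_lhs => rw [divX_spec b1, hd, C_mul]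
      ring

lemma psiA_split (r0 r1 : O[X]) :
    psiA O V (C r0 + C r1 * X) = psiA O V (C r0) + psiA O V (C r1) * tA O V := by
  rw [map_add, map_mul]; rfl

/-- Lemma L15', `n = 1` -/
lemma contract_one (L : ℕ) {z : AR O V} {s s' : TR V}
    (h : inc O V z = xT V * s + yA O V ^ L * s') :
    ∃ a b : AR O V, z = xA O V * a + yyA O V ^ L * b := by
  obtain ⟨u, hu, -, happ⟩ := approxA z
  obtain ⟨r0, r1, k, hk⟩ := happ 1
  rw [pow_one] at hk
  obtain ⟨u', hu'⟩ := hu.exists_right_inv
  have h1 : psi O V (C r0 + C r1 * X) = xT V * (inc O V u * s - inc O V k) +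
      yA O V ^ L * (inc O V u * s') := by
    have h2 := congrArg (inc O V) hk
    rw [map_sub, map_mul, map_mul, inc_psiA, inc_xA, h] at h2
    linear_combination -h2
  obtain ⟨a0, b0, a1, b1, h3, h4⟩ := lemY L h1
  have h5 : psiA O V (C r0 + C r1 * X) = xA O V * psiA O V (C a0 + C a1 * X) +
      yyA O V ^ L * psiA O V (C b0 + C b1 * X) := by
    apply inc_inj
    rw [h3, h4]
    simp only [map_add, map_mul, map_pow, inc_psiA, inc_xA, inc_yA, psi_x, psi_C_X]
    ring
  refine ⟨(k + psiA O V (C a0 + C a1 * X)) * u', psiA O V (C b0 + C b1 * X) * u', ?_⟩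
  have h6 : u * z = xA O V * k + psiA O V (C r0 + C r1 * X) := by rw [← hk]; ring
  calc z = (u * u') * z := by rw [hu', one_mul]
    _ = (u * z) * u' := by ring
    _ = _ := by rw [h6, h5]; ring

/-- Lemma L15' -/
lemma contract (n L : ℕ) {z : AR O V} {s s' : TR V}
    (h : inc O V z = xT V ^ n * s + yA O V ^ L * s') :
    ∃ a b : AR O V, z = xA O V ^ n * a + yyA O V ^ L * b := by
  induction n generalizing z s s' with
  | zero => exact ⟨z, 0, by ring⟩
  | succ n ih =>
    obtain ⟨z1, z2, hz⟩ := contract_one L (z := z) (s := xT V ^ n * s) (s' := s')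
      (by rw [h, pow_succ']; ring)
    have h1 : xT V ^ 1 ∣ yA O V ^ L * (s' - inc O V z2) := by
      refine ⟨inc O V z1 - xT V ^ n * s, ?_⟩
      have h2 := congrArg (inc O V) hz
      rw [h] at h2
      simp only [map_add, map_mul, map_pow, inc_xA, inc_yA] at h2
      rw [pow_one]
      linear_combination h2
    have h3 := xT_dvd_of_dvd_y_mul h1
    rw [pow_one] at h3
    obtain ⟨s'', hs''⟩ := h3
    have h4 : inc O V z1 = xT V ^ n * s + yA O V ^ L * s'' := by
      have h2 := congrArg (inc O V) hz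
      rw [h] at h2
      simp only [map_add, map_mul, map_pow, inc_xA, inc_yA] at h2
      have h5 : xT V * (inc O V z1 - (xT V ^ n * s + yA O V ^ L * s'')) = 0 := by
        linear_combination (-1 : TR V) * h2 + yA O V ^ L * hs''
      exact sub_eq_zero.mp (xT_mul_eq_zero h5)
    obtain ⟨a, b, hab⟩ := ih h4
    exact ⟨a, xA O V * b + z2, by rw [hz, hab]; ring⟩

/-! ### comparison of the maximal ideals -/

lemma pow_ee_mem (i : Bool) (n : ℕ) (hn : 1 ≤ n) (I : Ideal (TR V)) (h : ee i ∈ I) :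
    ee (V := V) i ^ n ∈ I := Ideal.pow_mem_of_mem I h n hn

lemma ee_tf : ee (V := V) true * ee false = 0 := ee_mul_ee (by decide)

lemma isUnit_one_sub_ee : IsUnit (1 - ee (V := V) true) := by
  rw [isUnit_iff, map_sub, c0_ee, map_one, sub_zero]; exact isUnit_one

lemma isUnit_one_add_ee : IsUnit (1 + ee (V := V) false) := by
  rw [isUnit_iff, map_add, c0_ee, map_one, add_zero]; exact isUnit_one

lemma nuT_mem {I : Ideal (TR V)} (hx : xT V ∈ I) (hy : yA O V ∈ I) : nuT V ∈ I := by
  have : nuT V = yA O V + xT V * dg (PowerSeries.C (Setup.w O)) := by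
    rw [yA, om, map_mul, map_mul]
    show _ = nuT V - xT V * _ + xT V * _
    ring
  rw [this]
  exact I.add_mem hy (I.mul_mem_right _ hx)

/-- Lemma L14 -/
lemma ee_mem {I : Ideal (TR V)} (hx : xT V ∈ I) (hy : yA O V ∈ I) (ht : tauT V ∈ I) (i : Bool) :
    ee i ∈ I := by
  have hn := nuT_mem hx hy
  have h1 : ee (V := V) true * (1 - ee true) ^ 2 = tauT V - (1 + ee false) * nuT V := by
    simp only [tauT, nuT]
    linear_combination (ee (V := V) true - 1) * ee_tf (V := V)
  have hU : ee (V := V) true ∈ I := by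
    have h2 : ee (V := V) true * (1 - ee true) ^ 2 ∈ I := by
      rw [h1]; exact I.sub_mem ht (I.mul_mem_left _ hn)
    exact (Ideal.mul_unit_mem_iff_mem I (isUnit_one_sub_ee.pow 2)).mp h2
  cases i
  · have h3 : ee (V := V) false * (1 + ee false) = nuT V + ee true * (1 - ee true) := by
      simp only [nuT]; ring
    have h4 : ee (V := V) false * (1 + ee false) ∈ I := by
      rw [h3]; exact I.add_mem hn (I.mul_mem_right _ hU)
    exact (Ideal.mul_unit_mem_iff_mem I isUnit_one_add_ee).mp h4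
  · exact hU

lemma map_max : (IsLocalRing.maximalIdeal (AR O V)).map (inc O V) =
    IsLocalRing.maximalIdeal (TR V) := by
  apply le_antisymm
  · rw [Ideal.map_le_iff_le_comap]
    intro a ha
    exact mem_maxA_iff.mp ha
  · have hx : xT V ∈ (IsLocalRing.maximalIdeal (AR O V)).map (inc O V) := by
      rw [← inc_xA (O := O)]; exact Ideal.mem_map_of_mem _ xA_mem_max
    have hy : yA O V ∈ (IsLocalRing.maximalIdeal (AR O V)).map (inc O V) := by
      rw [← inc_yA (O := O)]; exact Ideal.mem_map_of_mem _ yA_mem_max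
    have ht : tauT V ∈ (IsLocalRing.maximalIdeal (AR O V)).map (inc O V) := by
      rw [← inc_tA (O := O)]; exact Ideal.mem_map_of_mem _ tA_mem_max
    exact max_le_of hx (ee_mem hx hy ht)

lemma approx_max (z : TR V) : ∃ a : AR O V, z - inc O V a ∈ IsLocalRing.maximalIdeal (TR V) := by
  obtain ⟨o, ho⟩ := Setup.happrox (O := O) (c0 z)
  refine ⟨psiA O V (C (C o)), ?_⟩
  rw [mem_max_iff, ← xx_dvd_iff, map_sub, inc_psiA, psi_C_C, c0_dg, PowerSeries.constantCoeff_C]
  exact ho

lemma approx_ideal (I : Ideal (AR O V)) {w : TR V} (hw : w ∈ I.map (inc O V)) :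
    ∃ a ∈ I, w - inc O V a ∈ IsLocalRing.maximalIdeal (TR V) * I.map (inc O V) := by
  induction hw using Submodule.span_induction with
  | mem w hw =>
    obtain ⟨a, ha, rfl⟩ := hw
    exact ⟨a, ha, by rw [sub_self]; exact Ideal.zero_mem _⟩
  | zero => exact ⟨0, I.zero_mem, by rw [map_zero, sub_zero]; exact Ideal.zero_mem _⟩
  | add w w' _ _ h h' =>
    obtain ⟨a, ha, h1⟩ := h
    obtain ⟨a', ha', h2⟩ := h'
    refine ⟨a + a', I.add_mem ha ha', ?_⟩
    rw [map_add, add_sub_add_comm]
    exact Ideal.add_mem _ h1 h2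
  | smul t w hw h =>
    obtain ⟨a, ha, h1⟩ := h
    obtain ⟨b, hb⟩ := approx_max (O := O) t
    refine ⟨b * a, I.mul_mem_left _ ha, ?_⟩
    have : t • w - inc O V (b * a) = inc O V b * (w - inc O V a) + (t - inc O V b) * w := by
      rw [map_mul, smul_eq_mul]; ring
    rw [this]
    exact Ideal.add_mem _ (Ideal.mul_mem_left _ _ h1) (Ideal.mul_mem_mul hb hw)

lemma map_max_pow (n : ℕ) : ((IsLocalRing.maximalIdeal (AR O V)) ^ n).map (inc O V) =
    IsLocalRing.maximalIdeal (TR V) ^ n := by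
  rw [Ideal.map_pow, map_max]

/-- density -/
lemma density (z : TR V) (n : ℕ) :
    ∃ a : AR O V, z - inc O V a ∈ IsLocalRing.maximalIdeal (TR V) ^ n := by
  induction n with
  | zero => exact ⟨0, by rw [pow_zero, Ideal.one_eq_top]; exact Submodule.mem_top⟩
  | succ n ih =>
    obtain ⟨a, ha⟩ := ih
    rw [← map_max_pow (O := O)] at ha
    obtain ⟨b, -, hb⟩ := approx_ideal _ ha
    rw [map_max_pow, ← pow_succ'] at hb
    exact ⟨a + b, by rw [map_add, ← sub_sub]; exact hb⟩

lemma approx_pow {n : ℕ} {z : AR O V} (hz : inc O V z ∈ IsLocalRing.maximalIdeal (TR V) ^ n)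
    (N : ℕ) : ∃ a ∈ IsLocalRing.maximalIdeal (AR O V) ^ n,
      inc O V (z - a) ∈ IsLocalRing.maximalIdeal (TR V) ^ (n + N) := by
  induction N with
  | zero => exact ⟨0, Ideal.zero_mem _, by rw [sub_zero]; exact hz⟩
  | succ N ih =>
    obtain ⟨a, ha, h1⟩ := ih
    rw [← map_max_pow (O := O)] at h1
    obtain ⟨b, hb, h2⟩ := approx_ideal _ h1
    rw [map_max_pow, ← pow_succ'] at h2
    refine ⟨a + b, Ideal.add_mem _ ha (Ideal.pow_le_pow_right (by omega) hb), ?_⟩
    rw [← sub_sub, map_sub]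
    exact h2

lemma max_sq_le : IsLocalRing.maximalIdeal (TR V) * IsLocalRing.maximalIdeal (TR V) ≤
    Ideal.span {xT V} ⊔ Ideal.span {yA O V} := by
  set I := Ideal.span {xT V} ⊔ Ideal.span {yA O V} with hI
  have hx : xT V ∈ I := Ideal.mem_sup_left (Ideal.mem_span_singleton_self _)
  have hy : yA O V ∈ I := Ideal.mem_sup_right (Ideal.mem_span_singleton_self _)
  have hn := nuT_mem hx hy
  have hsq : ∀ i, ee (V := V) i * ee i ∈ I := by
    intro i
    cases i
    · have h1 : (ee (V := V) false * ee false) * (1 + ee false) = ee false * nuT V := by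
        simp only [nuT]
        linear_combination (1 - ee (V := V) true) * ee_tf (V := V)
      have h2 : (ee (V := V) false * ee false) * (1 + ee false) ∈ I := by
        rw [h1]; exact I.mul_mem_left _ hn
      exact (Ideal.mul_unit_mem_iff_mem I isUnit_one_add_ee).mp h2
    · have h1 : (ee (V := V) true * ee true) * (1 - ee true) = - (ee true * nuT V) := by
        simp only [nuT]
        linear_combination (ee (V := V) false + 1) * ee_tf (V := V)
      have h2 : (ee (V := V) true * ee true) * (1 - ee true) ∈ I := by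
        rw [h1]; exact I.neg_mem (I.mul_mem_left _ hn)
      exact (Ideal.mul_unit_mem_iff_mem I isUnit_one_sub_ee).mp h2
  have hee : ∀ i j, ee (V := V) i * ee j ∈ I := by
    intro i j
    by_cases hij : i = j
    · rw [hij]; exact hsq j
    · rw [ee_mul_ee hij]; exact I.zero_mem
  have h1 : ∀ i, ∀ b ∈ IsLocalRing.maximalIdeal (TR V), ee (V := V) i * b ∈ I := by
    intro i
    have : IsLocalRing.maximalIdeal (TR V) ≤
        Submodule.comap (LinearMap.mulLeft (TR V) (ee (V := V) i)) I :=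
      max_le_of (I.mul_mem_left _ hx) (fun j => hee i j)
    exact fun b hb => this hb
  rw [Ideal.mul_le]
  intro a ha b hb
  have : IsLocalRing.maximalIdeal (TR V) ≤ Submodule.comap (LinearMap.mulRight (TR V) b) I :=
    max_le_of (I.mul_mem_right _ hx) (fun j => h1 j b hb)
  exact this ha

lemma max_pow_le (n : ℕ) {z : TR V} (hz : z ∈ IsLocalRing.maximalIdeal (TR V) ^ (4 * n)) :
    ∃ s s' : TR V, z = xT V ^ n * s + yA O V ^ n * s' := by
  have h1 : IsLocalRing.maximalIdeal (TR V) ^ (4 * n) ≤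
      Ideal.span {xT V ^ n} ⊔ Ideal.span {yA O V ^ n} := by
    calc IsLocalRing.maximalIdeal (TR V) ^ (4 * n)
        = (IsLocalRing.maximalIdeal (TR V) * IsLocalRing.maximalIdeal (TR V)) ^ (n + n) := by
          rw [← pow_two, ← pow_mul]; congr 1; ring
      _ ≤ (Ideal.span {xT V} ⊔ Ideal.span {yA O V}) ^ (n + n) := Ideal.pow_right_mono max_sq_le _
      _ ≤ Ideal.span {xT V} ^ n ⊔ Ideal.span {yA O V} ^ n := Ideal.sup_pow_add_le_pow_sup_pow
      _ = _ := by rw [Ideal.span_singleton_pow, Ideal.span_singleton_pow]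
  obtain ⟨p, hp, q, hq, rfl⟩ := Submodule.mem_sup.mp (h1 hz)
  obtain ⟨s, rfl⟩ := Ideal.mem_span_singleton.mp hp
  obtain ⟨s', rfl⟩ := Ideal.mem_span_singleton.mp hq
  exact ⟨s, s', rfl⟩

/-- Lemma L15 -/
lemma mem_pow_of_inc {n : ℕ} {z : AR O V}
    (hz : inc O V z ∈ IsLocalRing.maximalIdeal (TR V) ^ n) :
    z ∈ IsLocalRing.maximalIdeal (AR O V) ^ n := by
  obtain ⟨a, ha, h1⟩ := approx_pow hz (3 * n)
  obtain ⟨s, s', hs⟩ := max_pow_le (O := O) n (by rw [show 4 * n = n + 3 * n by ring]; exact h1)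
  obtain ⟨b, c, hbc⟩ := contract n n hs
  have : z = a + (xA O V ^ n * b + yyA O V ^ n * c) := by rw [← hbc]; ring
  rw [this]
  exact Ideal.add_mem _ ha (Ideal.add_mem _
    (Ideal.mul_mem_right _ _ (Ideal.pow_mem_pow xA_mem_max _))
    (Ideal.mul_mem_right _ _ (Ideal.pow_mem_pow yA_mem_max _)))

lemma mem_pow_iff {n : ℕ} {z : AR O V} : z ∈ IsLocalRing.maximalIdeal (AR O V) ^ n ↔
    inc O V z ∈ IsLocalRing.maximalIdeal (TR V) ^ n := by
  refine ⟨fun h => ?_, mem_pow_of_inc⟩
  rw [← map_max_pow (O := O)]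
  exact Ideal.mem_map_of_mem _ h

end Pool.Agent.Helper12.BCM
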