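import Mathlib
import Pool.Agent.Helper12.BCM.AIdeal

set_option autoImplicit false

namespace Pool.Agent.Helper12.BCM

open Polynomial

variable {O V : Type} [CommRing O] [IsDomain O] [UniqueFactorizationMonoid O]
    [CommRing V] [IsDomain V] [IsPrincipalIdealRing V] [IsLocalRing V] [VSetup V]
    [Algebra O V] [Setup O V]

/-- if `a, b` are relatively prime in `P` and lie in a prime `Q` of `T` then `x ∈ Q` -/
lemma xT_mem_of_isRelPrime (Q : Ideal (TR V)) [hQ : Q.IsPrime] {a b : O[X][X]}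
    (ha : psi O V a ∈ Q) (hb : psi O V b ∈ Q) (hab : IsRelPrime a b) : xT V ∈ Q := by
  by_contra hx
  obtain ⟨i, hi⟩ : ∃ i, ee (V := V) i ∈ Q := by
    have : ee (V := V) true * ee false ∈ Q := by rw [ee_tf]; exact Q.zero_mem
    rcases hQ.mem_or_mem this with h | h
    · exact ⟨_, h⟩
    · exact ⟨_, h⟩
  have hq : (Q.comap (dg (V := V))).IsPrime := hQ.comap _
  have hmem : ∀ z : TR V, z ∈ Q → pr (!i) z ∈ Q.comap (dg (V := V)) := by
    intro z hz
    rw [Ideal.mem_comap]
    obtain ⟨g, hg⟩ := exists_ee_mul i (z := z - dg (pr (!i) z)) (by rw [map_sub, pr_dg, sub_self])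
    have : dg (pr (!i) z) = z - ee i * dg g := by rw [← hg]; ring
    rw [this]
    exact Q.sub_mem hz (Q.mul_mem_right _ hi)
  exact lemK (!i) (Q.comap (dg (V := V))) (fun h => hx h) (hmem _ ha) (hmem _ hb) hab

lemma exists_xA_pow_mul {z : AR O V} (hz : z ≠ 0) :
    ∃ (e : ℕ) (z' : AR O V), z = xA O V ^ e * z' ∧ ¬ xA O V ∣ z' := by
  have hfin : FiniteMultiplicity (xA O V) z := by
    obtain ⟨n, hn⟩ := FiniteMultiplicity.of_not_isUnit (xC_prime V).not_isUnit
      (pr_inc_ne_zero hz true)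
    exact ⟨n, fun h => hn ((xA_pow_dvd_iff true).mp h)⟩
  obtain ⟨z', h1, h2⟩ := hfin.exists_eq_pow_mul_and_not_dvd
  exact ⟨_, z', h1, h2⟩

lemma psiA_xA_pow (e : ℕ) : psiA O V (C (C (xO O V)) ^ e) = xA O V ^ e := map_pow _ _ _

lemma maxA_eq : IsLocalRing.maximalIdeal (AR O V) = Ideal.span {xA O V, yyA O V, tA O V} := by
  apply le_antisymm
  · exact maxA_le (Ideal.subset_span (by simp)) (Ideal.subset_span (by simp))
      (Ideal.subset_span (by simp))
  · rw [Ideal.span_le]
    rintro a (rfl | rfl | rfl)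
    · exact xA_mem_max
    · exact yA_mem_max
    · exact tA_mem_max

lemma maxA_fg : (IsLocalRing.maximalIdeal (AR O V)).FG := by
  rw [maxA_eq]; exact Submodule.fg_span (Set.toFinite _)

/-- Lemma L13 -/
lemma prime_cases (P : Ideal (AR O V)) [hP : P.IsPrime] :
    P = IsLocalRing.maximalIdeal (AR O V) ∨ ∃ g, P = Ideal.span {g} := by
  by_cases hbot : P = ⊥
  · exact Or.inr ⟨0, by rw [hbot]; simp⟩
  by_cases hx : xA O V ∈ P
  · -- `x ∈ P`
    by_cases hall : ∀ z ∈ P, xA O V ∣ z
    · refine Or.inr ⟨xA O V, le_antisymm (fun z hz => Ideal.mem_span_singleton.mpr (hall z hz)) ?_⟩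
      rwa [Ideal.span_singleton_le_iff_mem]
    · push Not at hall
      obtain ⟨z, hz, hzx⟩ := hall
      obtain ⟨L, a, b, hab⟩ := exists_y_pow_mem z hzx
      have hy : yyA O V ∈ P := by
        apply hP.mem_of_pow_mem L
        rw [hab]
        exact P.add_mem (P.mul_mem_right _ hz) (P.mul_mem_right _ hx)
      obtain ⟨k, hk⟩ := rel_mod_x (O := O) (V := V)
      have ht : tA O V ∈ P := by
        apply hP.mem_of_pow_mem 2
        have : tA O V ^ 2 = tA O V * yyA O V + yyA O V * yyA O V ^ 2 + xA O V * k := by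
          rw [← hk]; ring
        rw [this]
        exact P.add_mem (P.add_mem (P.mul_mem_left _ hy) (P.mul_mem_right _ hy))
          (P.mul_mem_right _ hx)
      exact Or.inl (le_antisymm (IsLocalRing.le_maximalIdeal hP.ne_top) (maxA_le hx hy ht))
  · -- `x ∉ P`
    right
    obtain ⟨z0, hz0, hz0ne⟩ := Submodule.exists_mem_ne_zero_of_ne_bot hbot
    obtain ⟨u0, hu0, ⟨e0, b0, hb0⟩, -⟩ := approxA z0
    have hb0P : psiA O V b0 ∈ P := by
      rw [← hb0]; exact P.mul_mem_left _ (P.mul_mem_left _ hz0)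
    have hψb0 : psiA O V b0 ≠ 0 := by
      rw [← hb0]
      exact mul_ne_zero (pow_ne_zero _ (xA_prime O V).ne_zero) (mul_ne_zero hu0.ne_zero hz0ne)
    have hb0ne : b0 ≠ 0 := by
      rintro rfl; exact hψb0 (map_zero _)
    -- a prime factor of `b0`
    obtain ⟨π, hπ1, hπ2, hπ3⟩ : ∃ π : O[X][X], Prime π ∧ psiA O V π ∈ P ∧ psiA O V π ≠ 0 := by
      obtain ⟨v, hv⟩ := UniqueFactorizationMonoid.factors_prod hb0ne
      have hmem : ((UniqueFactorizationMonoid.factors b0).map (psiA O V)).prod ∈ P := by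
        rw [← map_multiset_prod]
        rw [← hv, map_mul] at hb0P
        exact (P.mul_unit_mem_iff_mem (v.isUnit.map (psiA O V))).mp hb0P
      obtain ⟨_, hm, hmP⟩ := (hP.multiset_prod_mem_iff_exists_mem _).1 hmem
      obtain ⟨π, hπ, rfl⟩ := Multiset.mem_map.mp hm
      refine ⟨π, UniqueFactorizationMonoid.prime_of_factor π hπ, hmP, fun h0 => hψb0 ?_⟩
      obtain ⟨c, hc⟩ := UniqueFactorizationMonoid.dvd_of_mem_factors hπ
      rw [hc, map_mul, h0, zero_mul]
    obtain ⟨e', π', hπe, hπx⟩ := exists_xA_pow_mul hπ3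
    have hπ'P : π' ∈ P := by
      rw [hπe] at hπ2
      exact (hP.mem_or_mem hπ2).resolve_left (fun h => hx (hP.mem_of_pow_mem _ h))
    refine ⟨π', le_antisymm (fun z hz => ?_) (by rwa [Ideal.span_singleton_le_iff_mem])⟩
    rw [Ideal.mem_span_singleton]
    by_contra hnd
    have hzne : z ≠ 0 := by rintro rfl; exact hnd (dvd_zero _)
    obtain ⟨u, hu, ⟨e, b, hb⟩, -⟩ := approxA z
    by_cases hπb : π ∣ b
    · -- then `π'` divides `z`
      apply hnd
      obtain ⟨b', hb'⟩ := hπb
      rw [hb', map_mul, hπe] at hb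
      -- `x^e * (u z) = x^e' π' ψ(b')`
      have h1 : xA O V ^ e ∣ xA O V ^ e' * psiA O V b' := by
        have h2 : xA O V ^ e ∣ π' * (xA O V ^ e' * psiA O V b') := ⟨u * z, by rw [hb]; ring⟩
        exact (xA_prime O V).pow_dvd_of_dvd_mul_left e hπx h2
      obtain ⟨w, hw⟩ := h1
      have h3 : xA O V ^ e * (u * z) = xA O V ^ e * (π' * w) := by
        rw [hb]; linear_combination π' * hw
      have h4 := mul_left_cancel₀ (pow_ne_zero _ (xA_prime O V).ne_zero) h3
      exact (hu.dvd_mul_left).mp ⟨w, h4⟩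
    · -- otherwise `π, b` are relatively prime
      exfalso
      have hrel : IsRelPrime π b := (hπ1.irreducible.isRelPrime_iff_not_dvd).mpr hπb
      let J : Ideal (TR V) := Ideal.span {inc O V π', inc O V z}
      have hxJ : xT V ∈ J.radical := by
        rw [Ideal.radical_eq_sInf, Ideal.mem_sInf]
        rintro Q ⟨hJQ, hQ⟩
        have hπQ : psi O V π ∈ Q := by
          have h1 : inc O V π' ∈ Q := hJQ (Ideal.subset_span (by simp))
          rw [← inc_psiA, hπe, map_mul]
          exact Q.mul_mem_left _ h1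
        have hbQ : psi O V b ∈ Q := by
          have h1 : inc O V z ∈ Q := hJQ (Ideal.subset_span (by simp))
          rw [← inc_psiA, ← hb, map_mul, map_mul]
          exact Q.mul_mem_left _ (Q.mul_mem_left _ h1)
        exact xT_mem_of_isRelPrime Q hπQ hbQ hrel
      obtain ⟨N, hN⟩ := hxJ
      obtain ⟨s1, s2, hs⟩ := Ideal.mem_span_pair.mp hN
      -- a power of the maximal ideal in `(π') + (x^(N+1))`
      obtain ⟨L, a, b', hab⟩ := exists_y_pow_mem π' hπx
      obtain ⟨k, hk⟩ := rel_mod_x (O := O) (V := V)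
      let J2 : Ideal (AR O V) := Ideal.span {π'} ⊔ Ideal.span {xA O V ^ (N + 1)}
      have hπJ : π' ∈ J2.radical :=
        Ideal.le_radical (Ideal.mem_sup_left (Ideal.mem_span_singleton_self _))
      have hxJ2 : xA O V ∈ J2.radical :=
        ⟨N + 1, Ideal.mem_sup_right (Ideal.mem_span_singleton_self _)⟩
      have hyJ2 : yyA O V ∈ J2.radical := by
        rw [← Ideal.radical_idem]
        refine ⟨L, ?_⟩
        rw [hab]
        exact Ideal.add_mem _ (Ideal.mul_mem_right _ _ hπJ) (Ideal.mul_mem_right _ _ hxJ2)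
      have htJ2 : tA O V ∈ J2.radical := by
        rw [← Ideal.radical_idem]
        refine ⟨2, ?_⟩
        have : tA O V ^ 2 = tA O V * yyA O V + yyA O V * yyA O V ^ 2 + xA O V * k := by
          rw [← hk]; ring
        rw [this]
        exact Ideal.add_mem _ (Ideal.add_mem _ (Ideal.mul_mem_left _ _ hyJ2)
          (Ideal.mul_mem_right _ _ hyJ2)) (Ideal.mul_mem_right _ _ hxJ2)
      obtain ⟨n, hn⟩ := Ideal.exists_pow_le_of_le_radical_of_fg
        (I := IsLocalRing.maximalIdeal (AR O V)) (J := J2) (maxA_le hxJ2 hyJ2 htJ2)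
        maxA_fg
      obtain ⟨a1, ha1⟩ := density (O := O) s1 n
      obtain ⟨a2, ha2⟩ := density (O := O) s2 n
      have h1 : inc O V (xA O V ^ N - (a1 * π' + a2 * z)) ∈
          IsLocalRing.maximalIdeal (TR V) ^ n := by
        have : inc O V (xA O V ^ N - (a1 * π' + a2 * z)) =
            (s1 - inc O V a1) * inc O V π' + (s2 - inc O V a2) * inc O V z := by
          simp only [map_sub, map_add, map_mul, map_pow, inc_xA]
          rw [← hs]; ring
        rw [this]
        exact Ideal.add_mem _ (Ideal.mul_mem_right _ _ ha1) (Ideal.mul_mem_right _ _ ha2)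
      obtain ⟨p, hp, q, hq, hpq⟩ := Submodule.mem_sup.mp (hn (mem_pow_of_inc h1))
      obtain ⟨p', rfl⟩ := Ideal.mem_span_singleton.mp hp
      obtain ⟨q', rfl⟩ := Ideal.mem_span_singleton.mp hq
      have h2 : xA O V ^ N * (1 - xA O V * q') ∈ P := by
        have : xA O V ^ N * (1 - xA O V * q') = (a1 + p') * π' + a2 * z := by
          linear_combination -hpq
        rw [this]
        exact P.add_mem (P.mul_mem_left _ hπ'P) (P.mul_mem_left _ hz)
      have h3 : 1 - xA O V * q' ∈ P :=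
        (hP.mem_or_mem h2).resolve_left (fun h => hx (hP.mem_of_pow_mem _ h))
      have h4 : (1 : AR O V) ∈ IsLocalRing.maximalIdeal (AR O V) := by
        have : (1 : AR O V) = (1 - xA O V * q') + xA O V * q' := by ring
        rw [this]
        exact Ideal.add_mem _ (IsLocalRing.le_maximalIdeal hP.ne_top h3)
          (Ideal.mul_mem_right _ _ xA_mem_max)
      exact (Ideal.ne_top_iff_one _).mp (IsLocalRing.maximalIdeal.isMaximal _).ne_top h4

instance : IsNoetherianRing (AR O V) := by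
  refine IsNoetherianRing.of_prime fun P hP => ?_
  rcases prime_cases P with h | ⟨g, h⟩
  · rw [h]; exact maxA_fg
  · rw [h]; exact Submodule.fg_span (Set.toFinite _)

lemma not_xA_dvd_yA : ¬ xA O V ∣ yyA O V := by
  rw [xA_dvd_iff true, inc_yA]; exact not_xC_dvd_yA true

lemma reg2_AR : Reg2 (AR O V) (xA O V) (yyA O V) := by
  refine ⟨fun z h => (mul_eq_zero.mp h).resolve_left (xA_prime O V).ne_zero, fun z z' h => ?_⟩
  rw [smul_eq_mul, smul_eq_mul] at h
  obtain ⟨w, hw⟩ := ((xA_prime O V).dvd_or_dvd ⟨z', h⟩).resolve_left not_xA_dvd_yA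
  exact ⟨w, hw⟩

lemma eq_maxA_of_prime {P : Ideal (AR O V)} (hP : P.IsPrime) (hx : xA O V ∈ P)
    (hy : yyA O V ∈ P) : P = IsLocalRing.maximalIdeal (AR O V) := by
  obtain ⟨k, hk⟩ := rel_mod_x (O := O) (V := V)
  refine le_antisymm (IsLocalRing.le_maximalIdeal hP.ne_top) (maxA_le hx hy ?_)
  apply hP.mem_of_pow_mem 2
  have : tA O V ^ 2 = tA O V * yyA O V + yyA O V * yyA O V ^ 2 + xA O V * k := by
    rw [← hk]; ring
  rw [this]
  exact P.add_mem (P.add_mem (P.mul_mem_left _ hy) (P.mul_mem_right _ hy))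
    (P.mul_mem_right _ hx)

lemma ringKrullDim_AR : ringKrullDim (AR O V) = 2 :=
  ringKrullDim_eq_two_of ((isRegular_pair_iff xA_mem_max yA_mem_max).mpr reg2_AR)
    fun _ hP hx hy => eq_maxA_of_prime hP hx hy

end Pool.Agent.Helper12.BCM
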