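import Mathlib
import Pool.Agent.Helper12.BCM.APrime

set_option autoImplicit false

namespace Pool.Agent.Helper12.BCM

open Polynomial

variable (O V : Type) [CommRing O] [IsDomain O] [UniqueFactorizationMonoid O]
    [CommRing V] [IsDomain V] [IsPrincipalIdealRing V] [IsLocalRing V] [VSetup V]
    [Algebra O V] [Setup O V]

/-- the two branches of `A` -/
noncomputable def br (i : Bool) : AR O V →+* PowerSeries V := (pr i).comp (inc O V)

variable {O V}

lemma br_apply (i : Bool) (a : AR O V) : br O V i a = pr i (inc O V a) := rfl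

@[simp] lemma br_xA (i : Bool) : br O V i (xA O V) = xC V := by
  rw [br_apply, inc_xA, pr_xT]

lemma br_yA (i : Bool) : br O V i (yyA O V) = pr i (yA O V) := by
  rw [br_apply, inc_yA]

lemma br_eq_zero {i : Bool} {a : AR O V} (h : br O V i a = 0) : a = 0 := pr_inc_eq_zero h

lemma xC_pow_dvd_of_y {i : Bool} {L N : ℕ} {f : PowerSeries V}
    (h : xC V ^ N ∣ br O V i (yyA O V) ^ L * f) : xC V ^ N ∣ f := by
  rw [br_yA] at h
  exact (xC_prime V).pow_dvd_of_dvd_mul_left N
    (fun h2 => not_xC_dvd_yA i ((xC_prime V).dvd_of_dvd_pow h2)) h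

lemma constantCoeff_br (i : Bool) (a : AR O V) :
    PowerSeries.constantCoeff (br O V i a) = c0 (inc O V a) := (c0_eq _ i).symm

lemma constantCoeff_br_yA (i : Bool) :
    PowerSeries.constantCoeff (br O V i (yyA O V)) = - om O V := by
  rw [constantCoeff_br, inc_yA, c0_yA]

lemma constantCoeff_xC : PowerSeries.constantCoeff (xC V) = xx V := PowerSeries.constantCoeff_C _

/-- expansion of elements of `(a,b)^n 𝔠` -/
lemma expand_pow {R : Type*} [CommRing R] (a b : R) (c : Ideal R) (n : ℕ) :
    ∀ z ∈ (Ideal.span {a, b}) ^ n * c, ∃ d : ℕ → R, (∀ k, d k ∈ c) ∧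
      z = ∑ k ∈ Finset.range (n + 1), d k * (a ^ (n - k) * b ^ k) := by
  induction n with
  | zero =>
    intro z hz
    rw [pow_zero, one_mul] at hz
    exact ⟨fun _ => z, fun _ => hz, by simp⟩
  | succ n ih =>
    intro z hz
    rw [pow_succ', mul_assoc] at hz
    induction hz using Submodule.mul_induction_on' with
    | mem_mul_mem m hm w hw =>
      obtain ⟨s, t, rfl⟩ := Ideal.mem_span_pair.mp hm
      obtain ⟨d, hd, rfl⟩ := ih w hw
      refine ⟨fun k => (if k ≤ n then s * d k else 0) + (if 1 ≤ k then t * d (k - 1) else 0),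
        fun k => ?_, ?_⟩
      · refine c.add_mem ?_ ?_
        · split_ifs
          · exact c.mul_mem_left _ (hd _)
          · exact c.zero_mem
        · split_ifs
          · exact c.mul_mem_left _ (hd _)
          · exact c.zero_mem
      · simp only [add_mul, Finset.sum_add_distrib]
        congr 1
        · conv_rhs => rw [Finset.sum_range_succ, if_neg (by omega), zero_mul, add_zero]
          rw [Finset.mul_sum]
          refine Finset.sum_congr rfl fun k hk => ?_
          rw [Finset.mem_range] at hk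
          rw [if_pos (by omega), show n + 1 - k = (n - k) + 1 by omega]
          ring
        · conv_rhs => rw [Finset.sum_range_succ', if_neg (by omega), zero_mul, add_zero]
          rw [Finset.mul_sum]
          refine Finset.sum_congr rfl fun k hk => ?_
          rw [if_pos (by omega), Nat.add_sub_cancel, show n + 1 - (k + 1) = n - k by omega]
          ring
    | add z z' _ _ h h' =>
      obtain ⟨d, hd, rfl⟩ := h
      obtain ⟨d', hd', rfl⟩ := h'
      refine ⟨fun k => d k + d' k, fun k => c.add_mem (hd k) (hd' k), ?_⟩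
      simp only [add_mul, Finset.sum_add_distrib]

/-- (S') -/
lemma coeff_of_sum_dvd (i : Bool) (n : ℕ) : ∀ (b : ℕ → PowerSeries V),
    xC V ^ n ∣ ∑ k ∈ Finset.range n, b k * (xC V ^ (n - 1 - k) * br O V i (yyA O V) ^ k) →
    ∀ k < n, xx V ∣ PowerSeries.constantCoeff (b k) := by
  induction n with
  | zero => intro b _ k hk; omega
  | succ n ih =>
    intro b hb
    set y := br O V i (yyA O V) with hy
    rw [Finset.sum_range_succ, show n + 1 - 1 - n = 0 by omega, pow_zero, one_mul] at hb
    -- the last coefficient is divisible by `x`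
    have h1 : xC V ∣ ∑ k ∈ Finset.range n, b k * (xC V ^ (n + 1 - 1 - k) * y ^ k) := by
      refine Finset.dvd_sum fun k hk => ?_
      rw [Finset.mem_range] at hk
      exact Dvd.dvd.mul_left (Dvd.dvd.mul_right (dvd_pow_self _ (by omega)) _) _
    have h2 : xC V ∣ b n * y ^ n :=
      (dvd_add_right h1).mp ((dvd_pow_self _ (by omega)).trans hb)
    have h3 : xC V ∣ b n := by
      have h4 : xC V ^ 1 ∣ y ^ n * b n := by rw [pow_one, mul_comm]; exact h2
      have := xC_pow_dvd_of_y h4
      rwa [pow_one] at this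
    obtain ⟨b', hb'⟩ := h3
    have hlast : xx V ∣ PowerSeries.constantCoeff (b n) := by
      rw [hb', map_mul, constantCoeff_xC]; exact dvd_mul_right _ _
    have hyc : xx V ∣ PowerSeries.constantCoeff y := by
      rw [hy, constantCoeff_br_yA, om, dvd_neg]; exact dvd_mul_right _ _
    -- new family
    let b2 : ℕ → PowerSeries V := fun k => b k + if k + 1 = n then b' * y else 0
    have h5 : xC V ^ n ∣ ∑ k ∈ Finset.range n, b2 k * (xC V ^ (n - 1 - k) * y ^ k) := by
      have h6 : xC V * (∑ k ∈ Finset.range n, b2 k * (xC V ^ (n - 1 - k) * y ^ k)) =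
          ∑ k ∈ Finset.range n, b k * (xC V ^ (n + 1 - 1 - k) * y ^ k) + b n * y ^ n - 
          (if n = 0 then b n else 0) := by
        rcases Nat.eq_zero_or_pos n with rfl | hn
        · simp
        · obtain ⟨m, rfl⟩ : ∃ m, n = m + 1 := ⟨n - 1, by omega⟩
          rw [if_neg (by omega), sub_zero]
          rw [Finset.sum_range_succ, Finset.sum_range_succ, mul_add, Finset.mul_sum]
          have e1 : ∀ k ∈ Finset.range m, xC V * (b2 k * (xC V ^ ((m + 1) - 1 - k) * y ^ k)) =
              b k * (xC V ^ (m + 1 + 1 - 1 - k) * y ^ k) := by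
            intro k hk
            rw [Finset.mem_range] at hk
            have : b2 k = b k := by
              simp only [b2]; rw [if_neg (by omega), add_zero]
            rw [this, show m + 1 + 1 - 1 - k = ((m + 1) - 1 - k) + 1 by omega, pow_succ]
            ring
          rw [Finset.sum_congr rfl e1]
          have e2 : b2 m = b m + b' * y := by
            simp [b2]
          rw [e2, hb', show (m + 1) - 1 - m = 0 by omega, show m + 1 + 1 - 1 - m = 1 by omega]
          ring
      rcases Nat.eq_zero_or_pos n with rfl | hn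
      · simp
      · rw [if_neg (by omega), sub_zero] at h6
        rw [← h6, pow_succ'] at hb
        exact (mul_dvd_mul_iff_left (xC_ne V)).mp hb
    have h7 := ih b2 h5
    intro k hk
    rcases Nat.lt_or_ge k n with hkn | hkn
    · have h8 := h7 k hkn
      simp only [b2, map_add] at h8
      by_cases hk1 : k + 1 = n
      · rw [if_pos hk1, map_mul] at h8
        exact (dvd_add_left (hyc.mul_left _)).mp h8
      · rw [if_neg hk1, map_zero, add_zero] at h8
        exact h8
    · have : k = n := by omega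
      rw [this]; exact hlast

/-! ### The module -/

variable (O V) in
/-- an element of `A` close to `(0, Y)` -/
noncomputable def eta (j : ℕ) : AR O V := (density (O := O) (ee (V := V) false) (j + 1)).choose

lemma eta_spec (j : ℕ) : ee (V := V) false - inc O V (eta O V j) ∈
    IsLocalRing.maximalIdeal (TR V) ^ (j + 1) :=
  (density (O := O) (ee (V := V) false) (j + 1)).choose_spec

variable (O V) in
/-- the row vector defining the module -/
noncomputable def ell (j : ℕ) (k : Fin (j + 1)) : AR O V :=
  if k = 0 then eta O V j else xA O V ^ (j - (k : ℕ)) * yyA O V ^ (k : ℕ)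

lemma ell_zero (j : ℕ) : ell O V j 0 = eta O V j := if_pos rfl

lemma ell_succ (j : ℕ) (k : Fin j) : ell O V j k.succ =
    xA O V ^ (j - 1 - (k : ℕ)) * yyA O V ^ ((k : ℕ) + 1) := by
  rw [ell, if_neg (Fin.succ_ne_zero k), Fin.val_succ, show j - ((k : ℕ) + 1) = j - 1 - k by omega]

variable (O V) in
/-- the branch modules -/
def NN (j : ℕ) (i : Bool) : Submodule (PowerSeries V) (Fin (j + 1) → PowerSeries V) where
  carrier := {b | xC V ^ j ∣ ∑ k, b k * br O V i (ell O V j k)}
  add_mem' := by
    intro a b ha hb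
    simp only [Set.mem_ofPred_eq, Pi.add_apply, add_mul, Finset.sum_add_distrib] at *
    exact dvd_add ha hb
  zero_mem' := by simp
  smul_mem' := by
    intro c b hb
    simp only [Set.mem_ofPred_eq, Pi.smul_apply, smul_eq_mul, mul_assoc, ← Finset.mul_sum] at *
    exact hb.mul_left _

lemma mem_NN {j : ℕ} {i : Bool} {b : Fin (j + 1) → PowerSeries V} :
    b ∈ NN O V j i ↔ xC V ^ j ∣ ∑ k, b k * br O V i (ell O V j k) := Iff.rfl

/-- `η` on the first branch -/
lemma eta_true (j : ℕ) : ∃ (c : ℕ → PowerSeries V),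
    (∀ k, xx V ∣ PowerSeries.constantCoeff (c k)) ∧
    br O V true (eta O V j) = ∑ k ∈ Finset.range (j + 1),
      c k * (xC V ^ (j - k) * br O V true (yyA O V) ^ k) := by
  set I : Ideal (PowerSeries V) := Ideal.span {xC V, br O V true (yyA O V)} with hI
  have hxI : xC V ∈ I := Ideal.subset_span (by simp)
  have hyI : br O V true (yyA O V) ∈ I := Ideal.subset_span (by simp)
  have hXI : (PowerSeries.X : PowerSeries V) ∈ I := by
    have h1 : (PowerSeries.X : PowerSeries V) * (PowerSeries.X - 1) =
        br O V true (yyA O V) + xC V * PowerSeries.C (Setup.w O) := by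
      rw [br_yA, yA, map_sub, pr_dg, pr_nuT, om, map_mul]
      simp only [nuP, if_true]
      rw [Polynomial.coe_sub, Polynomial.coe_pow, Polynomial.coe_X]
      ring
    have h2 : (PowerSeries.X : PowerSeries V) * (PowerSeries.X - 1) ∈ I := by
      rw [h1]; exact I.add_mem hyI (I.mul_mem_right _ hxI)
    refine (I.mul_unit_mem_iff_mem ?_).mp h2
    rw [PowerSeries.isUnit_iff_constantCoeff, map_sub, PowerSeries.constantCoeff_X, map_one,
      zero_sub]
    exact isUnit_one.neg
  have h1 : IsLocalRing.maximalIdeal (TR V) ≤ I.comap (pr true) := by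
    refine max_le_of ?_ ?_
    · rw [Ideal.mem_comap, pr_xT]; exact hxI
    · intro i
      rw [Ideal.mem_comap]
      cases i
      · rw [ee_ne (by decide)]; exact I.zero_mem
      · rw [ee_self]; exact hXI
  have h2 : (IsLocalRing.maximalIdeal (TR V) ^ (j + 1)).map (pr true) ≤ I ^ (j + 1) := by
    rw [Ideal.map_pow]
    exact Ideal.pow_right_mono (Ideal.map_le_iff_le_comap.mpr h1) _
  have h3 : br O V true (eta O V j) ∈ I ^ j * I := by
    rw [← pow_succ]
    have h4 := h2 (Ideal.mem_map_of_mem (pr true) (eta_spec (O := O) (V := V) j))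
    rw [map_sub, ee_ne (by decide), zero_sub] at h4
    exact (Ideal.neg_mem_iff _).mp h4
  obtain ⟨c, hc, hsum⟩ := expand_pow _ _ _ _ _ h3
  refine ⟨c, fun k => ?_, hsum⟩
  obtain ⟨s, t, hst⟩ := Ideal.mem_span_pair.mp (hc k)
  rw [← hst, map_add, map_mul, map_mul, constantCoeff_xC, constantCoeff_br_yA, om]
  exact dvd_add (dvd_mul_left _ _) (Dvd.dvd.mul_left ((dvd_neg).mpr (dvd_mul_right _ _)) _)

/-- (iii) -/
lemma exists_f0 (j : ℕ) : ∃ f ∈ NN O V j true, PowerSeries.constantCoeff (f 0) = 1 ∧
    ∀ k : Fin j, xx V ∣ PowerSeries.constantCoeff (f k.succ) := by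
  obtain ⟨c, hc, hsum⟩ := eta_true (O := O) (V := V) j
  refine ⟨Fin.cons 1 (fun k => - c ((k : ℕ) + 1)), ?_, ?_, fun k => ?_⟩
  · rw [mem_NN, Fin.sum_univ_succ]
    simp only [Fin.cons_zero, Fin.cons_succ, ell_zero, ell_succ, map_mul, map_pow, br_xA, one_mul]
    rw [hsum, Finset.sum_range_succ', Finset.sum_range]
    refine ⟨c 0, ?_⟩
    have : ∀ k : Fin j, c ((k : ℕ) + 1) * (xC V ^ (j - ((k : ℕ) + 1)) *
        br O V true (yyA O V) ^ ((k : ℕ) + 1)) = - (- c ((k : ℕ) + 1) *
        (xC V ^ (j - 1 - (k : ℕ)) * br O V true (yyA O V) ^ ((k : ℕ) + 1))) := by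
      intro k
      rw [show j - ((k : ℕ) + 1) = j - 1 - k by omega]; ring
    simp only [this, Finset.sum_neg_distrib]
    rw [Nat.sub_zero, pow_zero]
    ring
  · simp
  · rw [Fin.cons_succ, map_neg, dvd_neg]; exact hc _

/-- (iv) -/
lemma dvd_of_mem_NN_true {j : ℕ} {b : Fin (j + 1) → PowerSeries V} (hb : b ∈ NN O V j true)
    (k : Fin j) : xx V ∣ PowerSeries.constantCoeff (b k.succ) := by
  obtain ⟨c, hc, hsum⟩ := eta_true (O := O) (V := V) j
  rw [mem_NN, Fin.sum_univ_succ] at hb
  simp only [ell_zero, ell_succ, map_mul, map_pow, br_xA] at hb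
  -- the modified family
  let b' : ℕ → PowerSeries V := fun k => (if h : k < j then b (Fin.succ ⟨k, h⟩) else 0) +
    b 0 * c (k + 1)
  have h1 : xC V ^ j ∣ br O V true (yyA O V) ^ 1 * ∑ k ∈ Finset.range j,
      b' k * (xC V ^ (j - 1 - k) * br O V true (yyA O V) ^ k) := by
    have h2 : br O V true (yyA O V) ^ 1 * ∑ k ∈ Finset.range j,
        b' k * (xC V ^ (j - 1 - k) * br O V true (yyA O V) ^ k) =
        (b 0 * br O V true (eta O V j) + ∑ k : Fin j, b k.succ * (xC V ^ (j - 1 - (k : ℕ)) *
          br O V true (yyA O V) ^ ((k : ℕ) + 1))) - xC V ^ j * (b 0 * c 0) := by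
      rw [hsum, Finset.sum_range_succ', Finset.sum_range, Finset.sum_range, mul_add, Finset.mul_sum,
        Finset.mul_sum]
      have e1 : ∀ k : Fin j, br O V true (yyA O V) ^ 1 *
          (b' k * (xC V ^ (j - 1 - (k : ℕ)) * br O V true (yyA O V) ^ (k : ℕ))) =
          b 0 * (c ((k : ℕ) + 1) * (xC V ^ (j - ((k : ℕ) + 1)) *
            br O V true (yyA O V) ^ ((k : ℕ) + 1))) +
          b k.succ * (xC V ^ (j - 1 - (k : ℕ)) * br O V true (yyA O V) ^ ((k : ℕ) + 1)) := by
        intro k
        have e2 : b' k = b k.succ + b 0 * c ((k : ℕ) + 1) := by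
          simp only [b']; rw [dif_pos k.2]
        rw [e2, show j - ((k : ℕ) + 1) = j - 1 - k by omega]; ring
      simp only [e1, Finset.sum_add_distrib]
      rw [Nat.sub_zero, pow_zero]
      ring
    rw [h2]
    exact dvd_sub hb (dvd_mul_right _ _)
  have h3 := coeff_of_sum_dvd true j b' (xC_pow_dvd_of_y h1) k k.2
  have e2 : b' k = b k.succ + b 0 * c ((k : ℕ) + 1) := by
    simp only [b']; rw [dif_pos k.2]
  rw [e2, map_add, map_mul] at h3
  exact (dvd_add_left ((hc _).mul_left _)).mp h3

variable (O V) in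
/-- first order coefficients on the second branch -/
noncomputable def lam (j : ℕ) (k : Fin (j + 1)) : V :=
  PowerSeries.coeff 1 (br O V false (ell O V j k))

lemma eta_coeff (j : ℕ) (i : Bool) (k : ℕ) :
    xx V ^ (j + 1 - k) ∣ PowerSeries.coeff k (pr i (ee (V := V) false) - br O V i (eta O V j)) := by
  have h := eta_spec (O := O) (V := V) j
  rw [pow_eq_Fil] at h
  have := h i k
  rwa [map_sub] at this

lemma ell_coeff_zero (j : ℕ) (k : Fin (j + 1)) :
    xx V ^ j ∣ PowerSeries.constantCoeff (br O V false (ell O V j k)) := by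
  refine Fin.cases ?_ (fun k => ?_) k
  · rw [ell_zero]
    have h := eta_coeff (O := O) (V := V) j false 0
    rw [ee_self, map_sub, PowerSeries.coeff_zero_eq_constantCoeff_apply,
      PowerSeries.coeff_zero_eq_constantCoeff_apply, PowerSeries.constantCoeff_X, zero_sub,
      dvd_neg] at h
    exact (pow_dvd_pow _ (by omega)).trans h
  · rw [ell_succ, map_mul, map_pow, map_pow, br_xA, map_mul, map_pow, map_pow, constantCoeff_xC,
      constantCoeff_br_yA, om, neg_pow, mul_pow]
    have h1 : xx V ^ j = xx V ^ (j - 1 - (k : ℕ)) * xx V ^ ((k : ℕ) + 1) := by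
      rw [← pow_add]; congr 1; omega
    refine ⟨(-1) ^ ((k : ℕ) + 1) * Setup.w O ^ ((k : ℕ) + 1), ?_⟩
    rw [h1]
    ring

lemma lam_zero (j : ℕ) (hj : 1 ≤ j) : xx V ∣ 1 - lam O V j 0 := by
  have h := eta_coeff (O := O) (V := V) j false 1
  rw [ee_self, map_sub, PowerSeries.coeff_one_X] at h
  rw [lam, ell_zero]
  exact (dvd_pow_self _ (by omega)).trans h

/-- (i) -/
lemma dvd_of_mem_NN_false {j : ℕ} {b : Fin (j + 1) → PowerSeries V} (hb : b ∈ NN O V j false) :
    xx V ^ j ∣ ∑ k, PowerSeries.constantCoeff (b k) * lam O V j k := by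
  rw [mem_NN] at hb
  have h1 : xx V ^ j ∣ PowerSeries.coeff 1 (∑ k, b k * br O V false (ell O V j k)) := by
    rw [← map_pow, C_dvd_iff] at hb
    exact hb 1
  rw [map_sum] at h1
  have h2 : ∀ k, PowerSeries.coeff 1 (b k * br O V false (ell O V j k)) =
      PowerSeries.constantCoeff (b k) * lam O V j k +
      PowerSeries.coeff 1 (b k) * PowerSeries.constantCoeff (br O V false (ell O V j k)) := by
    intro k
    rw [PowerSeries.coeff_one_mul, lam]; ring
  simp only [h2, Finset.sum_add_distrib] at h1
  exact (dvd_add_left (Finset.dvd_sum fun k _ => (ell_coeff_zero j k).mul_left _)).mp h1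

lemma exists_two_expand (n : ℕ) (f : PowerSeries V) (h0 : xx V ^ n ∣ PowerSeries.constantCoeff f)
    (h1 : xx V ^ n ∣ PowerSeries.coeff 1 f) :
    ∃ g h : PowerSeries V, f = xC V ^ n * g + PowerSeries.X ^ 2 * h := by
  obtain ⟨a, ha⟩ := h0
  obtain ⟨b, hb⟩ := h1
  refine ⟨PowerSeries.C a + PowerSeries.C b * PowerSeries.X,
    PowerSeries.mk fun p => PowerSeries.coeff (p + 2) f, ?_⟩
  ext m
  rw [map_add, ← map_pow, PowerSeries.coeff_C_mul, PowerSeries.coeff_X_pow_mul']
  match m with
  | 0 =>
    rw [if_neg (by omega), add_zero, PowerSeries.coeff_zero_eq_constantCoeff_apply, ha]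
    simp
  | 1 =>
    rw [if_neg (by omega), add_zero, hb, map_add, PowerSeries.coeff_C_mul, PowerSeries.coeff_one_X,
      PowerSeries.coeff_C, if_neg (by omega), zero_add, mul_one]
  | m + 2 =>
    rw [if_pos (by omega), PowerSeries.coeff_mk, map_add, PowerSeries.coeff_C_mul,
      PowerSeries.coeff_C, if_neg (by omega), PowerSeries.coeff_X, if_neg (by omega), mul_zero,
      add_zero, mul_zero, zero_add, show m + 2 - 2 + 2 = m + 2 by omega]

/-- (ii) -/
lemma exists_mem_NN_false {j : ℕ} {β : Fin (j + 1) → V}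
    (hβ : xx V ^ j ∣ ∑ k, β k * lam O V j k) :
    ∃ b ∈ NN O V j false, ∀ k, PowerSeries.constantCoeff (b k) = β k := by
  -- the shape of `η`
  obtain ⟨g, h, hη⟩ := exists_two_expand j
    (PowerSeries.X - br O V false (eta O V j) : PowerSeries V)
    (by
      have h := eta_coeff (O := O) (V := V) j false 0
      rw [ee_self, PowerSeries.coeff_zero_eq_constantCoeff_apply] at h
      exact (pow_dvd_pow _ (by omega)).trans h)
    (by
      have h := eta_coeff (O := O) (V := V) j false 1
      rw [ee_self] at h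
      exact (pow_dvd_pow _ (by omega)).trans h)
  -- the sum
  obtain ⟨s, S, hS⟩ := exists_two_expand j
    (∑ k, PowerSeries.C (β k) * br O V false (ell O V j k))
    (by
      rw [map_sum]
      refine Finset.dvd_sum fun k _ => ?_
      rw [map_mul]
      exact (ell_coeff_zero j k).mul_left _)
    (by
      rw [map_sum]
      convert hβ using 2
      rw [PowerSeries.coeff_C_mul]; rfl)
  have hu : IsUnit (1 - PowerSeries.X * h : PowerSeries V) := by
    rw [PowerSeries.isUnit_iff_constantCoeff, map_sub, map_mul, PowerSeries.constantCoeff_X,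
      zero_mul, map_one, sub_zero]
    exact isUnit_one
  obtain ⟨u', hu'⟩ := hu.exists_right_inv
  refine ⟨Fin.cons (PowerSeries.C (β 0) - PowerSeries.X * (S * u'))
    (fun k => PowerSeries.C (β k.succ)), ?_, ?_⟩
  · rw [mem_NN, Fin.sum_univ_succ]
    simp only [Fin.cons_zero, Fin.cons_succ, ell_zero]
    rw [Fin.sum_univ_succ, ell_zero] at hS
    refine ⟨s + PowerSeries.X * S * u' * g, ?_⟩
    linear_combination hS + (PowerSeries.X * S * u') * hη - PowerSeries.X ^ 2 * S * hu'
  · intro k
    refine Fin.cases ?_ (fun k => ?_) k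
    · rw [Fin.cons_zero, map_sub, map_mul, PowerSeries.constantCoeff_C,
        PowerSeries.constantCoeff_X, zero_mul, sub_zero]
    · rw [Fin.cons_succ, PowerSeries.constantCoeff_C]

end Pool.Agent.Helper12.BCM
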