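import Mathlib
import Pool.Agent.Helper12.BCM.MBranch

set_option autoImplicit false

namespace Pool.Agent.Helper12.BCM

open Polynomial

variable {O V : Type} [CommRing O] [IsDomain O] [UniqueFactorizationMonoid O]
    [CommRing V] [IsDomain V] [IsPrincipalIdealRing V] [IsLocalRing V] [VSetup V]
    [Algebra O V] [Setup O V]

variable (O V) in
/-- the module `M_j` -/
def MM (j : ℕ) : Submodule (AR O V) (Fin (j + 1) → AR O V) where
  carrier := {a | xA O V ^ j ∣ ∑ k, a k * ell O V j k}
  add_mem' := by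
    intro a b ha hb
    simp only [Set.mem_ofPred_eq, Pi.add_apply, add_mul, Finset.sum_add_distrib] at *
    exact dvd_add ha hb
  zero_mem' := by simp
  smul_mem' := by
    intro c b hb
    simp only [Set.mem_ofPred_eq, Pi.smul_apply, smul_eq_mul, mul_assoc, ← Finset.mul_sum] at *
    exact hb.mul_left _

lemma mem_MM {j : ℕ} {a : Fin (j + 1) → AR O V} :
    a ∈ MM O V j ↔ xA O V ^ j ∣ ∑ k, a k * ell O V j k := Iff.rfl

lemma single_sum {R : Type*} [CommRing R] {n : ℕ} (k : Fin n) (r : R) (f : Fin n → R) :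
    ∑ l, (Pi.single k r : Fin n → R) l * f l = r * f k := by
  rw [Finset.sum_eq_single k]
  · rw [Pi.single_eq_same]
  · intro l _ hl; rw [Pi.single_eq_of_ne hl, zero_mul]
  · intro h; exact absurd (Finset.mem_univ k) h

variable (O V) in
/-- the elements `x^j e_k` -/
noncomputable def hh (j : ℕ) (k : Fin (j + 1)) : MM O V j :=
  ⟨Pi.single k (xA O V ^ j), by rw [mem_MM, single_sum]; exact dvd_mul_right _ _⟩

lemma ell_last {j : ℕ} (hj : 1 ≤ j) : ell O V j (Fin.last j) = yyA O V ^ j := by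
  obtain ⟨m, rfl⟩ : ∃ m, j = m + 1 := ⟨j - 1, by omega⟩
  rw [← Fin.succ_last, ell_succ, Fin.val_last, show m + 1 - 1 - m = 0 by omega, pow_zero, one_mul]

variable (O V) in
/-- the elements `y^j e_k - ℓ_k e_j` -/
noncomputable def gg (j : ℕ) (hj : 1 ≤ j) (k : Fin (j + 1)) : MM O V j :=
  ⟨Pi.single k (yyA O V ^ j) - Pi.single (Fin.last j) (ell O V j k), by
    rw [mem_MM]
    simp only [Pi.sub_apply, sub_mul, Finset.sum_sub_distrib, single_sum]
    rw [ell_last hj]
    have : yyA O V ^ j * ell O V j k - ell O V j k * yyA O V ^ j = 0 := by ring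
    rw [this]; exact dvd_zero _⟩

/-- image of a vector in a branch -/
noncomputable def brv {n : ℕ} (i : Bool) (a : Fin n → AR O V) : Fin n → PowerSeries V :=
  fun k => br O V i (a k)

lemma brv_mem {j : ℕ} (i : Bool) {a : Fin (j + 1) → AR O V} (ha : a ∈ MM O V j) :
    brv i a ∈ NN O V j i := by
  rw [mem_NN]
  have := map_dvd (br O V i) (mem_MM.mp ha)
  simpa [brv] using this

lemma expand_x {j : ℕ} (i : Bool) (b : Fin (j + 1) → PowerSeries V) :
    xC V ^ j • b = ∑ k, b k • brv i (hh O V j k).1 := by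
  funext l
  rw [Finset.sum_apply]
  simp only [Pi.smul_apply, smul_eq_mul]
  rw [Finset.sum_eq_single l]
  · simp only [brv, hh, Pi.single_eq_same, map_pow, br_xA]; ring
  · intro k _ hk
    simp only [brv, hh]
    rw [Pi.single_eq_of_ne (Ne.symm hk), map_zero, mul_zero]
  · intro h; exact absurd (Finset.mem_univ l) h

lemma expand_y {j : ℕ} (hj : 1 ≤ j) (i : Bool) {b : Fin (j + 1) → PowerSeries V} {c : PowerSeries V}
    (hc : ∑ k, b k * br O V i (ell O V j k) = xC V ^ j * c) :
    br O V i (yyA O V) ^ j • b = ∑ k, b k • brv i (gg O V j hj k).1 +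
      c • brv i (hh O V j (Fin.last j)).1 := by
  have h1 : ∑ k, b k • brv i (gg O V j hj k).1 =
      br O V i (yyA O V) ^ j • b - (∑ k, b k * br O V i (ell O V j k)) •
        (Pi.single (Fin.last j) 1 : Fin (j + 1) → PowerSeries V) := by
    funext l
    rw [Finset.sum_apply]
    simp only [Pi.smul_apply, Pi.sub_apply, smul_eq_mul, brv, gg, map_sub]
    simp only [mul_sub, Finset.sum_sub_distrib]
    congr 1
    · rw [Finset.sum_eq_single l]
      · rw [Pi.single_eq_same, map_pow]; ring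
      · intro k _ hk
        rw [Pi.single_eq_of_ne (Ne.symm hk), map_zero, mul_zero]
      · intro h; exact absurd (Finset.mem_univ l) h
    · rw [Finset.sum_mul]
      refine Finset.sum_congr rfl fun k _ => ?_
      by_cases hl : l = Fin.last j
      · subst hl; rw [Pi.single_eq_same, Pi.single_eq_same, mul_one]
      · rw [Pi.single_eq_of_ne hl, Pi.single_eq_of_ne hl, map_zero, mul_zero, mul_zero]
  rw [h1, hc]
  have h2 : c • brv i (hh O V j (Fin.last j)).1 = (xC V ^ j * c) •
      (Pi.single (Fin.last j) 1 : Fin (j + 1) → PowerSeries V) := by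
    funext l
    simp only [Pi.smul_apply, smul_eq_mul, brv, hh]
    by_cases hl : l = Fin.last j
    · subst hl; rw [Pi.single_eq_same, Pi.single_eq_same, map_pow, br_xA]; ring
    · rw [Pi.single_eq_of_ne hl, Pi.single_eq_of_ne hl, map_zero, mul_zero, mul_zero]
  rw [h2]; abel

variable (O V) in
/-- the combined family -/
noncomputable def fam (j : ℕ) (hj : 1 ≤ j) : Fin (j + 1) ⊕ Fin (j + 1) → MM O V j :=
  Sum.elim (gg O V j hj) (hh O V j)

lemma expand_fam_x {j : ℕ} (hj : 1 ≤ j) (i : Bool) (b : Fin (j + 1) → PowerSeries V) :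
    ∃ d : Fin (j + 1) ⊕ Fin (j + 1) → PowerSeries V,
      xC V ^ j • b = ∑ s, d s • brv i (fam O V j hj s).1 := by
  refine ⟨Sum.elim (fun _ => 0) b, ?_⟩
  rw [Fintype.sum_sum_type]
  simp only [Sum.elim_inl, Sum.elim_inr, zero_smul, Finset.sum_const_zero, zero_add, fam]
  exact expand_x i b

lemma expand_fam_y {j : ℕ} (hj : 1 ≤ j) (i : Bool) {b : Fin (j + 1) → PowerSeries V}
    (hb : b ∈ NN O V j i) :
    ∃ d : Fin (j + 1) ⊕ Fin (j + 1) → PowerSeries V,
      br O V i (yyA O V) ^ j • b = ∑ s, d s • brv i (fam O V j hj s).1 := by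
  obtain ⟨c, hc⟩ := hb
  refine ⟨Sum.elim b (Pi.single (Fin.last j) c), ?_⟩
  rw [Fintype.sum_sum_type, expand_y hj i hc]
  simp only [Sum.elim_inl, Sum.elim_inr, fam]
  congr 1
  rw [Finset.sum_eq_single (Fin.last j)]
  · rw [Pi.single_eq_same]
  · intro l _ hl; rw [Pi.single_eq_of_ne hl, zero_smul]
  · intro h; exact absurd (Finset.mem_univ _) h

/-! ### endomorphisms -/

section endo

variable {j : ℕ} (ε : MM O V j →ₗ[AR O V] MM O V j)

/-- the matrix of `x^j ε` -/
noncomputable def Emat : Matrix (Fin (j + 1)) (Fin (j + 1)) (AR O V) :=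
  Matrix.of fun l k => (ε (hh O V j k)).1 l

lemma Emat_mulVec (a : MM O V j) : (Emat ε).mulVec a.1 = xA O V ^ j • (ε a).1 := by
  have h1 : xA O V ^ j • a = ∑ k, a.1 k • hh O V j k := by
    apply Subtype.ext
    funext l
    rw [Submodule.coe_sum, Finset.sum_apply, Finset.sum_eq_single l]
    · show xA O V ^ j * a.1 l = a.1 l * (Pi.single l (xA O V ^ j) : Fin (j + 1) → AR O V) l
      rw [Pi.single_eq_same]; ring
    · intro k _ hk
      show a.1 k * (Pi.single k (xA O V ^ j) : Fin (j + 1) → AR O V) l = 0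
      rw [Pi.single_eq_of_ne (Ne.symm hk), mul_zero]
    · intro h; exact absurd (Finset.mem_univ _) h
  have h2 := congrArg ε h1
  rw [map_smul, map_sum] at h2
  have h3 : xA O V ^ j • (ε a).1 = ∑ k, a.1 k • (ε (hh O V j k)).1 := by
    have := congrArg Subtype.val h2
    rw [Submodule.coe_sum] at this
    simp only [map_smul] at this
    exact this
  rw [h3]
  funext l
  rw [Finset.sum_apply]
  simp only [Matrix.mulVec, dotProduct, Emat, Matrix.of_apply, Pi.smul_apply, smul_eq_mul]
  exact Finset.sum_congr rfl fun k _ => mul_comm _ _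

lemma Emat_mul_self (hε : ∀ a, ε (ε a) = ε a) : Emat ε * Emat ε = xA O V ^ j • Emat ε := by
  ext l k
  have h1 := congrFun (Emat_mulVec ε (ε (hh O V j k))) l
  rw [hε] at h1
  exact h1

/-- the matrix on a branch -/
noncomputable def Ebr (i : Bool) : Matrix (Fin (j + 1)) (Fin (j + 1)) (PowerSeries V) :=
  (Emat ε).map (br O V i)

lemma Ebr_mulVec_brv (i : Bool) (a : MM O V j) :
    (Ebr ε i).mulVec (brv i a.1) = xC V ^ j • brv i (ε a).1 := by
  have h1 : (Ebr ε i).mulVec (brv i a.1) = brv i ((Emat ε).mulVec a.1) := by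
    funext l
    have := RingHom.map_mulVec (br O V i) (Emat ε) a.1 l
    exact this.symm
  rw [h1, Emat_mulVec]
  funext l
  show br O V i (xA O V ^ j * (ε a).1 l) = xC V ^ j * br O V i ((ε a).1 l)
  rw [map_mul, map_pow, br_xA]

lemma Ebr_mul_self (hε : ∀ a, ε (ε a) = ε a) (i : Bool) :
    Ebr ε i * Ebr ε i = xC V ^ j • Ebr ε i := by
  have h := congrArg (fun M => M.map (br O V i)) (Emat_mul_self ε hε)
  rw [Matrix.map_mul] at h
  rw [Ebr, h]
  refine Matrix.ext fun l k => ?_
  show br O V i (xA O V ^ j * Emat ε l k) = xC V ^ j * br O V i (Emat ε l k)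
  rw [map_mul, map_pow, br_xA]

/-- `x^j` divides `E b` for `b` in `N_i` -/
lemma exists_eps_N (hj : 1 ≤ j) (i : Bool) {b : Fin (j + 1) → PowerSeries V}
    (hb : b ∈ NN O V j i) : ∃ b' ∈ NN O V j i, (Ebr ε i).mulVec b = xC V ^ j • b' := by
  obtain ⟨d, hd⟩ := expand_fam_y hj i hb
  set y := br O V i (yyA O V) with hy
  let n : Fin (j + 1) → PowerSeries V := ∑ s, d s • brv i (ε (fam O V j hj s)).1
  have hn : n ∈ NN O V j i :=
    Submodule.sum_mem _ fun s _ => Submodule.smul_mem _ _ (brv_mem i (ε (fam O V j hj s)).2)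
  have h1 : y ^ j • (Ebr ε i).mulVec b = xC V ^ j • n := by
    rw [← Matrix.mulVec_smul, hd, Matrix.mulVec_sum, Finset.smul_sum]
    refine Finset.sum_congr rfl fun s _ => ?_
    rw [Matrix.mulVec_smul, Ebr_mulVec_brv, smul_comm]
  have h2 : ∀ l, xC V ^ j ∣ (Ebr ε i).mulVec b l := by
    intro l
    apply xC_pow_dvd_of_y (O := O) (i := i) (L := j)
    exact ⟨n l, congrFun h1 l⟩
  choose b' hb' using h2
  have h3 : (Ebr ε i).mulVec b = xC V ^ j • b' := funext hb'
  refine ⟨b', ?_, h3⟩
  have h4 : y ^ j • b' = n := by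
    rw [h3, smul_comm] at h1
    funext l
    have := congrFun h1 l
    exact mul_left_cancel₀ (pow_ne_zero _ (xC_ne V)) this
  rw [mem_NN]
  apply xC_pow_dvd_of_y (O := O) (i := i) (L := j)
  rw [← h4, mem_NN] at hn
  rw [Finset.mul_sum]
  simpa only [Pi.smul_apply, smul_eq_mul, mul_assoc] using hn

/-- the constant matrix -/
noncomputable def Ebar : Matrix (Fin (j + 1)) (Fin (j + 1)) V :=
  (Emat ε).map (fun a => c0 (inc O V a))

/-- constant coefficients of a vector -/
noncomputable def cst {n : ℕ} (b : Fin n → PowerSeries V) : Fin n → V :=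
  fun k => PowerSeries.constantCoeff (b k)

lemma cst_smul {n : ℕ} (c : PowerSeries V) (b : Fin n → PowerSeries V) :
    cst (c • b) = PowerSeries.constantCoeff c • cst b := by
  funext k
  simp [cst]

lemma cst_Ebr (i : Bool) (b : Fin (j + 1) → PowerSeries V) :
    cst ((Ebr ε i).mulVec b) = (Ebar ε).mulVec (cst b) := by
  funext l
  simp only [cst, Matrix.mulVec, dotProduct, map_sum, map_mul, Ebr, Ebar, Matrix.map_apply,
    constantCoeff_br]

/-- `θ₂` -/
noncomputable def theta2 (O : Type) [CommRing O] [IsDomain O] [UniqueFactorizationMonoid O]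
    [Algebra O V] [Setup O V] (j : ℕ) (β : Fin (j + 1) → V) : V :=
  ∑ k, β k * lam O V j k

lemma theta2_add (β γ : Fin (j + 1) → V) :
    theta2 O j (β + γ) = theta2 O j β + theta2 O j γ := by
  simp only [theta2, Pi.add_apply, add_mul, Finset.sum_add_distrib]

lemma theta2_sub (β γ : Fin (j + 1) → V) :
    theta2 O j (β - γ) = theta2 O j β - theta2 O j γ := by
  simp only [theta2, Pi.sub_apply, sub_mul, Finset.sum_sub_distrib]

lemma theta2_smul (c : V) (β : Fin (j + 1) → V) :
    theta2 O j (c • β) = c * theta2 O j β := by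
  simp only [theta2, Pi.smul_apply, smul_eq_mul, mul_assoc, Finset.mul_sum]

variable (O V) in
/-- the vector `f₀` -/
lemma exists_f0' (hj : 1 ≤ j) : ∃ f ∈ NN O V j true, IsUnit (theta2 O j (cst f)) := by
  obtain ⟨f, hf, h0, hk⟩ := exists_f0 (O := O) (V := V) j
  refine ⟨f, hf, ?_⟩
  by_contra hu
  have h1 : xx V ∣ theta2 O j (cst f) := xx_dvd_iff_not_isUnit.mpr hu
  rw [theta2, Fin.sum_univ_succ] at h1
  have h2 : xx V ∣ ∑ k : Fin j, cst f k.succ * lam O V j k.succ :=
    Finset.dvd_sum fun k _ => (hk k).mul_right _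
  have h3 := (dvd_add_left h2).mp h1
  have h4 : cst f 0 = 1 := h0
  rw [h4, one_mul] at h3
  have h5 := dvd_add h3 (lam_zero (O := O) (V := V) j hj)
  rw [add_sub_cancel] at h5
  exact (xx_prime V).not_isUnit (isUnit_of_dvd_one h5)

/-- Step A -/
lemma exists_P (hj : 1 ≤ j) (hε : ∀ a, ε (ε a) = ε a) :
    ∃ P : Matrix (Fin (j + 1)) (Fin (j + 1)) V, Ebar ε = xx V ^ j • P ∧ P * P = P := by
  obtain ⟨f, hf, hfu⟩ := exists_f0' O V hj
  obtain ⟨u, hu⟩ := hfu.exists_right_inv
  have h1 : ∀ β : Fin (j + 1) → V, ∃ γ, (Ebar ε).mulVec β = xx V ^ j • γ := by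
    intro β
    have h2 : xx V ^ j ∣ ∑ k, (β - (theta2 O j β * u) • cst f) k * lam O V j k := by
      show xx V ^ j ∣ theta2 O j (β - (theta2 O j β * u) • cst f)
      have h3 : theta2 O j (β - (theta2 O j β * u) • cst f) = 0 := by
        rw [theta2_sub, theta2_smul]
        linear_combination (-theta2 O j β) * hu
      rw [h3]; exact dvd_zero _
    obtain ⟨b, hb, hbc⟩ := exists_mem_NN_false h2
    obtain ⟨b', -, hb'⟩ := exists_eps_N ε hj false hb
    obtain ⟨f', -, hf'⟩ := exists_eps_N ε hj true hf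
    have h4 : β = cst b + (theta2 O j β * u) • cst f := by
      have : cst b = β - (theta2 O j β * u) • cst f := funext hbc
      rw [this]; abel
    refine ⟨cst b' + (theta2 O j β * u) • cst f', ?_⟩
    have h5 : (Ebar ε).mulVec β = (Ebar ε).mulVec (cst b) +
        (theta2 O j β * u) • (Ebar ε).mulVec (cst f) := by
      conv_lhs => rw [h4]
      rw [Matrix.mulVec_add, Matrix.mulVec_smul]
    rw [h5, ← cst_Ebr ε false, ← cst_Ebr ε true, hb', hf', cst_smul, cst_smul, map_pow,
      constantCoeff_xC, smul_add, smul_comm (xx V ^ j)]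
  have h2 : ∀ l k, xx V ^ j ∣ Ebar ε l k := by
    intro l k
    obtain ⟨γ, hγ⟩ := h1 (Pi.single k 1)
    have h3 := congrFun hγ l
    rw [Matrix.mulVec_single_one] at h3
    exact ⟨γ l, h3⟩
  choose P hP using h2
  have hE : Ebar ε = xx V ^ j • Matrix.of P := by
    ext l k; exact hP l k
  refine ⟨Matrix.of P, hE, ?_⟩
  have h4 : Ebar ε * Ebar ε = xx V ^ j • Ebar ε := by
    have h := congrArg (fun M => M.map (PowerSeries.constantCoeff (R := V))) (Ebr_mul_self ε hε true)
    rw [Matrix.map_mul] at h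
    have h5 : (Ebr ε true).map (PowerSeries.constantCoeff (R := V)) = Ebar ε := by
      ext l k
      simp only [Ebr, Ebar, Matrix.map_apply, constantCoeff_br]
    rw [h5] at h
    rw [h]
    ext l k
    simp only [Ebr, Ebar, Matrix.map_apply, Matrix.smul_apply, smul_eq_mul, map_mul, map_pow,
      constantCoeff_xC, constantCoeff_br]
  rw [hE] at h4
  ext l k
  have h5 := congrFun (congrFun h4 l) k
  rw [Matrix.smul_mul, Matrix.mul_smul] at h5
  simp only [Matrix.smul_apply, smul_eq_mul] at h5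
  have hne := pow_ne_zero j (VSetup.hne (V := V))
  exact mul_left_cancel₀ hne (mul_left_cancel₀ hne h5)

lemma cst_eq_P {P : Matrix (Fin (j + 1)) (Fin (j + 1)) V} (hP : Ebar ε = xx V ^ j • P) (i : Bool)
    {b b' : Fin (j + 1) → PowerSeries V} (h : (Ebr ε i).mulVec b = xC V ^ j • b') :
    cst b' = P.mulVec (cst b) := by
  have h1 := congrArg cst h
  rw [cst_Ebr, hP, cst_smul, map_pow, constantCoeff_xC, Matrix.smul_mulVec] at h1
  funext l
  have h2 := congrFun h1 l
  exact (mul_left_cancel₀ (pow_ne_zero j (VSetup.hne (V := V))) h2).symm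

/-- `P` preserves `Λ₂` -/
lemma theta2_P (hj : 1 ≤ j) {P : Matrix (Fin (j + 1)) (Fin (j + 1)) V}
    (hP : Ebar ε = xx V ^ j • P) {β : Fin (j + 1) → V} (hβ : xx V ^ j ∣ theta2 O j β) :
    xx V ^ j ∣ theta2 O j (P.mulVec β) := by
  obtain ⟨b, hb, hbc⟩ := exists_mem_NN_false hβ
  obtain ⟨b', hb'N, hb'⟩ := exists_eps_N ε hj false hb
  have h1 := cst_eq_P ε hP false hb'
  have h2 : cst b = β := funext hbc
  rw [h2] at h1
  rw [← h1]
  exact dvd_of_mem_NN_false hb'N

lemma Ebar_sub : Ebar (LinearMap.id - ε) = xx V ^ j • 1 - Ebar ε := by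
  ext l k
  show c0 (inc O V ((hh O V j k - ε (hh O V j k) : MM O V j).1 l)) = _
  have h1 : (hh O V j k - ε (hh O V j k) : MM O V j).1 l =
      (Pi.single k (xA O V ^ j) : Fin (j + 1) → AR O V) l - (ε (hh O V j k)).1 l := rfl
  rw [h1, map_sub, map_sub, Matrix.sub_apply]
  congr 1
  rw [Matrix.smul_apply, Matrix.one_apply, smul_eq_mul]
  by_cases h : l = k
  · subst h
    rw [Pi.single_eq_same, if_pos rfl, map_pow, inc_xA, map_pow, mul_one, xT, c0_dg,
      PowerSeries.constantCoeff_C]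
  · rw [Pi.single_eq_of_ne h, if_neg h, map_zero, map_zero, mul_zero]

/-- Step B: the dichotomy -/
lemma dichotomy (hj : 1 ≤ j) (hε : ∀ a, ε (ε a) = ε a) :
    (∀ β, xx V ^ (2 * j) ∣ theta2 O j ((Ebar ε).mulVec β)) ∨
    (∀ β, xx V ^ (2 * j) ∣ theta2 O j ((Ebar (LinearMap.id - ε)).mulVec β)) := by
  obtain ⟨P, hP, hPP⟩ := exists_P ε hj hε
  obtain ⟨f, hf, hfu⟩ := exists_f0' O V hj
  obtain ⟨u, hu⟩ := hfu.exists_right_inv
  set υ := theta2 O j (cst f) with hυ
  set c := theta2 O j (P.mulVec (cst f)) * u with hc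
  have h1 : ∀ β, xx V ^ j ∣ theta2 O j (P.mulVec β) - c * theta2 O j β := by
    intro β
    have h2 : xx V ^ j ∣ theta2 O j (β - (theta2 O j β * u) • cst f) := by
      have h3 : theta2 O j (β - (theta2 O j β * u) • cst f) = 0 := by
        rw [theta2_sub, theta2_smul]
        linear_combination (-theta2 O j β) * hu
      rw [h3]; exact dvd_zero _
    have h4 := theta2_P ε hj hP h2
    rw [Matrix.mulVec_sub, Matrix.mulVec_smul, theta2_sub, theta2_smul] at h4
    convert h4 using 1
    rw [hc]; ring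
  have h2 : xx V ^ j ∣ c * (c - 1) := by
    have h3 := h1 (P.mulVec (cst f))
    rw [Matrix.mulVec_mulVec, hPP] at h3
    have h4 : c * υ = theta2 O j (P.mulVec (cst f)) := by
      rw [hc]; linear_combination (theta2 O j (P.mulVec (cst f))) * hu
    rw [← h4] at h3
    have h5 : c * (c - 1) = - ((c * υ - c * (c * υ)) * u) := by
      linear_combination (c - c ^ 2) * hu
    rw [h5, dvd_neg]
    exact h3.mul_right _
  by_cases hcu : IsUnit c
  · right
    have h3 : xx V ^ j ∣ c - 1 := (hcu.dvd_mul_left).mp h2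
    intro β
    rw [Ebar_sub, hP, Matrix.sub_mulVec, Matrix.smul_mulVec, Matrix.smul_mulVec, Matrix.one_mulVec,
      theta2_sub, theta2_smul, theta2_smul, ← mul_sub, two_mul, pow_add]
    refine mul_dvd_mul_left _ ?_
    have h4 : theta2 O j β - theta2 O j (P.mulVec β) =
        - (theta2 O j (P.mulVec β) - c * theta2 O j β) - (c - 1) * theta2 O j β := by ring
    rw [h4]
    exact dvd_sub ((dvd_neg).mpr (h1 β)) (h3.mul_right _)
  · left
    have h3 : IsUnit (c - 1) := by
      by_contra h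
      have h4 := xx_dvd_iff_not_isUnit.mpr h
      have h5 := xx_dvd_iff_not_isUnit.mpr hcu
      have h6 := dvd_sub h5 h4
      rw [sub_sub_cancel] at h6
      exact (xx_prime V).not_isUnit (isUnit_of_dvd_one h6)
    have h4 : xx V ^ j ∣ c := (h3.dvd_mul_right).mp h2
    intro β
    rw [hP, Matrix.smul_mulVec, theta2_smul, two_mul, pow_add]
    refine mul_dvd_mul_left _ ?_
    have h5 : theta2 O j (P.mulVec β) =
        (theta2 O j (P.mulVec β) - c * theta2 O j β) + c * theta2 O j β := by ring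
    rw [h5]
    exact dvd_add (h1 β) (h4.mul_right _)

end endo

end Pool.Agent.Helper12.BCM
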