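import Mathlib
import Pool.Agent.Helper12.BCM.MMod

set_option autoImplicit false

namespace Pool.Agent.Helper12.BCM

open Polynomial

section det

variable {R : Type*} [CommRing R] {r n : ℕ}

/-- the determinant of the images under `Pm` -/
noncomputable def DD (Pm : Matrix (Fin r) (Fin n) R) (a : Fin r → (Fin n → R)) : R :=
  (Matrix.of fun m => Pm.mulVec (a m)).det

/-- the same as a multilinear map -/
noncomputable def DDm (Pm : Matrix (Fin r) (Fin n) R) :
    MultilinearMap R (fun _ : Fin r => Fin n → R) R :=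
  ((Matrix.detRowAlternating (R := R) (n := Fin r)).compLinearMap Pm.mulVecLin).toMultilinearMap

lemma DDm_apply (Pm : Matrix (Fin r) (Fin n) R) (a : Fin r → (Fin n → R)) : DDm Pm a = DD Pm a := rfl

lemma DD_smul (Pm : Matrix (Fin r) (Fin n) R) (z : R) (a : Fin r → (Fin n → R)) :
    DD Pm (fun m => z • a m) = z ^ r * DD Pm a := by
  rw [← DDm_apply, ← DDm_apply]
  have := (DDm Pm).map_smul_univ (fun _ => z) a
  rw [this, Finset.prod_const, Finset.card_univ, Fintype.card_fin, smul_eq_mul]

lemma dvd_DD {S : Type} [Fintype S] (Pm : Matrix (Fin r) (Fin n) R) (p : R)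
    (v : S → (Fin n → R)) (d : Fin r → S → R)
    (h : ∀ f : Fin r → S, p ∣ DD Pm (fun m => v (f m))) :
    p ∣ DD Pm (fun m => ∑ s, d m s • v s) := by
  classical
  rw [← DDm_apply, (DDm Pm).map_sum]
  refine Finset.dvd_sum fun f _ => ?_
  have h1 : (DDm Pm) (fun i => d i (f i) • v (f i)) = (∏ i, d i (f i)) • (DDm Pm) (fun i => v (f i)) :=
    (DDm Pm).map_smul_univ (fun i => d i (f i)) (fun i => v (f i))
  rw [h1, DDm_apply, smul_eq_mul]
  exact (h f).mul_left _

end det

/-- splitting an idempotent matrix over a principal ideal domain -/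
lemma exists_split {V : Type} [CommRing V] [IsDomain V] [IsPrincipalIdealRing V] {n : ℕ}
    (P : Matrix (Fin n) (Fin n) V) (hP : P * P = P) :
    ∃ (r : ℕ) (Pm : Matrix (Fin r) (Fin n) V) (W : Matrix (Fin n) (Fin r) V),
      Pm * W = 1 ∧ W * Pm = P := by
  classical
  let f : (Fin n → V) →ₗ[V] (Fin n → V) := Matrix.toLin' P
  have hf : ∀ v, f (f v) = f v := by
    intro v
    show Matrix.toLin' P (Matrix.toLin' P v) = Matrix.toLin' P v
    rw [Matrix.toLin'_apply, Matrix.toLin'_apply, Matrix.mulVec_mulVec, hP]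
  let b := Module.finBasis V (LinearMap.range f)
  let g : (Fin n → V) →ₗ[V] (Fin (Module.finrank V (LinearMap.range f)) → V) :=
    b.equivFun.toLinearMap ∘ₗ f.rangeRestrict
  let h : (Fin (Module.finrank V (LinearMap.range f)) → V) →ₗ[V] (Fin n → V) :=
    (LinearMap.range f).subtype ∘ₗ b.equivFun.symm.toLinearMap
  refine ⟨_, LinearMap.toMatrix' g, LinearMap.toMatrix' h, ?_, ?_⟩
  · rw [← LinearMap.toMatrix'_comp, ← LinearMap.toMatrix'_id]
    congr 1
    refine LinearMap.ext fun v => ?_
    show b.equivFun (f.rangeRestrict ((b.equivFun.symm v : LinearMap.range f) : Fin n → V)) = v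
    have h1 : f.rangeRestrict ((b.equivFun.symm v : LinearMap.range f) : Fin n → V) =
        b.equivFun.symm v := by
      apply Subtype.ext
      obtain ⟨w, hw⟩ := (b.equivFun.symm v).2
      show f _ = _
      rw [← hw, hf]
    rw [h1, LinearEquiv.apply_symm_apply]
  · rw [← LinearMap.toMatrix'_comp]
    have : h ∘ₗ g = f := by
      refine LinearMap.ext fun v => ?_
      show ((b.equivFun.symm (b.equivFun (f.rangeRestrict v)) : LinearMap.range f) : Fin n → V) = _
      rw [LinearEquiv.symm_apply_apply]; rfl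
    rw [this]
    exact LinearMap.toMatrix'_toLin' P

variable {O V : Type} [CommRing O] [IsDomain O] [UniqueFactorizationMonoid O]
    [CommRing V] [IsDomain V] [IsPrincipalIdealRing V] [IsLocalRing V] [VSetup V]
    [Algebra O V] [Setup O V]

/-- splitting with the projection defined over `O` -/
lemma exists_split_O {n : ℕ} (P : Matrix (Fin n) (Fin n) V) (hP : P * P = P) :
    ∃ (r : ℕ) (Pm : Matrix (Fin r) (Fin n) O) (W : Matrix (Fin n) (Fin r) V)
      (S : Matrix (Fin r) (Fin n) V),
      Pm.map (algebraMap O V) * W = 1 ∧ W * S = P ∧ P * W = W := by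
  obtain ⟨r, Pm, W, h1, h2⟩ := exists_split P hP
  choose Q hQ using fun (l : Fin r) (k : Fin n) => Setup.happrox (O := O) (Pm l k)
  let Pm' : Matrix (Fin r) (Fin n) O := Matrix.of Q
  set G := Pm'.map (algebraMap O V) * W with hG
  have hres : G.map (IsLocalRing.residue V) = 1 := by
    rw [hG, Matrix.map_mul]
    have h3 : (Pm'.map (algebraMap O V)).map (IsLocalRing.residue V) =
        Pm.map (IsLocalRing.residue V) := by
      ext l k
      show IsLocalRing.residue V (algebraMap O V (Q l k)) = IsLocalRing.residue V (Pm l k)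
      rw [eq_comm, ← sub_eq_zero, ← map_sub, residue_eq_zero_iff']
      exact hQ l k
    rw [h3, ← Matrix.map_mul, h1]
    ext l k
    simp [Matrix.one_apply, apply_ite]
  have hdet : IsUnit G.det := by
    have h3 : IsLocalRing.residue V G.det = 1 := by
      have h4 := RingHom.map_det (IsLocalRing.residue V) G
      rw [h4]
      have h5 : (IsLocalRing.residue V).mapMatrix G = 1 := hres
      rw [h5, Matrix.det_one]
    by_contra hu
    have h4 : IsLocalRing.residue V G.det = 0 := residue_eq_zero_iff'.mpr (xx_dvd_iff_not_isUnit.mpr hu)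
    rw [h3] at h4
    exact one_ne_zero h4
  have hGG : G * G⁻¹ = 1 := Matrix.mul_nonsing_inv G hdet
  have hGG' : G⁻¹ * G = 1 := Matrix.nonsing_inv_mul G hdet
  refine ⟨r, Pm', W * G⁻¹, G * Pm, ?_, ?_, ?_⟩
  · rw [← Matrix.mul_assoc, ← hG, hGG]
  · rw [Matrix.mul_assoc, ← Matrix.mul_assoc G⁻¹, hGG', Matrix.one_mul, h2]
  · rw [← Matrix.mul_assoc, ← h2, Matrix.mul_assoc W Pm W, h1, Matrix.mul_one]

section

variable {r n : ℕ} (Q : Matrix (Fin r) (Fin n) O)

variable (V) in
/-- `Pm` over `A` -/
noncomputable def PiA : Matrix (Fin r) (Fin n) (AR O V) := Q.map fun o => psiA O V (C (C o))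

variable (V) in
/-- `Pm` over `C` -/
noncomputable def PiC : Matrix (Fin r) (Fin n) (PowerSeries V) :=
  Q.map fun o => PowerSeries.C (algebraMap O V o)

lemma brv_PiA (i : Bool) (a : Fin n → AR O V) :
    brv i ((PiA V Q).mulVec a) = (PiC V Q).mulVec (brv i a) := by
  funext l
  simp only [brv, Matrix.mulVec, dotProduct, map_sum, map_mul, PiA, PiC, Matrix.map_apply]
  refine Finset.sum_congr rfl fun k _ => ?_
  rw [br_apply, inc_psiA, psi_C_C, pr_dg]

lemma cst_PiC (b : Fin n → PowerSeries V) :
    cst ((PiC V Q).mulVec b) = (Q.map (algebraMap O V)).mulVec (cst b) := by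
  funext l
  simp only [cst, Matrix.mulVec, dotProduct, map_sum, map_mul, PiC, Matrix.map_apply,
    PowerSeries.constantCoeff_C]

lemma br_DD (i : Bool) (a : Fin r → (Fin n → AR O V)) :
    br O V i (DD (PiA V Q) a) = DD (PiC V Q) (fun m => brv i (a m)) := by
  rw [DD, DD, RingHom.map_det]
  congr 1
  refine Matrix.ext fun l k => ?_
  exact congrFun (brv_PiA Q i (a l)) k

lemma constantCoeff_DD (b : Fin r → (Fin n → PowerSeries V)) :
    PowerSeries.constantCoeff (DD (PiC V Q) b) = DD (Q.map (algebraMap O V)) (fun m => cst (b m)) := by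
  rw [DD, DD, RingHom.map_det]
  congr 1
  refine Matrix.ext fun l k => ?_
  exact congrFun (cst_PiC Q (b l)) k

end

lemma isUnit_of_dvd_pows {f : PowerSeries V} {N i} (h1 : f ∣ xC V ^ N)
    (h2 : f ∣ br O V i (yyA O V) ^ N) : IsUnit f := by
  obtain ⟨k, -, hk⟩ := (dvd_prime_pow (xC_prime V) N).mp h1
  rcases Nat.eq_zero_or_pos k with rfl | hk0
  · rw [pow_zero] at hk
    exact hk.symm.isUnit isUnit_one
  · exfalso
    have h3 : xC V ∣ br O V i (yyA O V) ^ N :=
      ((dvd_pow_self _ (by omega)).trans hk.symm.dvd).trans h2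
    have h4 := (xC_prime V).dvd_of_dvd_pow h3
    rw [br_yA] at h4
    exact not_xC_dvd_yA i h4

lemma isUnit_of_isUnit_br {g : AR O V} {i : Bool} (h : IsUnit (br O V i g)) : IsUnit g := by
  rw [← isUnit_map_iff (inc O V), isUnit_iff, c0_eq _ i]
  exact h.map _

/-- injectivity of `Pm` on the vectors fixed by `ε` -/
lemma eq_zero_of_Pi {j r : ℕ} (ε : MM O V j →ₗ[AR O V] MM O V j) (i : Bool)
    {P : Matrix (Fin (j + 1)) (Fin (j + 1)) V} (hP : Ebar ε = xx V ^ j • P)
    (Q : Matrix (Fin r) (Fin (j + 1)) O) (W : Matrix (Fin (j + 1)) (Fin r) V)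
    (S : Matrix (Fin r) (Fin (j + 1)) V) (hQW : Q.map (algebraMap O V) * W = 1) (hWS : W * S = P)
    {n : Fin (j + 1) → PowerSeries V} (h1 : (Ebr ε i).mulVec n = xC V ^ j • n)
    (h2 : (PiC V Q).mulVec n = 0) : n = 0 := by
  have key : ∀ (N : ℕ) (n : Fin (j + 1) → PowerSeries V), (Ebr ε i).mulVec n = xC V ^ j • n →
      (PiC V Q).mulVec n = 0 → ∃ n', n = (PowerSeries.X : PowerSeries V) ^ N • n' := by
    intro N
    induction N with
    | zero => intro n _ _; exact ⟨n, by rw [pow_zero, one_smul]⟩
    | succ N ih =>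
      intro n h1 h2
      have h3 : cst n = P.mulVec (cst n) := cst_eq_P ε hP i h1
      have h4 : (Q.map (algebraMap O V)).mulVec (cst n) = 0 := by
        rw [← cst_PiC, h2]; funext k; simp [cst]
      have h5 : cst n = 0 := by
        have h6 : S.mulVec (cst n) = 0 := by
          calc S.mulVec (cst n) = (Q.map (algebraMap O V) * W * S).mulVec (cst n) := by
                rw [hQW, Matrix.one_mul]
            _ = (Q.map (algebraMap O V)).mulVec (P.mulVec (cst n)) := by
                rw [Matrix.mul_assoc, hWS, Matrix.mulVec_mulVec]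
            _ = 0 := by rw [← h3, h4]
        rw [h3, ← hWS, ← Matrix.mulVec_mulVec, h6, Matrix.mulVec_zero]
      have h6 : ∀ k, PowerSeries.X ∣ n k := fun k => PowerSeries.X_dvd_iff.mpr (congrFun h5 k)
      choose n' hn' using h6
      have h7 : n = (PowerSeries.X : PowerSeries V) • n' := funext hn'
      have hcancel : ∀ {m : ℕ} {v w : Fin m → PowerSeries V},
          (PowerSeries.X : PowerSeries V) • v = (PowerSeries.X : PowerSeries V) • w → v = w := by
        intro m v w hvw
        funext k
        exact mul_left_cancel₀ PowerSeries.X_ne_zero (congrFun hvw k)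
      obtain ⟨n'', hn''⟩ := ih n' (by
          apply hcancel
          rw [← Matrix.mulVec_smul, ← h7, h1, h7, smul_comm])
        (by
          apply hcancel
          rw [← Matrix.mulVec_smul, ← h7, h2, smul_zero])
      exact ⟨n'', by rw [h7, hn'', smul_smul, ← pow_succ']⟩
  funext k
  ext N
  obtain ⟨n', hn'⟩ := key (N + 1) n h1 h2
  have h3 : PowerSeries.X ^ (N + 1) ∣ n k := ⟨n' k, congrFun hn' k⟩
  rw [PowerSeries.X_pow_dvd_iff] at h3
  exact h3 N (by omega)

/-- Step E: an idempotent with vanishing constant matrix is zero -/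
lemma eq_zero_of_Ebar {j : ℕ} (ε : MM O V j →ₗ[AR O V] MM O V j) (hε : ∀ a, ε (ε a) = ε a)
    (h : Ebar ε = 0) : ε = 0 := by
  have key : ∀ N : ℕ, ∀ l k, (PowerSeries.X : PowerSeries V) ^ (N + 1) ∣ Ebr ε true l k := by
    intro N
    induction N with
    | zero =>
      intro l k
      rw [zero_add, pow_one, PowerSeries.X_dvd_iff]
      have := congrFun (congrFun h l) k
      simp only [Ebar, Matrix.map_apply, Matrix.zero_apply] at this
      rw [Ebr, Matrix.map_apply, constantCoeff_br]; exact this
    | succ N ih =>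
      choose F hF using ih
      have h1 : Ebr ε true = (PowerSeries.X : PowerSeries V) ^ (N + 1) • Matrix.of F :=
        Matrix.ext fun l k => hF l k
      have h2 := Ebr_mul_self ε hε true
      rw [h1, Matrix.smul_mul, Matrix.mul_smul] at h2
      intro l k
      have h3 := congrFun (congrFun h2 l) k
      simp only [Matrix.smul_apply, smul_eq_mul, Matrix.of_apply] at h3
      have h4 : (PowerSeries.X : PowerSeries V) ^ (N + 1) * (Matrix.of F * Matrix.of F) l k =
          xC V ^ j * F l k := by
        have hne : (PowerSeries.X : PowerSeries V) ^ (N + 1) ≠ 0 := pow_ne_zero _ PowerSeries.X_ne_zero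
        apply mul_left_cancel₀ hne
        rw [h3]; ring
      have h5 : PowerSeries.X ∣ PowerSeries.C (xx V ^ j) * F l k := by
        rw [map_pow, ← h4]
        exact (dvd_pow_self _ (by omega)).mul_right _
      have h6 := X_dvd_of_X_dvd_C_mul (pow_ne_zero j (VSetup.hne (V := V))) h5
      rw [hF, pow_succ]
      exact mul_dvd_mul_left _ h6
  have hE : ∀ l k, Emat ε l k = 0 := by
    intro l k
    apply br_eq_zero (i := true)
    ext N
    have := key N l k
    rw [PowerSeries.X_pow_dvd_iff] at this
    exact this N (by omega)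
  ext a l
  have h1 := congrFun (Emat_mulVec ε a) l
  have h2 : (Emat ε).mulVec a.1 l = 0 := by
    simp only [Matrix.mulVec, dotProduct, hE, zero_mul, Finset.sum_const_zero]
  rw [h2] at h1
  have h3 : xA O V ^ j * (ε a).1 l = 0 := h1.symm
  exact (mul_eq_zero.mp h3).resolve_left (pow_ne_zero _ (xA_prime O V).ne_zero)

/-- the main step -/
lemma main_zero {j : ℕ} (hj : 1 ≤ j) (ε : MM O V j →ₗ[AR O V] MM O V j)
    (hε : ∀ a, ε (ε a) = ε a)
    (hθ : ∀ β, xx V ^ (2 * j) ∣ theta2 O j ((Ebar ε).mulVec β)) : ε = 0 := by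
  obtain ⟨P, hP, hPP⟩ := exists_P ε hj hε
  have hθP : ∀ β, xx V ^ j ∣ theta2 O j (P.mulVec β) := by
    intro β
    have h1 := hθ β
    rw [hP, Matrix.smul_mulVec, theta2_smul, two_mul, pow_add] at h1
    exact (mul_dvd_mul_iff_left (pow_ne_zero j (VSetup.hne (V := V)))).mp h1
  obtain ⟨r, Q, W, S, hQW, hWS, hPW⟩ := exists_split_O (O := O) P hPP
  -- lifts to the second branch
  have hlift : ∀ m : Fin r, ∃ b ∈ NN O V j false, (Ebr ε false).mulVec b = xC V ^ j • b ∧
      cst b = fun k => W k m := by
    intro m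
    have hcol : P.mulVec (fun k => W k m) = fun k => W k m := by
      funext l
      exact congrFun (congrFun hPW l) m
    obtain ⟨b, hb, hbc⟩ := exists_mem_NN_false (O := O) (j := j) (β := fun k => W k m) (by
      have := hθP (fun k => W k m)
      rw [hcol] at this; exact this)
    obtain ⟨b', hb'N, hb'⟩ := exists_eps_N ε hj false hb
    have h1 : cst b = fun k => W k m := funext hbc
    have h2 := cst_eq_P ε hP false hb'
    refine ⟨b', hb'N, ?_, by rw [h2, h1, hcol]⟩
    have h3 : (Ebr ε false).mulVec ((Ebr ε false).mulVec b) =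
        xC V ^ j • (Ebr ε false).mulVec b := by
      rw [Matrix.mulVec_mulVec, Ebr_mul_self ε hε, Matrix.smul_mulVec]
    rw [hb', Matrix.mulVec_smul] at h3
    funext l
    exact mul_left_cancel₀ (pow_ne_zero _ (xC_ne V)) (congrFun h3 l)
  choose b hbN hbE hbc using hlift
  have hDunit : IsUnit (DD (PiC V Q) b) := by
    rw [PowerSeries.isUnit_iff_constantCoeff, constantCoeff_DD]
    have h1 : DD (Q.map (algebraMap O V)) (fun m => cst (b m)) = 1 := by
      rw [DD]
      have h2 : (Matrix.of fun m => (Q.map (algebraMap O V)).mulVec (cst (b m))) =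
          (Q.map (algebraMap O V) * W).transpose := by
        refine Matrix.ext fun m l => ?_
        rw [Matrix.of_apply, hbc]
        rfl
      rw [h2, hQW, Matrix.transpose_one, Matrix.det_one]
    rw [h1]; exact isUnit_one
  -- the ideal
  let 𝔞 : Ideal (AR O V) := Ideal.span {d | ∃ a : Fin r → MM O V j, (∀ m, ε (a m) = a m) ∧
    d = DD (PiA V Q) (fun m => (a m).1)}
  have hprime : ∀ 𝔓 : Ideal (AR O V), 𝔓.IsPrime → 𝔞 ≤ 𝔓 →
      𝔓 = IsLocalRing.maximalIdeal (AR O V) := by
    intro 𝔓 h𝔓 hle
    rcases prime_cases 𝔓 with h | ⟨g, hg⟩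
    · exact h
    · exfalso
      -- `g` divides all determinants
      have hdvd : ∀ (z : PowerSeries V), (∀ m, ∃ d : Fin (j + 1) ⊕ Fin (j + 1) → PowerSeries V,
          z • b m = ∑ s, d s • brv false (fam O V j hj s).1) → br O V false g ∣ z ^ r := by
        intro z hz
        choose d hd using hz
        have h1 : ∀ m, z • b m = ∑ s, d m s • brv false (ε (fam O V j hj s)).1 := by
          intro m
          have h2 := congrArg (Ebr ε false).mulVec (hd m)
          rw [Matrix.mulVec_smul, hbE, Matrix.mulVec_sum] at h2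
          have h3 : ∀ s, (Ebr ε false).mulVec (d m s • brv false (fam O V j hj s).1) =
              xC V ^ j • (d m s • brv false (ε (fam O V j hj s)).1) := by
            intro s
            rw [Matrix.mulVec_smul, Ebr_mulVec_brv, smul_comm]
          simp only [h3] at h2
          rw [← Finset.smul_sum, smul_comm] at h2
          funext l
          exact mul_left_cancel₀ (pow_ne_zero _ (xC_ne V)) (congrFun h2 l)
        have h2 : br O V false g ∣ DD (PiC V Q) (fun m => z • b m) := by
          have h3 : (fun m => z • b m) =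
              fun m => ∑ s, d m s • brv false (ε (fam O V j hj s)).1 := funext h1
          rw [h3]
          refine dvd_DD (PiC V Q) _ (fun s => brv false (ε (fam O V j hj s)).1) d (fun f => ?_)
          rw [← br_DD]
          apply _root_.map_dvd
          rw [← Ideal.mem_span_singleton, ← hg]
          apply hle
          exact Ideal.subset_span ⟨fun m => ε (fam O V j hj (f m)), fun m => hε _, rfl⟩
        rw [DD_smul] at h2
        exact (hDunit.dvd_mul_right).mp h2
      have hx := hdvd (xC V ^ j) (fun m => expand_fam_x hj false (b m))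
      have hy := hdvd (br O V false (yyA O V) ^ j) (fun m => expand_fam_y hj false (hbN m))
      rw [← pow_mul] at hx hy
      have hu := isUnit_of_isUnit_br (isUnit_of_dvd_pows hx hy)
      apply h𝔓.ne_top
      rw [hg, Ideal.span_singleton_eq_top]
      exact hu
  -- powers of `x` and `y` lie in the ideal
  have hxr : xA O V ∈ 𝔞.radical := by
    rw [Ideal.radical_eq_sInf, Ideal.mem_sInf]
    rintro Q' ⟨h1, h2⟩
    rw [hprime Q' h2 h1]; exact xA_mem_max
  have hyr : yyA O V ∈ 𝔞.radical := by
    rw [Ideal.radical_eq_sInf, Ideal.mem_sInf]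
    rintro Q' ⟨h1, h2⟩
    rw [hprime Q' h2 h1]; exact yA_mem_max
  obtain ⟨Lx, hLx⟩ := hxr
  obtain ⟨Ly, hLy⟩ := hyr
  -- Cramer's rule
  have hcramer : ∀ d ∈ 𝔞, ∀ l : Fin r, ∃ n : MM O V j, ε n = n ∧
      (PiA V Q).mulVec n.1 = Pi.single l d := by
    intro d hd l
    induction hd using Submodule.span_induction with
    | mem d hd =>
      obtain ⟨a, ha, rfl⟩ := hd
      let G : Matrix (Fin r) (Fin r) (AR O V) := Matrix.of fun m => (PiA V Q).mulVec (a m).1
      let c : Fin r → AR O V := fun m => G.transpose.adjugate m l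
      refine ⟨∑ m, c m • a m, ?_, ?_⟩
      · rw [map_sum]
        exact Finset.sum_congr rfl fun m _ => by rw [map_smul, ha]
      · have h1 : (PiA V Q).mulVec (∑ m, c m • a m : MM O V j).1 =
            ∑ m, c m • (PiA V Q).mulVec (a m).1 := by
          rw [Submodule.coe_sum, Matrix.mulVec_sum]
          exact Finset.sum_congr rfl fun m _ => by
            rw [← Matrix.mulVec_smul]; rfl
        rw [h1]
        funext k
        rw [Finset.sum_apply]
        have h2 : (G.transpose * G.transpose.adjugate) k l = (G.transpose.det • (1 : Matrix (Fin r) (Fin r) (AR O V))) k l := by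
          rw [Matrix.mul_adjugate]
        rw [Matrix.mul_apply, Matrix.det_transpose, Matrix.smul_apply, Matrix.one_apply] at h2
        have h3 : ∑ m, (c m • (PiA V Q).mulVec (a m).1) k =
            ∑ m, G.transpose k m * G.transpose.adjugate m l := by
          refine Finset.sum_congr rfl fun m _ => ?_
          show c m * (PiA V Q).mulVec (a m).1 k = (PiA V Q).mulVec (a m).1 k * c m
          ring
        rw [h3, h2, Pi.single_apply, smul_eq_mul]
        show (DD (PiA V Q) fun m => (a m).1) * _ = _
        split_ifs <;> simp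
    | zero => exact ⟨0, map_zero _, by
        rw [Pi.single_zero]; exact Matrix.mulVec_zero _⟩
    | add d d' _ _ h h' =>
      obtain ⟨n, hn, hn2⟩ := h
      obtain ⟨n', hn', hn2'⟩ := h'
      refine ⟨n + n', by rw [map_add, hn, hn'], ?_⟩
      rw [Pi.single_add, ← hn2, ← hn2', ← Matrix.mulVec_add]; rfl
    | smul z d _ h =>
      obtain ⟨n, hn, hn2⟩ := h
      refine ⟨z • n, by rw [map_smul, hn], ?_⟩
      have h1 : (Pi.single l (z • d) : Fin r → AR O V) = z • (Pi.single l d : Fin r → AR O V) := by
        funext k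
        rw [Pi.smul_apply]
        by_cases hk : k = l
        · subst hk; rw [Pi.single_eq_same, Pi.single_eq_same]
        · rw [Pi.single_eq_of_ne hk, Pi.single_eq_of_ne hk, smul_zero]
      rw [h1, ← hn2, ← Matrix.mulVec_smul]; rfl
  -- lifts to the first branch
  have hlift2 : ∀ l : Fin r, ∃ b ∈ NN O V j true, (Ebr ε true).mulVec b = xC V ^ j • b ∧
      (PiC V Q).mulVec b = Pi.single l 1 := by
    intro l
    obtain ⟨n, hn, hn2⟩ := hcramer _ hLx l
    obtain ⟨n', hn', hn2'⟩ := hcramer _ hLy l
    have e1 : (PiC V Q).mulVec (brv true n.1) = Pi.single l (xC V ^ Lx) := by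
      rw [← brv_PiA, hn2]
      funext k
      show br O V true ((Pi.single l (xA O V ^ Lx) : Fin r → AR O V) k) = _
      by_cases hk : k = l
      · subst hk; rw [Pi.single_eq_same, Pi.single_eq_same, map_pow, br_xA]
      · rw [Pi.single_eq_of_ne hk, Pi.single_eq_of_ne hk, map_zero]
    have e2 : (PiC V Q).mulVec (brv true n'.1) = Pi.single l (br O V true (yyA O V) ^ Ly) := by
      rw [← brv_PiA, hn2']
      funext k
      show br O V true ((Pi.single l (yyA O V ^ Ly) : Fin r → AR O V) k) = _
      by_cases hk : k = l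
      · subst hk; rw [Pi.single_eq_same, Pi.single_eq_same, map_pow]
      · rw [Pi.single_eq_of_ne hk, Pi.single_eq_of_ne hk, map_zero]
    have f1 : (Ebr ε true).mulVec (brv true n.1) = xC V ^ j • brv true n.1 := by
      rw [Ebr_mulVec_brv, hn]
    have f2 : (Ebr ε true).mulVec (brv true n'.1) = xC V ^ j • brv true n'.1 := by
      rw [Ebr_mulVec_brv, hn']
    set y := br O V true (yyA O V) with hy
    have h1 : y ^ Ly • brv true n.1 - xC V ^ Lx • brv true n'.1 = 0 := by
      refine eq_zero_of_Pi ε true hP Q W S hQW hWS ?_ ?_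
      · rw [Matrix.mulVec_sub, Matrix.mulVec_smul, Matrix.mulVec_smul, f1, f2, smul_sub,
          smul_comm (y ^ Ly), smul_comm (xC V ^ Lx) (xC V ^ j)]
      · rw [Matrix.mulVec_sub, Matrix.mulVec_smul, Matrix.mulVec_smul, e1, e2, sub_eq_zero]
        funext k
        simp only [Pi.smul_apply, smul_eq_mul]
        by_cases hk : k = l
        · subst hk; rw [Pi.single_eq_same, Pi.single_eq_same]; ring
        · rw [Pi.single_eq_of_ne hk, Pi.single_eq_of_ne hk, mul_zero, mul_zero]
    have h2 : ∀ k, xC V ^ Lx ∣ brv true n.1 k := by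
      intro k
      apply xC_pow_dvd_of_y (O := O) (i := true) (L := Ly)
      have h3 := congrFun (sub_eq_zero.mp h1) k
      exact ⟨brv true n'.1 k, h3⟩
    choose b'' hb'' using h2
    have h3 : brv true n.1 = xC V ^ Lx • b'' := funext hb''
    have hcx : ∀ {m : ℕ} {v w : Fin m → PowerSeries V}, xC V ^ Lx • v = xC V ^ Lx • w → v = w := by
      intro m v w hvw
      funext k
      exact mul_left_cancel₀ (pow_ne_zero _ (xC_ne V)) (congrFun hvw k)
    have h4 : y ^ Ly • b'' = brv true n'.1 := by
      apply hcx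
      rw [smul_comm, ← h3]; exact sub_eq_zero.mp h1
    refine ⟨b'', ?_, ?_, ?_⟩
    · have h5 := brv_mem true n'.2
      rw [← h4, mem_NN] at h5
      rw [mem_NN]
      apply xC_pow_dvd_of_y (O := O) (i := true) (L := Ly)
      rw [Finset.mul_sum]
      simpa only [Pi.smul_apply, smul_eq_mul, mul_assoc] using h5
    · apply hcx
      rw [← Matrix.mulVec_smul, ← h3, f1, h3, smul_comm]
    · apply hcx
      rw [← Matrix.mulVec_smul, ← h3, e1, ← Pi.single_smul, smul_eq_mul, mul_one]
  -- the matrix `W` vanishes modulo `x`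
  have hW : ∀ k l, xx V ∣ W k l := by
    intro k l
    obtain ⟨b1, hb1N, hb1E, hb1P⟩ := hlift2 l
    have h1 : cst b1 = P.mulVec (cst b1) := cst_eq_P ε hP true hb1E
    have h2 : (Q.map (algebraMap O V)).mulVec (cst b1) = Pi.single l 1 := by
      rw [← cst_PiC, hb1P]
      funext k
      show PowerSeries.constantCoeff ((Pi.single l 1 : Fin r → PowerSeries V) k) = _
      by_cases hk : k = l
      · subst hk; rw [Pi.single_eq_same, Pi.single_eq_same, map_one]
      · rw [Pi.single_eq_of_ne hk, Pi.single_eq_of_ne hk, map_zero]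
    have h3 : S.mulVec (cst b1) = Pi.single l 1 := by
      calc S.mulVec (cst b1) = (Q.map (algebraMap O V) * W * S).mulVec (cst b1) := by
            rw [hQW, Matrix.one_mul]
        _ = (Q.map (algebraMap O V)).mulVec (P.mulVec (cst b1)) := by
            rw [Matrix.mul_assoc, hWS, Matrix.mulVec_mulVec]
        _ = Pi.single l 1 := by rw [← h1, h2]
    have h4 : cst b1 = fun k => W k l := by
      rw [h1, ← hWS, ← Matrix.mulVec_mulVec, h3, Matrix.mulVec_single_one]; rfl
    have h5 : ∀ k : Fin j, xx V ∣ W k.succ l := by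
      intro k
      have := dvd_of_mem_NN_true hb1N k
      rw [← congrFun h4 k.succ]; exact this
    refine Fin.cases ?_ h5 k
    have h6 : xx V ∣ theta2 O j (fun k => W k l) := by
      have hcol : P.mulVec (fun k => W k l) = fun k => W k l := by
        funext m
        exact congrFun (congrFun hPW m) l
      have := hθP (fun k => W k l)
      rw [hcol] at this
      exact (dvd_pow_self _ (by omega)).trans this
    rw [theta2, Fin.sum_univ_succ] at h6
    have h7 := (dvd_add_left (Finset.dvd_sum fun k _ => (h5 k).mul_right _)).mp h6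
    rcases (xx_prime V).dvd_or_dvd h7 with h8 | h8
    · exact h8
    · exfalso
      have h9 := dvd_add h8 (lam_zero (O := O) (V := V) j hj)
      rw [add_sub_cancel] at h9
      exact (xx_prime V).not_isUnit (isUnit_of_dvd_one h9)
  -- hence `r = 0`
  have hr : IsEmpty (Fin r) := by
    refine ⟨fun l => ?_⟩
    have h1 := congrFun (congrFun hQW l) l
    rw [Matrix.mul_apply, Matrix.one_apply_eq] at h1
    have h2 : xx V ∣ (1 : V) := by
      rw [← h1]
      exact Finset.dvd_sum fun k _ => (hW k l).mul_left _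
    exact (xx_prime V).not_isUnit (isUnit_of_dvd_one h2)
  have hP0 : P = 0 := by
    rw [← hWS]
    ext k l
    rw [Matrix.mul_apply, Finset.univ_eq_empty, Finset.sum_empty]; rfl
  apply eq_zero_of_Ebar ε hε
  rw [hP, hP0, smul_zero]

/-- `M_j` is indecomposable -/
theorem indecomposable_MM {j : ℕ} (hj : 1 ≤ j) (A B : Submodule (AR O V) (MM O V j))
    (h : IsCompl A B) : A = ⊥ ∨ B = ⊥ := by
  let ε : MM O V j →ₗ[AR O V] MM O V j := A.projection B h
  have hε : ∀ a, ε (ε a) = ε a := fun a =>
    Submodule.projection_apply_of_mem_left h (Submodule.projection_apply_mem h a)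
  let ε' : MM O V j →ₗ[AR O V] MM O V j := LinearMap.id - ε
  have hε' : ∀ a, ε' (ε' a) = ε' a := by
    intro a
    simp only [ε', LinearMap.sub_apply, LinearMap.id_apply, map_sub, hε]
    abel
  rcases dichotomy ε hj hε with h1 | h1
  · left
    have h2 := main_zero hj ε hε h1
    have h3 : LinearMap.range ε = A := Submodule.range_projection h
    rw [← h3, h2, LinearMap.range_zero]
  · right
    have h2 := main_zero hj ε' hε' h1
    have h3 : LinearMap.ker ε = B := Submodule.ker_projection h
    have h4 : ε = LinearMap.id := (sub_eq_zero.mp h2).symm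
    rw [← h3, h4, LinearMap.ker_id]

end Pool.Agent.Helper12.BCM
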