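import Mathlib
import Pool.Agent.Helper12.BCM.MInd
import Pool.Agent.Helper12.BCM.Len
import Pool.Agent.Helper12.BCM.Compl

set_option autoImplicit false

namespace Pool.Agent.Helper12.BCM

open IsLocalRing

variable {O V : Type} [CommRing O] [IsDomain O] [UniqueFactorizationMonoid O]
    [CommRing V] [IsDomain V] [IsPrincipalIdealRing V] [IsLocalRing V] [VSetup V]
    [Algebra O V] [Setup O V]

lemma reg2_MM (j : ℕ) : Reg2 (MM O V j) (xA O V) (yyA O V) := by
  constructor
  · intro m hm
    apply Subtype.ext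
    funext l
    have h1 : xA O V * m.1 l = 0 := congrFun (congrArg Subtype.val hm) l
    exact (mul_eq_zero.mp h1).resolve_left (xA_prime O V).ne_zero
  · intro m m' h
    have h1 : ∀ l, yyA O V * m.1 l = xA O V * m'.1 l := fun l =>
      congrFun (congrArg Subtype.val h) l
    have h2 : ∀ l, xA O V ∣ m.1 l := fun l =>
      ((xA_prime O V).dvd_or_dvd ⟨m'.1 l, h1 l⟩).resolve_left not_xA_dvd_yA
    choose w hw using h2
    have h3 : ∀ l, m'.1 l = yyA O V * w l := by
      intro l
      apply mul_left_cancel₀ (xA_prime O V).ne_zero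
      rw [← h1, hw]; ring
    have h4 : w ∈ MM O V j := by
      rw [mem_MM]
      have h5 := m'.2
      rw [mem_MM] at h5
      have h6 : ∑ k, m'.1 k * ell O V j k = yyA O V * ∑ k, w k * ell O V j k := by
        rw [Finset.mul_sum]
        exact Finset.sum_congr rfl fun k _ => by rw [h3]; ring
      rw [h6] at h5
      exact (xA_prime O V).pow_dvd_of_dvd_mul_left j not_xA_dvd_yA h5
    exact ⟨⟨w, h4⟩, Subtype.ext (funext hw)⟩

lemma linearIndependent_hh (j : ℕ) : LinearIndependent (AR O V) (hh O V j) := by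
  rw [Fintype.linearIndependent_iff]
  intro c hc k
  have h1 := congrFun (congrArg Subtype.val hc) k
  rw [Submodule.coe_sum, Finset.sum_apply, Finset.sum_eq_single k] at h1
  · have h2 : c k * xA O V ^ j = 0 := by
      have h3 : ((c k • hh O V j k : MM O V j).1 : Fin (j + 1) → AR O V) k =
          c k * (Pi.single k (xA O V ^ j) : Fin (j + 1) → AR O V) k := rfl
      rw [h3, Pi.single_eq_same] at h1
      exact h1
    exact (mul_eq_zero.mp h2).resolve_right (pow_ne_zero _ (xA_prime O V).ne_zero)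
  · intro l _ hl
    show c l * (Pi.single l (xA O V ^ j) : Fin (j + 1) → AR O V) k = 0
    rw [Pi.single_eq_of_ne (Ne.symm hl), mul_zero]
  · intro h; exact absurd (Finset.mem_univ _) h

lemma maxA_pow_le (n : ℕ) : maximalIdeal (AR O V) ^ (4 * n) ≤
    Ideal.span {xA O V ^ n} ⊔ Ideal.span {yyA O V ^ n} := by
  intro z hz
  obtain ⟨s, s', hs⟩ := max_pow_le (O := O) n (mem_pow_iff.mp hz)
  obtain ⟨a, b, hab⟩ := contract n n hs
  rw [hab]
  exact Submodule.add_mem_sup (Ideal.mem_span_singleton.mpr ⟨a, rfl⟩)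
    (Ideal.mem_span_singleton.mpr ⟨b, rfl⟩)

lemma hs_MM_ge (j n : ℕ) : (n : ℕ∞) * (n * ((j + 1 : ℕ) : ℕ∞)) ≤ hs (AR O V) (MM O V j) (4 * n) := by
  refine le_trans ?_ (hs_ge (reg2_MM j) (4 * n) n (maxA_pow_le n))
  gcongr
  exact le_qlen_of_linearIndependent xA_mem_max yA_mem_max (hh O V j) (linearIndependent_hh j)

instance nontrivial_MM (j : ℕ) : Nontrivial (MM O V j) :=
  ⟨hh O V j 0, 0, (linearIndependent_hh j).ne_zero 0⟩

lemma exists_equiv_T : Nonempty (AdicCompletion (maximalIdeal (AR O V)) (AR O V) ≃+* TR V) := by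
  obtain ⟨F, -⟩ := exists_completion_equiv (maximalIdeal (AR O V)) (maximalIdeal (TR V))
    (inc O V) (fun n z => mem_pow_iff.symm) (fun n z => density z n)
  exact ⟨F⟩

end Pool.Agent.Helper12.BCM
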