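import Mathlib
import Pool.Agent.Helper12.BCM.Setup

set_option autoImplicit false

namespace Pool.Agent.Helper12.BCM

open Polynomial

noncomputable instance vsetupQ : VSetup (PowerSeries ℚ) where
  x := PowerSeries.X
  hmax := PowerSeries.maximalIdeal_eq_span_X
  hne := PowerSeries.X_ne_zero
  hcomplete := inferInstance

lemma algebraMap_QX (p : ℚ[X]) : algebraMap ℚ[X] (PowerSeries ℚ) p = (p : PowerSeries ℚ) := by
  rw [PowerSeries.algebraMap_apply']
  ext n
  simp

lemma exists_transcendental : ∃ w : PowerSeries ℚ, Transcendental ℚ[X] ((PowerSeries.X : PowerSeries ℚ) * w) := by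
  by_contra hcon
  push Not at hcon
  have hinj : FaithfulSMul ℚ[X] (PowerSeries ℚ) := by
    rw [faithfulSMul_iff_algebraMap_injective]
    intro p q h
    rw [algebraMap_QX, algebraMap_QX] at h
    exact Polynomial.coe_injective ℚ h
  -- all power series are algebraic
  have hall : ∀ v : PowerSeries ℚ, IsAlgebraic ℚ[X] v := by
    intro v
    have h1 : v = algebraMap ℚ[X] (PowerSeries ℚ) (C (PowerSeries.constantCoeff v)) +
        PowerSeries.X * (PowerSeries.mk fun p => PowerSeries.coeff (p + 1) v) := by
      rw [algebraMap_QX, Polynomial.coe_C, add_comm]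
      exact PowerSeries.eq_X_mul_shift_add_const v
    rw [h1]
    refine (isAlgebraic_algebraMap _).add ?_
    have := hcon (PowerSeries.mk fun p => PowerSeries.coeff (p + 1) v)
    rw [Transcendental, not_not] at this
    exact this
  have hcQ : Countable ℚ[X] := by
    rw [← Cardinal.mk_le_aleph0_iff]
    refine (Polynomial.cardinalMk_le_max).trans ?_
    rw [max_le_iff]
    exact ⟨Cardinal.mk_le_aleph0, le_rfl⟩
  have hcount : Set.Countable {v : PowerSeries ℚ | IsAlgebraic ℚ[X] v} :=
    Algebraic.countable ℚ[X] (PowerSeries ℚ)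
  have huniv : {v : PowerSeries ℚ | IsAlgebraic ℚ[X] v} = Set.univ := by
    ext v; simp [hall v]
  rw [huniv, Set.countable_univ_iff] at hcount
  -- an injection of `Set ℕ`
  classical
  let f : Set ℕ → PowerSeries ℚ := fun s => PowerSeries.mk fun n => if n ∈ s then 1 else 0
  have hf : Function.Injective f := by
    intro s t h
    ext n
    have h1 := congrArg (PowerSeries.coeff n) h
    simp only [f, PowerSeries.coeff_mk] at h1
    by_cases hs : n ∈ s <;> by_cases ht : n ∈ t <;> simp_all
  have hcs : Countable (Set ℕ) := hf.countable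
  obtain ⟨g, hg⟩ := exists_surjective_nat (Set ℕ)
  exact Function.cantor_surjective g hg

noncomputable instance setupQ : Setup ℚ[X] (PowerSeries ℚ) where
  x := X
  w := exists_transcendental.choose
  hx := by
    rw [algebraMap_QX, Polynomial.coe_X]; rfl
  happrox := by
    intro v
    refine ⟨C (PowerSeries.constantCoeff v), ?_⟩
    show PowerSeries.X ∣ _
    rw [PowerSeries.X_dvd_iff, algebraMap_QX, Polynomial.coe_C]
    simp
  hrefl := by
    intro o h
    have h1 : (PowerSeries.X : PowerSeries ℚ) ∣ algebraMap ℚ[X] (PowerSeries ℚ) o := h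
    rw [algebraMap_QX, PowerSeries.X_dvd_iff] at h1
    rw [Polynomial.X_dvd_iff]
    simpa using h1
  htrans := exists_transcendental.choose_spec

end Pool.Agent.Helper12.BCM
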