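import Mathlib
import Pool.Agent.Helper12.BCM.TMod

set_option autoImplicit false

namespace Pool.Agent.Helper12.BCM

variable {V : Type} [CommRing V] [IsDomain V] [IsPrincipalIdealRing V] [IsLocalRing V] [VSetup V]

variable {N : Type*} [AddCommGroup N] [Module (TR V) N]
  [Module (PowerSeries V) N] [IsScalarTower (PowerSeries V) (TR V) N]

/-- kernel of `α_i` -/
lemma cc_Em_eq_zero_iff {i : Bool} {κ : Type} [Fintype κ]
    (b : Module.Basis κ (PowerSeries V) (Kf V N i)) (n : N) :
    cc b (Em V i n) = 0 ↔ ∃ k ∈ Kf V N i, ∃ k' ∈ Kf V N (!i), n = k + k' := by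
  constructor
  · intro h0
    obtain ⟨k, hk⟩ := exists_eq_ofCC_add b (Em V i n)
    have h1 : ofCC b (cc b (Em V i n)) = 0 := by
      rw [h0, ofCC]; simp
    rw [h1, zero_add] at hk
    refine ⟨k.1, k.2, n - k.1, ?_, by abel⟩
    have h2 : Em V i (n - k.1) = 0 := by
      rw [map_sub, hk, Em_of_mem k.2, sub_self]
    have h3 := congrArg Subtype.val h2
    exact h3
  · rintro ⟨k, hk, k', hk', rfl⟩
    rw [map_add, Em_of_mem hk, Em_of_mem_not hk', add_zero, cc_X_smul]

lemma J_lemma (h : GoodN (V := V) N) {κ : Bool → Type} [∀ i, Fintype (κ i)]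
    (b : ∀ i, Module.Basis (κ i) (PowerSeries V) (Kf V N i)) (n : N)
    (hn : ∀ i, ∀ l, xx V ∣ cc (b i) (Em V i n) l) :
    ∃ n', ∀ i, cc (b i) (Em V i n) = xx V • cc (b i) (Em V i n') := by
  have h1 : ∀ i, ∃ k k' : Kf V N i, Em V i n = (PowerSeries.C (xx V)) • k +
      (PowerSeries.X : PowerSeries V) • k' := by
    intro i
    obtain ⟨k', hk'⟩ := exists_eq_ofCC_add (b i) (Em V i n)
    choose g hg using hn i
    have h2 : cc (b i) (Em V i n) = xx V • g := by
      funext l; rw [hg l]; rfl
    refine ⟨ofCC (b i) g, k', ?_⟩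
    rw [← ofCC_smul, ← h2]; exact hk'
  choose k k' hk using h1
  -- subtract
  let n1 : N := n - (k' true).1 - (k' false).1
  have hEm : ∀ i, Em V i n1 = (PowerSeries.C (xx V)) • k i := by
    intro i
    cases i
    · have e1 : Em V false (k' true).1 = 0 := Em_of_mem_not (i := false) (k' true).2
      have e2 : Em V false (k' false).1 = (PowerSeries.X : PowerSeries V) • k' false :=
        Em_of_mem (k' false).2
      show Em V false (n - (k' true).1 - (k' false).1) = _
      rw [map_sub, map_sub, hk, e1, e2]; abel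
    · have e1 : Em V true (k' false).1 = 0 := Em_of_mem_not (i := true) (k' false).2
      have e2 : Em V true (k' true).1 = (PowerSeries.X : PowerSeries V) • k' true :=
        Em_of_mem (k' true).2
      show Em V true (n - (k' true).1 - (k' false).1) = _
      rw [map_sub, map_sub, hk, e1, e2]; abel
  obtain ⟨n', hn'⟩ := h.sx n1 (fun i => by
    have h3 := congrArg Subtype.val (hEm (!i))
    refine ⟨(k (!i)).1, ?_⟩
    have h4 : ee (V := V) (!(!i)) • n1 = (PowerSeries.C (xx V)) • (k (!i)).1 := h3
    rw [Bool.not_not] at h4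
    rw [h4, C_smul]; rfl)
  refine ⟨n', fun i => ?_⟩
  have h5 : cc (b i) (Em V i n) = cc (b i) (Em V i n1) := by
    rw [hEm, hk, cc_add, cc_X_smul, add_zero]
  rw [h5, hn', Em_smul, pr_xT, cc_smul, PowerSeries.constantCoeff_C]

/-- the splitting -/
lemma split_step {i : Bool} {κ κ' : Type} [Fintype κ] [Fintype κ']
    (b : Module.Basis κ (PowerSeries V) (Kf V N i))
    (b' : Module.Basis κ' (PowerSeries V) (Kf V N (!i)))
    (a : V) (q0 : N) (e : κ → V) (μ : (κ → V) →ₗ[V] V) (φ : (κ' → V) →ₗ[V] V)
    (ha : a ≠ 0) (hq : cc b (Em V i q0) = a • e) (hφ : φ (cc b' (Em V (!i) q0)) = 1)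
    (hμ : ∀ n : N, μ (cc b (Em V i n)) = a * φ (cc b' (Em V (!i) n))) :
    ∃ (p q : N) (Q : Submodule (TR V) N), IsCompl (Submodule.span (TR V) {p, q}) Q ∧ p ≠ 0 := by
  classical
  -- the functional
  have hex : ∀ n : N, ∃ t : TR V, pr i t = PowerSeries.C a * liftF b' φ (Em V (!i) n) ∧
      pr (!i) t = liftF b μ (Em V i n) := fun n =>
    ⟨mk2 i (PowerSeries.C a * liftF b' φ (Em V (!i) n)) (liftF b μ (Em V i n))
        (by rw [map_mul, PowerSeries.constantCoeff_C, constantCoeff_liftF, constantCoeff_liftF, hμ]),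
      pr_mk2_self _ _ _ _, pr_mk2_not _ _ _ _⟩
  choose lam0 hl1 hl2 using hex
  let lam : N →ₗ[TR V] TR V :=
    { toFun := lam0
      map_add' := fun n m => TR.ext2 i (by
          rw [map_add, hl1, hl1, hl1, map_add, map_add, mul_add])
        (by rw [map_add, hl2, hl2, hl2, map_add, map_add])
      map_smul' := fun z n => TR.ext2 i (by
          rw [RingHom.id_apply, smul_eq_mul, map_mul, hl1, hl1, Em_smul,
            map_smul, Bool.not_not, smul_eq_mul]; ring)
        (by rw [RingHom.id_apply, smul_eq_mul, map_mul, hl2, hl2, Em_smul,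
            map_smul, smul_eq_mul]) }
  have hlam1 : ∀ n, pr i (lam n) = PowerSeries.C a * liftF b' φ (Em V (!i) n) := hl1
  have hlam2 : ∀ n, pr (!i) (lam n) = liftF b μ (Em V i n) := hl2
  -- adjust `q0`
  obtain ⟨k', hk'⟩ := exists_eq_ofCC_add b (Em V i q0)
  rw [hq, ofCC_smul] at hk'
  let q : N := q0 - k'.1
  let e' : Kf V N i := ofCC b e
  have hq1 : Em V i q = PowerSeries.C a • e' := by
    show Em V i (q0 - k'.1) = _
    rw [map_sub, Em_of_mem k'.2, hk']; abel
  have hq2 : Em V (!i) q = Em V (!i) q0 := by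
    show Em V (!i) (q0 - k'.1) = _
    have : Em V (!i) k'.1 = 0 := Em_of_mem_not (by rw [Bool.not_not]; exact k'.2)
    rw [map_sub, this, sub_zero]
  have hμe : μ e = 1 := by
    have h1 := hμ q0
    rw [hq, hφ, map_smul, smul_eq_mul] at h1
    exact mul_left_cancel₀ ha h1
  set u : PowerSeries V := liftF b' φ (Em V (!i) q) with hu
  have hu1 : PowerSeries.constantCoeff u = 1 := by
    rw [hu, constantCoeff_liftF, hq2, hφ]
  have hCa : PowerSeries.C a ≠ 0 := by
    intro h0
    have := congrArg PowerSeries.constantCoeff h0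
    rw [PowerSeries.constantCoeff_C, map_zero] at this
    exact ha this
  have hu0 : u ≠ 0 := by
    intro h0; rw [h0, map_zero] at hu1; exact zero_ne_one hu1
  have hq3 : pr i (lam q) = PowerSeries.C a * u := hlam1 q
  have hq4 : pr (!i) (lam q) = PowerSeries.C a := by
    rw [hlam2, hq1, map_smul, liftF_ofCC, hμe, map_one, smul_eq_mul, mul_one]
  have he1 : pr i (lam e'.1) = 0 := by
    have : Em V (!i) e'.1 = 0 := Em_of_mem_not (by rw [Bool.not_not]; exact e'.2)
    rw [hlam1, this, map_zero, mul_zero]
  have he2 : pr (!i) (lam e'.1) = PowerSeries.X := by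
    rw [hlam2, Em_of_mem e'.2, map_smul]
    have : (⟨e'.1, e'.2⟩ : Kf V N i) = ofCC b e := rfl
    rw [this, liftF_ofCC, hμe, map_one, smul_eq_mul, mul_one]
  refine ⟨q, e'.1, LinearMap.ker lam, ?_, ?_⟩
  · rw [isCompl_iff]
    constructor
    · rw [Submodule.disjoint_def]
      intro n hn1 hn2
      rw [LinearMap.mem_ker] at hn2
      obtain ⟨z, z', rfl⟩ := Submodule.mem_span_pair.mp hn1
      rw [map_add, map_smul, map_smul, smul_eq_mul, smul_eq_mul] at hn2
      have h1 := congrArg (pr i) hn2
      have h2 := congrArg (pr (!i)) hn2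
      rw [map_add, map_mul, map_mul, hq3, he1, mul_zero, add_zero, map_zero] at h1
      rw [map_add, map_mul, map_mul, hq4, he2, map_zero] at h2
      have h3 : pr i z = 0 := (mul_eq_zero.mp h1).resolve_right (mul_ne_zero hCa hu0)
      obtain ⟨g, hg⟩ := exists_ee_mul (!i) (z := z) (by rw [Bool.not_not]; exact h3)
      have h4 : pr (!i) z = PowerSeries.X * g := by rw [hg, map_mul, ee_self, pr_dg]
      rw [h4] at h2
      have h5 : pr (!i) z' = - (g * PowerSeries.C a) := by
        have : PowerSeries.X * (g * PowerSeries.C a + pr (!i) z') = 0 := by rw [← h2]; ring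
        have := (mul_eq_zero.mp this).resolve_left PowerSeries.X_ne_zero
        rw [eq_neg_iff_add_eq_zero, add_comm]; exact this
      have h6 : ee (V := V) (!i) • q = PowerSeries.C a • e'.1 := congrArg Subtype.val hq1
      rw [smul_of_mem_Kf e'.2 z', h5, hg, mul_comm, mul_smul, h6, ← C_smul, neg_smul, mul_smul]
      abel
    · rw [codisjoint_iff, eq_top_iff]
      rintro n -
      set f := liftF b' φ (Em V (!i) n) with hf
      set g := liftF b μ (Em V i n) with hg
      have hfg : PowerSeries.constantCoeff g = a * PowerSeries.constantCoeff f := by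
        rw [hf, hg, constantCoeff_liftF, constantCoeff_liftF, hμ]
      have huu : IsUnit u := by
        rw [PowerSeries.isUnit_iff_constantCoeff, hu1]; exact isUnit_one
      obtain ⟨u', hu'⟩ := huu.exists_right_inv
      have hu'1 : PowerSeries.constantCoeff u' = 1 := by
        have := congrArg PowerSeries.constantCoeff hu'
        rwa [map_mul, hu1, one_mul, map_one] at this
      let z : TR V := mk2 i (u' * f) (PowerSeries.C (PowerSeries.constantCoeff f)) (by
        rw [map_mul, hu'1, one_mul, PowerSeries.constantCoeff_C])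
      have hh : PowerSeries.X ∣ g - PowerSeries.C a * PowerSeries.C (PowerSeries.constantCoeff f) := by
        rw [PowerSeries.X_dvd_iff, map_sub, hfg, map_mul, PowerSeries.constantCoeff_C,
          PowerSeries.constantCoeff_C, sub_self]
      obtain ⟨h, hh⟩ := hh
      have hmem : n - (z • q + dg h • e'.1) ∈ LinearMap.ker lam := by
        rw [LinearMap.mem_ker, map_sub, map_add, map_smul, map_smul, smul_eq_mul, smul_eq_mul]
        refine TR.ext2 i ?_ ?_
        · rw [map_sub, map_add, map_mul, map_mul, hlam1 n, hq3, he1, mul_zero, add_zero, map_zero,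
            pr_mk2_self]
          calc PowerSeries.C a * f - u' * f * (PowerSeries.C a * u)
              = PowerSeries.C a * f * (1 - u * u') := by ring
            _ = 0 := by rw [hu', sub_self, mul_zero]
        · rw [map_sub, map_add, map_mul, map_mul, hlam2 n, hq4, he2, map_zero, pr_mk2_not, pr_dg]
          calc g - (PowerSeries.C (PowerSeries.constantCoeff f) * PowerSeries.C a
                + h * PowerSeries.X)
              = (g - PowerSeries.C a * PowerSeries.C (PowerSeries.constantCoeff f))
                - PowerSeries.X * h := by ring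
            _ = 0 := by rw [hh, sub_self]
      have : n = (z • q + dg h • e'.1) + (n - (z • q + dg h • e'.1)) := by abel
      rw [this]
      exact Submodule.add_mem_sup
        (Submodule.mem_span_pair.mpr ⟨z, dg h, rfl⟩) hmem
  · intro h0
    rw [h0, map_zero, map_zero] at hq4
    exact hCa hq4.symm

/-- the case where everything is killed by `ee i` -/
lemma gen_of_Kf {i : Bool} {r : ℕ}
    (b : Module.Basis (Fin r) (PowerSeries V) (Kf V N i)) (hall : ∀ n : N, n ∈ Kf V N i)
    (hind : ∀ P Q : Submodule (TR V) N, IsCompl P Q → P = ⊥ ∨ Q = ⊥) :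
    ∃ p : N, ∀ n : N, ∃ s : TR V, n = s • p := by
  rcases Nat.eq_zero_or_pos r with rfl | hr
  · refine ⟨0, fun n => ⟨0, ?_⟩⟩
    have : (⟨n, hall n⟩ : Kf V N i) = 0 := by
      rw [← b.sum_repr ⟨n, hall n⟩]; simp
    rw [zero_smul]
    exact congrArg Subtype.val this
  · let l0 : Fin r := ⟨0, hr⟩
    let π : N →ₗ[TR V] N :=
      { toFun := fun n => b.repr ⟨n, hall n⟩ l0 • (b l0 : N)
        map_add' := fun n m => by
          have : (⟨n + m, hall (n + m)⟩ : Kf V N i) = ⟨n, hall n⟩ + ⟨m, hall m⟩ := rfl
          rw [this, map_add, Finsupp.add_apply, add_smul]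
        map_smul' := fun z n => by
          have h1 : (⟨z • n, hall (z • n)⟩ : Kf V N i) = pr (!i) z • (⟨n, hall n⟩ : Kf V N i) :=
            Subtype.ext (smul_of_mem_Kf (hall n) z)
          have h2 : z • (b.repr ⟨n, hall n⟩ l0 • (b l0 : N)) =
              pr (!i) z • (b.repr ⟨n, hall n⟩ l0 • (b l0 : N)) :=
            smul_of_mem_Kf (Submodule.smul_mem _ _ (b l0).2) z
          rw [RingHom.id_apply, h2, h1, map_smul, Finsupp.smul_apply, smul_eq_mul, mul_smul] }
    have hπ : ∀ n, π n = b.repr ⟨n, hall n⟩ l0 • (b l0 : N) := fun n => rfl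
    have hπ2 : ∀ n, π (π n) = π n := by
      intro n
      rw [hπ (π n)]
      have h1 : (⟨π n, hall (π n)⟩ : Kf V N i) = b.repr ⟨n, hall n⟩ l0 • b l0 := rfl
      rw [h1, map_smul, Module.Basis.repr_self, Finsupp.smul_apply, Finsupp.single_eq_same,
        smul_eq_mul, mul_one]
      rfl
    have hc : IsCompl (LinearMap.range π) (LinearMap.ker π) := by
      rw [isCompl_iff]
      constructor
      · rw [Submodule.disjoint_def]
        rintro _ ⟨m, rfl⟩ hm
        rw [LinearMap.mem_ker, hπ2] at hm
        exact hm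
      · rw [codisjoint_iff, eq_top_iff]
        rintro n -
        have : n = π n + (n - π n) := by abel
        rw [this]
        exact Submodule.add_mem_sup (LinearMap.mem_range_self _ _)
          (by rw [LinearMap.mem_ker, map_sub, hπ2, sub_self])
    rcases hind _ _ hc with h | h
    · exfalso
      have h1 : π (b l0) ∈ LinearMap.range π := LinearMap.mem_range_self _ _
      rw [h, Submodule.mem_bot, hπ] at h1
      have h2 : (⟨((b l0 : Kf V N i) : N), hall _⟩ : Kf V N i) = b l0 := rfl
      rw [h2, Module.Basis.repr_self, Finsupp.single_eq_same, one_smul] at h1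
      exact b.ne_zero l0 (Subtype.ext h1)
    · refine ⟨(b l0 : N), fun n => ⟨dg (b.repr ⟨n, hall n⟩ l0), ?_⟩⟩
      have h1 : n - π n ∈ LinearMap.ker π := by
        rw [LinearMap.mem_ker, map_sub, hπ2, sub_self]
      rw [h, Submodule.mem_bot, sub_eq_zero] at h1
      rw [← C_smul]
      exact h1

/-- classification, weak form: indecomposable modules of depth two over `T` are generated by two
elements -/
theorem two_gen {N : Type*} [AddCommGroup N] [Module (TR V) N] [Module.Finite (TR V) N]
    (h : GoodN (V := V) N)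
    (hind : ∀ P Q : Submodule (TR V) N, IsCompl P Q → P = ⊥ ∨ Q = ⊥) :
    ∃ p q : N, ∀ n : N, ∃ s t : TR V, n = s • p + t • q := by
  classical
  letI : Module (PowerSeries V) N := Module.compHom N (dg (V := V))
  haveI : IsScalarTower (PowerSeries V) (TR V) N := ⟨fun f z n => by
    show (dg f * z) • n = dg f • (z • n)
    rw [mul_smul]⟩
  letI : Module V N := Module.compHom N ((dg (V := V)).comp (PowerSeries.C (R := V)))
  have hV : ∀ (v : V) (n : N), v • n = PowerSeries.C v • n := fun v n => rfl
  have hfree : ∀ i, ∃ (r : ℕ), Nonempty (Module.Basis (Fin r) (PowerSeries V) (Kf V N i)) := by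
    intro i
    obtain ⟨h1, h2⟩ := free_Kf h i
    exact ⟨_, ⟨Module.finBasis (PowerSeries V) (Kf V N i)⟩⟩
  choose r hb using hfree
  let b : ∀ i, Module.Basis (Fin (r i)) (PowerSeries V) (Kf V N i) := fun i => (hb i).some
  let α : ∀ i, N →ₗ[V] (Fin (r i) → V) := fun i =>
    { toFun := fun n => cc (b i) (Em V i n)
      map_add' := fun n m => by rw [map_add, cc_add]
      map_smul' := fun v n => by
        rw [hV, map_smul, cc_smul, PowerSeries.constantCoeff_C]; rfl }
  have hα : ∀ i n, α i n = cc (b i) (Em V i n) := fun i n => rfl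
  have hker : ∀ n, α true n = 0 ↔ α false n = 0 := by
    intro n
    rw [hα, hα, cc_Em_eq_zero_iff, cc_Em_eq_zero_iff]
    constructor
    · rintro ⟨k, hk, k', hk', rfl⟩
      exact ⟨k', hk', k, hk, add_comm _ _⟩
    · rintro ⟨k, hk, k', hk', rfl⟩
      exact ⟨k', hk', k, hk, add_comm _ _⟩
  by_cases h0 : ∃ n, α true n ≠ 0
  · have hJ : ∀ n, (∀ l, xx V ∣ α true n l) → (∀ l, xx V ∣ α false n l) →
        ∃ n', α true n = xx V • α true n' := by
      intro n h1 h2
      obtain ⟨n', hn'⟩ := J_lemma h b n (fun i => by cases i; exact h2; exact h1)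
      exact ⟨n', hn' true⟩
    have key : ∀ i, (∃ (a : V) (q : N) (e : Fin (r i) → V) (μ : (Fin (r i) → V) →ₗ[V] V)
        (φ : (Fin (r (!i)) → V) →ₗ[V] V),
        a ≠ 0 ∧ α i q = a • e ∧ φ (α (!i) q) = 1 ∧ ∀ n, μ (α i n) = a * φ (α (!i) n)) →
        ∃ p q : N, ∀ n : N, ∃ s t : TR V, n = s • p + t • q := by
      rintro i ⟨a, q, e, μ, φ, ha, he, hφ, hμ⟩
      obtain ⟨p, q, Q, hc, hp⟩ := split_step (b i) (b (!i)) a q e μ φ ha he hφ hμ
      refine ⟨p, q, fun n => ?_⟩
      rcases hind _ _ hc with h1 | h1
      · exfalso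
        apply hp
        have : p ∈ Submodule.span (TR V) {p, q} := Submodule.subset_span (by simp)
        rwa [h1, Submodule.mem_bot] at this
      · rw [h1] at hc
        have h2 : Submodule.span (TR V) {p, q} = ⊤ := by
          have := hc.sup_eq_top
          rwa [sup_bot_eq] at this
        have h3 : n ∈ Submodule.span (TR V) {p, q} := by rw [h2]; exact Submodule.mem_top
        obtain ⟨s, t, hst⟩ := Submodule.mem_span_pair.mp h3
        exact ⟨s, t, hst.symm⟩
    rcases splits_or (α true) (α false) hker hJ h0 with hs | hs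
    · exact key true hs
    · exact key false hs
  · push Not at h0
    -- decomposition into the two kernels
    let KT : Bool → Submodule (TR V) N := fun i => LinearMap.ker (LinearMap.lsmul (TR V) N (ee i))
    have hKT : ∀ i n, n ∈ KT i ↔ ee (V := V) i • n = 0 := fun i n => by
      show n ∈ LinearMap.ker _ ↔ _
      rw [LinearMap.mem_ker]; rfl
    have hc : IsCompl (KT true) (KT false) := by
      rw [isCompl_iff]
      constructor
      · rw [Submodule.disjoint_def]
        intro n h1 h2
        apply h.hy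
        rw [hKT] at h1 h2
        rw [← ee_add' true, add_smul, h1, zero_add]
        exact h2
      · rw [codisjoint_iff, eq_top_iff]
        rintro n -
        obtain ⟨k, hk, k', hk', rfl⟩ := (cc_Em_eq_zero_iff (b true) n).mp (h0 n)
        exact Submodule.add_mem_sup ((hKT _ _).mpr hk) ((hKT _ _).mpr hk')
    have hall : ∃ i, ∀ n : N, n ∈ Kf V N i := by
      rcases hind _ _ hc with h1 | h1
      · refine ⟨false, fun n => ?_⟩
        have h2 := hc.sup_eq_top
        rw [h1, bot_sup_eq] at h2
        have : n ∈ KT false := by rw [h2]; exact Submodule.mem_top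
        exact (hKT _ _).mp this
      · refine ⟨true, fun n => ?_⟩
        have h2 := hc.sup_eq_top
        rw [h1, sup_bot_eq] at h2
        have : n ∈ KT true := by rw [h2]; exact Submodule.mem_top
        exact (hKT _ _).mp this
    obtain ⟨i, hi⟩ := hall
    obtain ⟨p, hp⟩ := gen_of_Kf (b i) hi hind
    refine ⟨p, 0, fun n => ?_⟩
    obtain ⟨s, hs⟩ := hp n
    exact ⟨s, 0, by rw [smul_zero, add_zero]; exact hs⟩

end Pool.Agent.Helper12.BCM
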