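import Mathlib
import Pool.Agent.Helper12.BCM.TClass
import Pool.Agent.Helper12.BCM.Len

set_option autoImplicit false

namespace Pool.Agent.Helper12.BCM

open IsLocalRing

variable {V : Type} [CommRing V] [IsDomain V] [IsPrincipalIdealRing V] [IsLocalRing V] [VSetup V]

lemma mem_max_equiv {S T : Type*} [CommRing S] [IsLocalRing S] [CommRing T] [IsLocalRing T]
    (F : S ≃+* T) {s : S} : s ∈ maximalIdeal S ↔ F s ∈ maximalIdeal T := by
  rw [mem_maximalIdeal, mem_maximalIdeal, mem_nonunits_iff, mem_nonunits_iff,
    MulEquiv.isUnit_map F]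

/-- the classification transported along a ring isomorphism -/
theorem two_gen_S {S : Type*} [CommRing S] [IsLocalRing S] (F : S ≃+* TR V)
    {N : Type*} [AddCommGroup N] [Module S N] [Module.Finite S N] {a b : S}
    (ha : a ∈ maximalIdeal S) (hb : b ∈ maximalIdeal S) (hab : Reg2 N a b)
    (hind : ∀ P Q : Submodule S N, IsCompl P Q → P = ⊥ ∨ Q = ⊥) :
    ∃ p q : N, ∀ n : N, ∃ s t : S, n = s • p + t • q := by
  letI : Module (TR V) N := Module.compHom N (F.symm : TR V →+* S)
  have hsm : ∀ (z : TR V) (n : N), z • n = F.symm z • n := fun _ _ => rfl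
  have hsm' : ∀ (s : S) (n : N), s • n = F s • n := fun s n => by
    rw [hsm, RingEquiv.symm_apply_apply]
  haveI : Module.Finite (TR V) N := by
    obtain ⟨s, hs⟩ := (Module.Finite.fg_top : (⊤ : Submodule S N).FG)
    refine ⟨⟨s, ?_⟩⟩
    rw [eq_top_iff]
    rintro n -
    have hn : n ∈ Submodule.span S (s : Set N) := by rw [hs]; exact Submodule.mem_top
    induction hn using Submodule.span_induction with
    | mem n hn => exact Submodule.subset_span hn
    | zero => exact Submodule.zero_mem _
    | add n m _ _ h h' => exact Submodule.add_mem _ h h'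
    | smul r n _ h => rw [hsm']; exact Submodule.smul_mem _ _ h
  have hgood : GoodN (V := V) N := by
    refine goodN_of_reg2 (a := F a) (b := F b) ((mem_max_equiv F).mp ha) ((mem_max_equiv F).mp hb) ?_
    constructor
    · intro n hn
      rw [← hsm'] at hn
      exact hab.1 n hn
    · intro n n' hn
      rw [← hsm', ← hsm'] at hn
      obtain ⟨n'', hn''⟩ := hab.2 n n' hn
      exact ⟨n'', by rw [← hsm']; exact hn''⟩
  -- transport of submodules
  let tr : Submodule (TR V) N → Submodule S N := fun P =>
    { carrier := P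
      add_mem' := P.add_mem
      zero_mem' := P.zero_mem
      smul_mem' := fun s n hn => by
        have : s • n = F s • n := hsm' s n
        rw [this]; exact P.smul_mem _ hn }
  have htr : ∀ P n, n ∈ tr P ↔ n ∈ P := fun P n => Iff.rfl
  have htrb : ∀ P, tr P = ⊥ → P = ⊥ := by
    intro P h
    rw [Submodule.eq_bot_iff]
    intro n hn
    have : n ∈ tr P := hn
    rwa [h, Submodule.mem_bot] at this
  obtain ⟨p, q, hpq⟩ := two_gen hgood (fun P Q h => by
    have hc : IsCompl (tr P) (tr Q) := by
      rw [isCompl_iff] at h ⊢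
      constructor
      · rw [Submodule.disjoint_def]
        intro n h1 h2
        exact (Submodule.disjoint_def.mp h.1) n h1 h2
      · rw [codisjoint_iff, eq_top_iff]
        rintro n -
        have h1 : n ∈ P ⊔ Q := by rw [codisjoint_iff.mp h.2]; exact Submodule.mem_top
        obtain ⟨y, hy, z, hz, rfl⟩ := Submodule.mem_sup.mp h1
        exact Submodule.add_mem_sup (S := tr P) (T := tr Q) hy hz
    exact (hind _ _ hc).imp (htrb P) (htrb Q))
  refine ⟨p, q, fun n => ?_⟩
  obtain ⟨s, t, h⟩ := hpq n
  exact ⟨F.symm s, F.symm t, h⟩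

/-- finiteness of length of zero-dimensional quotients -/
lemma length_quot_ne_top {R : Type*} [CommRing R] [IsNoetherianRing R] (I : Ideal R)
    (h : ∀ P : Ideal R, P.IsPrime → I ≤ P → P.IsMaximal) : Module.length R (R ⧸ I) ≠ ⊤ := by
  have hk : Ring.KrullDimLE 0 (R ⧸ I) := by
    apply Ring.KrullDimLE.mk₀
    intro J hJ
    have hc : (J.comap (Ideal.Quotient.mk I)).IsPrime := hJ.comap _
    have hle : I ≤ J.comap (Ideal.Quotient.mk I) := by
      intro r hr
      rw [Ideal.mem_comap, Ideal.Quotient.eq_zero_iff_mem.mpr hr]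
      exact J.zero_mem
    have h4 := Ideal.map_comap_of_surjective (Ideal.Quotient.mk I)
      Ideal.Quotient.mk_surjective J
    have h5 := Ideal.map_eq_top_or_isMaximal_of_surjective
      (Ideal.Quotient.mk I) Ideal.Quotient.mk_surjective (h _ hc hle)
    rw [h4] at h5
    exact h5.resolve_left hJ.ne_top
  have hart : IsArtinianRing (R ⧸ I) :=
    isArtinianRing_iff_isNoetherianRing_krullDimLE_zero.mpr ⟨inferInstance, hk⟩
  rw [Module.length_eq_of_surjective (R := R ⧸ I) (S := R) Ideal.Quotient.mk_surjective]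
  exact Module.length_ne_top

/-- a parameter ideal of finite colength in a ring isomorphic to `T` -/
lemma exists_param {S : Type*} [CommRing S] [IsLocalRing S] (F : S ≃+* TR V) :
    ∃ a ∈ maximalIdeal S, ∃ b ∈ maximalIdeal S,
      Module.length S (S ⧸ Ideal.span {a, b}) ≠ ⊤ := by
  have hN : IsNoetherianRing S := isNoetherianRing_of_ringEquiv (TR V) F.symm
  refine ⟨F.symm (xT V), ?_, F.symm (yT V), ?_, length_quot_ne_top _ ?_⟩
  · rw [mem_max_equiv F, RingEquiv.apply_symm_apply]; exact xT_mem_max
  · rw [mem_max_equiv F, RingEquiv.apply_symm_apply]; exact yT_mem_max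
  · intro P hP hle
    have hx : F.symm (xT V) ∈ P := hle (Ideal.subset_span (by simp))
    have hy : F.symm (yT V) ∈ P := hle (Ideal.subset_span (by simp))
    have hP' : (P.comap (F.symm : TR V →+* S)).IsPrime := hP.comap _
    have h1 := eq_max_of_prime hP' hx hy
    have h2 : P = maximalIdeal S := by
      ext s
      rw [mem_max_equiv F, ← h1, Ideal.mem_comap]
      show _ ↔ F.symm (F s) ∈ P
      rw [RingEquiv.symm_apply_apply]
    rw [h2]; infer_instance

end Pool.Agent.Helper12.BCM
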